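/-
ROW AtP. The data of the product of two atoms with the condition `p ∣ n`. (Adapt `Pool/Agent/H6/EG/BeP.lean`.)
PROOF. (0) `gq` gives an absolute `C` with: for all real `x ≥ 0`, primes `p`: `∑_{r ∈ sq Q ⌊x⌋, x/p < r} 1/φ(r) ≤ (φ(Q)/Q) log p + 2 C EQ Q` (if `x ≥ p` difference of two values of `GG`; if `1 ≤ x < p`: `GG ≤ (φ(Q)/Q) log x + C EQ Q`; if `x < 1` it is `0`).
(1) Let `e` be squarefree, coprime to `Q`, `b = lcm(e, p)`. Then `∑_{B ∈ DAp} fAp(B) gcd(e,B)/B = e ∑_{d ∈ sq Q z_n} ∑_{d' ∈ sq Q z_n'} la_n(d) la_n'(d')/lcm(e, lcm(lcm d d', p))` (as `lcf_gcd`; `fAp` groups the pairs `(d,d')` by `lcm(lcm(d,d'),p)`)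
`= (e/b) * b ∑_{d,d'} la_n(d) la_n'(d')/lcm(b, lcm d d') = (gcd(e,p)/p) ∑_{r ∈ sq Q z_n, (r,b) = 1} Yb_n(r) Yb_n'(r)/φ(r)` (`selU`; `Yb_n(r) = Yb Q z_n (ya n) b r`).
(2) Let `e' = b/p`. For `r` coprime to `b`: `Yb_n(r) = ∑_{c ∣ e'} μ(c) (y_{rc} [rc ∈ sq Q z_n] - y_{rcp} [rcp ∈ sq Q z_n])` (the divisors of `b = p e'` are `c` and `c p`). For `r c` squarefree and coprime to `Q p` (otherwise both terms vanish) the bracket is
`v_n⁻¹ ([z_{n-1} < rc ≤ z_n] - [z_{n-1} < rcp ≤ z_n])` (`z_{-1} = 0`), which is `0` unless `rc ∈ (z_n/p, z_n]` or `rc ∈ (z_{n-1}/p, z_{n-1}]`, and at most `v_n⁻¹ ≤ v0⁻¹` in absolute value. By Cauchy-Schwarz (`2^ω(e')` divisors) and (0) with `x = z_n/c` and `x = z_{n-1}/c`: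
`∑_r Yb_n(r)²/φ(r) ≤ v0⁻² 4^ω(e') 2 ((φ(Q)/Q) log p + 2 C EQ Q)`. The same for `n'` (for `r ∉ sq Q z_n'` use `Yb_n'(r) = 0`), and Cauchy-Schwarz for the product.
(3) `ctrl_of_U` with `c = 4` and this `p`.
-/
import Pool.Agent.H6.EG.AtA
import Pool.Agent.H6.EG.BeP

set_option autoImplicit false

namespace Pool.Agent.H39.MT

open EG

/-- support of the product of two atoms times `1[p ∣ n]` -/
noncomputable def DAp (e0 v0 T : ℝ) (Q n n' p : ℕ) : Finset ℕ := lcD (DA e0 v0 T Q n n') {p}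

/-- coefficients of the product of two atoms times `1[p ∣ n]` -/
noncomputable def fAp (e0 v0 T : ℝ) (Q n n' p : ℕ) : ℕ → ℝ :=
  lcf (DA e0 v0 T Q n n') {p} (fA e0 v0 T Q n n') (fun _ => 1)

theorem AtP_mem {Q z p m : ℕ} (hp : p.Prime) (hpQ : Nat.Coprime p Q) (hm : Nat.Coprime m p) :
    m * p ∈ sq Q z ↔ m ∈ sq Q z ∧ m * p ≤ z := by
  rw [BeP_mem, BeP_mem]
  constructor
  · rintro ⟨⟨h1, h2⟩, h3, h4⟩
    have h5 : 1 ≤ m := Nat.pos_of_ne_zero (fun h => by rw [h, zero_mul] at h1; omega)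
    refine ⟨⟨⟨h5, (Nat.le_mul_of_pos_right _ hp.pos).trans h2⟩, h3.of_mul_left, ?_⟩, h2⟩
    exact Nat.Coprime.coprime_mul_right h4
  · rintro ⟨⟨⟨h1, h2⟩, h3, h4⟩, h5⟩
    refine ⟨⟨Nat.mul_pos h1 hp.pos, h5⟩, ?_, Nat.Coprime.mul_left h4 hpQ⟩
    exact (Nat.squarefree_mul hm).2 ⟨h3, hp.prime.squarefree⟩

/-- the number of the two windows which contain `m` -/
noncomputable def AtP_I (e0 v0 T : ℝ) (Q n p m : ℕ) : ℝ :=
  (if m ∈ sq Q (zz e0 v0 T n) ∧ zz e0 v0 T n < m * p then 1 else 0) +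
    (if m ∈ sq Q (zz e0 v0 T n) ∧ m ≤ zz e0 v0 T (n - 1) ∧ zz e0 v0 T (n - 1) < m * p then 1 else 0)

theorem AtP_bracket {e0 v0 T : ℝ} (hv0 : 0 < v0) {Q p m : ℕ} (n : ℕ) (hp : p.Prime)
    (hpQ : Nat.Coprime p Q) (hm : Nat.Coprime m p) :
    ((if m ∈ sq Q (zz e0 v0 T n) then ya e0 v0 T n m else 0) -
      (if m * p ∈ sq Q (zz e0 v0 T n) then ya e0 v0 T n (m * p) else 0)) ^ 2 ≤
      (v0⁻¹) ^ 2 * AtP_I e0 v0 T Q n p m := by
  have hw : (0 : ℝ) ≤ (v0⁻¹) ^ 2 := sq_nonneg _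
  have hI1 : (0 : ℝ) ≤ (if m ∈ sq Q (zz e0 v0 T n) ∧ zz e0 v0 T n < m * p then (1 : ℝ) else 0) := by
    split_ifs <;> norm_num
  have hI2 : (0 : ℝ) ≤ (if m ∈ sq Q (zz e0 v0 T n) ∧ m ≤ zz e0 v0 T (n - 1) ∧
      zz e0 v0 T (n - 1) < m * p then (1 : ℝ) else 0) := by
    split_ifs <;> norm_num
  have hI : 0 ≤ AtP_I e0 v0 T Q n p m := add_nonneg hI1 hI2
  have hR : 0 ≤ (v0⁻¹) ^ 2 * AtP_I e0 v0 T Q n p m := mul_nonneg hw hI
  by_cases h1 : m ∈ sq Q (zz e0 v0 T n)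
  · by_cases h2 : zz e0 v0 T n < m * p
    · have n1 : ¬ m * p ∈ sq Q (zz e0 v0 T n) :=
        fun h => absurd ((AtP_mem hp hpQ hm).1 h).2 (not_le.2 h2)
      rw [if_pos h1, if_neg n1, sub_zero]
      refine (AtA_ya_sq hv0 n m).trans (le_mul_of_one_le_right hw ?_)
      unfold AtP_I
      rw [if_pos ⟨h1, h2⟩]
      linarith
    · have h3 : m * p ∈ sq Q (zz e0 v0 T n) := (AtP_mem hp hpQ hm).2 ⟨h1, not_lt.1 h2⟩
      rw [if_pos h1, if_pos h3]
      have hmz : m ≤ zz e0 v0 T n := (BeP_mem.1 h1).1.2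
      have hmp : m ≤ m * p := Nat.le_mul_of_pos_right _ hp.pos
      by_cases hc : n = 0 ∨ zz e0 v0 T (n - 1) < m
      · have hc' : n = 0 ∨ zz e0 v0 T (n - 1) < m * p := by
          rcases hc with h | h
          · exact Or.inl h
          · exact Or.inr (lt_of_lt_of_le h hmp)
        have e1 : ya e0 v0 T n m = (vv v0 n)⁻¹ := by
          unfold ya
          rw [if_pos ⟨hmz, hc⟩]
        have e2 : ya e0 v0 T n (m * p) = (vv v0 n)⁻¹ := by
          unfold ya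
          rw [if_pos ⟨not_lt.1 h2, hc'⟩]
        rw [e1, e2, sub_self]
        simpa using hR
      · have e1 : ya e0 v0 T n m = 0 := by
          unfold ya
          rw [if_neg (fun h => hc h.2)]
        rw [not_or, not_lt] at hc
        rw [e1, zero_sub, neg_sq]
        by_cases h4 : zz e0 v0 T (n - 1) < m * p
        · refine (AtA_ya_sq hv0 n (m * p)).trans (le_mul_of_one_le_right hw ?_)
          unfold AtP_I
          rw [if_pos (⟨h1, hc.2, h4⟩ : m ∈ sq Q (zz e0 v0 T n) ∧ m ≤ zz e0 v0 T (n - 1) ∧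
            zz e0 v0 T (n - 1) < m * p)]
          linarith
        · have e2 : ya e0 v0 T n (m * p) = 0 := by
            unfold ya
            rw [if_neg]
            rintro ⟨-, h | h⟩
            · exact hc.1 h
            · exact h4 h
          rw [e2]
          simpa using hR
  · have n3 : ¬ m * p ∈ sq Q (zz e0 v0 T n) := fun h => h1 ((AtP_mem hp hpQ hm).1 h).1
    rw [if_neg h1, if_neg n3, sub_self]
    simpa using hR

theorem AtP_Y {Q z p e' r : ℕ} (y : ℕ → ℝ) (hp : p.Prime) (hb : Squarefree (p * e')) :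
    Yb Q z y (p * e') r = ∑ c ∈ e'.divisors, (ArithmeticFunction.moebius c : ℝ) *
      ((if r * c ∈ sq Q z then y (r * c) else 0) - (if r * c * p ∈ sq Q z then y (r * c * p) else 0)) := by
  have hcop : Nat.Coprime p e' := Nat.coprime_of_squarefree_mul hb
  rw [Yb, BeP_div hp hcop]
  refine Finset.sum_congr rfl fun c hc => ?_
  have hce : c ∣ e' := Nat.dvd_of_mem_divisors hc
  have hcp : Nat.Coprime c p := (Nat.Coprime.coprime_dvd_right hce hcop).symm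
  have hmu : (ArithmeticFunction.moebius (c * p) : ℝ) = - (ArithmeticFunction.moebius c : ℝ) := by
    rw [ArithmeticFunction.isMultiplicative_moebius.map_mul_of_coprime hcp,
      ArithmeticFunction.moebius_apply_prime hp]
    push_cast
    ring
  rw [hmu, ← mul_assoc r c p]
  ring

theorem AtP_ind {C : ℝ} (hC : 1 ≤ C) (hg : ∀ Q : ℕ, 1 ≤ Q → ∀ x : ℝ, 1 ≤ x →
    |GG Q ⌊x⌋₊ - (Nat.totient Q : ℝ) / Q * Real.log x| ≤ C * EQ Q) {e0 v0 T : ℝ} {Q p c : ℕ} (n : ℕ)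
    (hQ : 1 ≤ Q) (hp : p.Prime) (hc : 1 ≤ c) (S : Finset ℕ) :
    ∑ r ∈ S, AtP_I e0 v0 T Q n p (r * c) * (1 / (Nat.totient r : ℝ)) ≤
      2 * ((Nat.totient Q : ℝ) / Q * Real.log p + 2 * C * EQ Q) := by
  classical
  have hmem : ∀ {z r : ℕ}, r * c ∈ sq Q z → r ∈ sq Q z := by
    intro z r h
    obtain ⟨⟨h1, h2⟩, h3, h4⟩ := BeP_mem.1 h
    refine BeP_mem.2 ⟨⟨?_, (Nat.le_mul_of_pos_right _ hc).trans h2⟩, h3.of_mul_left,
      Nat.Coprime.coprime_mul_right h4⟩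
    exact Nat.pos_of_ne_zero (fun h => by rw [h, zero_mul] at h1; omega)
  have b1 := BeP_sum hC hg Q (zz e0 v0 T n) p c hQ hp.two_le hc
  have b2 := BeP_sum hC hg Q (zz e0 v0 T (n - 1)) p c hQ hp.two_le hc
  have s1 : ∑ r ∈ S, (if r * c ∈ sq Q (zz e0 v0 T n) ∧ zz e0 v0 T n < r * c * p then (1 : ℝ) else 0) *
      (1 / (Nat.totient r : ℝ)) ≤ (Nat.totient Q : ℝ) / Q * Real.log p + 2 * C * EQ Q := by
    refine le_trans (le_of_eq ?_) (le_trans (Finset.sum_le_sum_of_subset_of_nonneg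
      (s := S.filter (fun r => r * c ∈ sq Q (zz e0 v0 T n) ∧ zz e0 v0 T n < r * c * p)) ?_
      fun r _ _ => BeP_nn r) b1)
    · rw [Finset.sum_filter]
      refine Finset.sum_congr rfl fun r _ => ?_
      split_ifs <;> simp
    · intro r hr
      obtain ⟨-, h1, h2⟩ := Finset.mem_filter.1 hr
      exact Finset.mem_filter.2 ⟨hmem h1, (BeP_mem.1 h1).1.2, h2⟩
  have s2 : ∑ r ∈ S, (if r * c ∈ sq Q (zz e0 v0 T n) ∧ r * c ≤ zz e0 v0 T (n - 1) ∧
      zz e0 v0 T (n - 1) < r * c * p then (1 : ℝ) else 0) * (1 / (Nat.totient r : ℝ)) ≤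
      (Nat.totient Q : ℝ) / Q * Real.log p + 2 * C * EQ Q := by
    refine le_trans (le_of_eq ?_) (le_trans (Finset.sum_le_sum_of_subset_of_nonneg
      (s := S.filter (fun r => r * c ∈ sq Q (zz e0 v0 T n) ∧ r * c ≤ zz e0 v0 T (n - 1) ∧
        zz e0 v0 T (n - 1) < r * c * p)) ?_
      fun r _ _ => BeP_nn r) b2)
    · rw [Finset.sum_filter]
      refine Finset.sum_congr rfl fun r _ => ?_
      split_ifs <;> simp
    · intro r hr
      obtain ⟨-, h1, h2, h3⟩ := Finset.mem_filter.1 hr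
      have h4 := BeP_mem.1 h1
      have h5 : r * c ∈ sq Q (zz e0 v0 T (n - 1)) := BeP_mem.2 ⟨⟨h4.1.1, h2⟩, h4.2⟩
      exact Finset.mem_filter.2 ⟨hmem h5, h2, h3⟩
  have s3 : ∑ r ∈ S, AtP_I e0 v0 T Q n p (r * c) * (1 / (Nat.totient r : ℝ)) =
      ∑ r ∈ S, (if r * c ∈ sq Q (zz e0 v0 T n) ∧ zz e0 v0 T n < r * c * p then (1 : ℝ) else 0) *
      (1 / (Nat.totient r : ℝ)) + ∑ r ∈ S, (if r * c ∈ sq Q (zz e0 v0 T n) ∧
        r * c ≤ zz e0 v0 T (n - 1) ∧ zz e0 v0 T (n - 1) < r * c * p then (1 : ℝ) else 0) *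
        (1 / (Nat.totient r : ℝ)) := by
    rw [← Finset.sum_add_distrib]
    refine Finset.sum_congr rfl fun r _ => ?_
    unfold AtP_I
    ring
  rw [s3]
  linarith

theorem AtP_bound {C : ℝ} (hC : 1 ≤ C) (hg : ∀ Q : ℕ, 1 ≤ Q → ∀ x : ℝ, 1 ≤ x →
    |GG Q ⌊x⌋₊ - (Nat.totient Q : ℝ) / Q * Real.log x| ≤ C * EQ Q) {e0 v0 T : ℝ} (hv0 : 0 < v0)
    {Q p e' : ℕ} (n : ℕ) (hQ : 1 ≤ Q)
    (hp : p.Prime) (hpQ : Nat.Coprime p Q) (hb : Squarefree (p * e')) (S : Finset ℕ)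
    (hS : ∀ r ∈ S, Nat.Coprime r (p * e')) :
    ∑ r ∈ S, Yb Q (zz e0 v0 T n) (ya e0 v0 T n) (p * e') r ^ 2 / (Nat.totient r : ℝ) ≤
      4 ^ e'.primeFactors.card *
        ((v0⁻¹) ^ 2 * (2 * ((Nat.totient Q : ℝ) / Q * Real.log p + 2 * C * EQ Q))) := by
  classical
  set V := (Nat.totient Q : ℝ) / Q * Real.log p + 2 * C * EQ Q with hV
  have he' : Squarefree e' := hb.of_mul_right
  have hcop : Nat.Coprime p e' := Nat.coprime_of_squarefree_mul hb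
  have hcard : (e'.divisors.card : ℝ) = 2 ^ e'.primeFactors.card := by
    have h := Ssu_sum 1 he'
    have h2 : (1 : ℝ) + 1 = 2 := by norm_num
    rw [h2] at h
    rw [← h]
    simp
  have h1 : ∀ r ∈ S, Yb Q (zz e0 v0 T n) (ya e0 v0 T n) (p * e') r ^ 2 / (Nat.totient r : ℝ) ≤
      ∑ c ∈ e'.divisors, 2 ^ e'.primeFactors.card * (v0⁻¹) ^ 2 *
        (AtP_I e0 v0 T Q n p (r * c) * (1 / (Nat.totient r : ℝ))) := by
    intro r hr
    have hr2 := hS r hr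
    rw [AtP_Y (ya e0 v0 T n) hp hb]
    have h2 := sq_sum_le_card_mul_sum_sq (s := e'.divisors) (f := fun c =>
      (ArithmeticFunction.moebius c : ℝ) *
      ((if r * c ∈ sq Q (zz e0 v0 T n) then ya e0 v0 T n (r * c) else 0) -
        (if r * c * p ∈ sq Q (zz e0 v0 T n) then ya e0 v0 T n (r * c * p) else 0)))
    rw [hcard] at h2
    have h3 : ∑ c ∈ e'.divisors, ((ArithmeticFunction.moebius c : ℝ) *
      ((if r * c ∈ sq Q (zz e0 v0 T n) then ya e0 v0 T n (r * c) else 0) -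
        (if r * c * p ∈ sq Q (zz e0 v0 T n) then ya e0 v0 T n (r * c * p) else 0))) ^ 2 ≤
        ∑ c ∈ e'.divisors, (v0⁻¹) ^ 2 * AtP_I e0 v0 T Q n p (r * c) := by
      refine Finset.sum_le_sum fun c hc => ?_
      rw [mul_pow]
      have h4 : ((ArithmeticFunction.moebius c : ℤ) : ℝ) ^ 2 ≤ 1 := by
        have h5 : |((ArithmeticFunction.moebius c : ℤ) : ℝ)| ≤ 1 := by
          exact_mod_cast ArithmeticFunction.abs_moebius_le_one
        exact (sq_le_one_iff_abs_le_one _).2 h5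
      have hce : c ∣ e' := Nat.dvd_of_mem_divisors hc
      have hcp : Nat.Coprime c p := (Nat.Coprime.coprime_dvd_right hce hcop).symm
      have hrp : Nat.Coprime r p := Nat.Coprime.coprime_mul_right_right hr2
      have hrcp : Nat.Coprime (r * c) p := Nat.Coprime.mul_left hrp hcp
      have h6 := AtP_bracket (e0 := e0) (T := T) hv0 n hp hpQ hrcp
      exact (mul_le_of_le_one_left (sq_nonneg _) h4).trans h6
    have h4 : (0 : ℝ) ≤ 1 / (Nat.totient r : ℝ) := BeP_nn r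
    have h5 : (0 : ℝ) ≤ 2 ^ e'.primeFactors.card := by positivity
    rw [div_eq_mul_one_div]
    refine (mul_le_mul_of_nonneg_right (h2.trans (mul_le_mul_of_nonneg_left h3 h5)) h4).trans
      (le_of_eq ?_)
    rw [Finset.mul_sum, Finset.sum_mul]
    refine Finset.sum_congr rfl fun c _ => ?_
    ring
  refine (Finset.sum_le_sum h1).trans ?_
  rw [Finset.sum_comm]
  have h2 : ∀ c ∈ e'.divisors, ∑ r ∈ S, 2 ^ e'.primeFactors.card * (v0⁻¹) ^ 2 *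
        (AtP_I e0 v0 T Q n p (r * c) * (1 / (Nat.totient r : ℝ))) ≤
      2 ^ e'.primeFactors.card * (v0⁻¹) ^ 2 * (2 * V) := by
    intro c hc
    rw [← Finset.mul_sum]
    refine mul_le_mul_of_nonneg_left ?_ (by positivity)
    exact AtP_ind hC hg n hQ hp (Nat.pos_of_mem_divisors hc) S
  refine (Finset.sum_le_sum h2).trans (le_of_eq ?_)
  rw [Finset.sum_const, nsmul_eq_mul, hcard]
  have h3 : (4 : ℝ) ^ e'.primeFactors.card = 2 ^ e'.primeFactors.card * 2 ^ e'.primeFactors.card := by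
    rw [← mul_pow]
    norm_num
  rw [h3]
  ring

theorem AtP_id {e0 v0 T : ℝ} {Q n n' p e : ℕ} (hp : p.Prime) (hpQ : Nat.Coprime p Q)
    (he : Squarefree e) (heQ : Nat.Coprime e Q) :
    ∑ B ∈ DAp e0 v0 T Q n n' p, fAp e0 v0 T Q n n' p B * ((Nat.gcd e B : ℝ) / B) =
      (Nat.gcd e p : ℝ) / p *
        ∑ r ∈ (sq Q (zz e0 v0 T n)).filter (fun r => Nat.Coprime r (Nat.lcm e p)),
        Yb Q (zz e0 v0 T n) (ya e0 v0 T n) (Nat.lcm e p) r *
          Yb Q (zz e0 v0 T n') (ya e0 v0 T n') (Nat.lcm e p) r / (Nat.totient r : ℝ) := by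
  have he1 : 1 ≤ e := Nat.pos_of_ne_zero he.ne_zero
  have hbs : Squarefree (Nat.lcm e p) := LcP_sqf he hp.prime.squarefree
  have hbQ : Nat.Coprime (Nat.lcm e p) Q :=
    Nat.Coprime.coprime_dvd_left (Nat.lcm_dvd_mul e p) (Nat.Coprime.mul_left heQ hpQ)
  unfold DAp fAp
  have hgA : Good Q (DA e0 v0 T Q n n') := good_lcD (AtA_good Q _) (AtA_good Q _)
  rw [lcf_gcd hgA (BeP_goodp hp hpQ) (fA e0 v0 T Q n n') (fun _ => 1) he1]
  have h1 : ∀ d : ℕ, ∑ d' ∈ ({p} : Finset ℕ), fA e0 v0 T Q n n' d * (fun _ => (1 : ℝ)) d' /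
      (Nat.lcm e (Nat.lcm d d') : ℝ) = fA e0 v0 T Q n n' d * (1 / (Nat.lcm e (Nat.lcm d p) : ℝ)) := by
    intro d
    rw [Finset.sum_singleton]
    ring
  rw [Finset.sum_congr rfl fun d _ => h1 d]
  unfold DA fA
  rw [lcf_sum (sq Q (zz e0 v0 T n)) (sq Q (zz e0 v0 T n')) (la e0 v0 T Q n) (la e0 v0 T Q n')
    (fun B => 1 / (Nat.lcm e (Nat.lcm B p) : ℝ))]
  have h2 := selU Q (zz e0 v0 T n) (zz e0 v0 T n') (ya e0 v0 T n) (ya e0 v0 T n') hbs hbQ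
  rw [← h2]
  have h3 : ∀ d d' : ℕ, Nat.lcm e (Nat.lcm (Nat.lcm d d') p) = Nat.lcm (Nat.lcm e p) (Nat.lcm d d') := by
    intro d d'
    rw [Nat.lcm_comm (Nat.lcm d d') p, Nat.lcm_assoc]
  have h4 : ∑ d ∈ sq Q (zz e0 v0 T n), ∑ d' ∈ sq Q (zz e0 v0 T n'), la e0 v0 T Q n d *
      la e0 v0 T Q n' d' * (1 / (Nat.lcm e (Nat.lcm (Nat.lcm d d') p) : ℝ)) =
      ∑ d ∈ sq Q (zz e0 v0 T n), ∑ d' ∈ sq Q (zz e0 v0 T n'),
        lam Q (zz e0 v0 T n) (ya e0 v0 T n) d * lam Q (zz e0 v0 T n') (ya e0 v0 T n') d' /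
        (Nat.lcm (Nat.lcm e p) (Nat.lcm d d') : ℝ) := by
    refine Finset.sum_congr rfl fun d _ => Finset.sum_congr rfl fun d' _ => ?_
    rw [h3, mul_one_div]
    rfl
  rw [h4, ← mul_assoc]
  congr 1
  have h5 : (Nat.gcd e p : ℝ) * (Nat.lcm e p : ℝ) = e * p := by
    exact_mod_cast Nat.gcd_mul_lcm e p
  have hp0 : (p : ℝ) ≠ 0 := by exact_mod_cast hp.ne_zero
  field_simp
  linarith [h5]

theorem atP {e0 v0 : ℝ} (he0 : 0 < e0) (hv0 : 0 < v0) : ∃ C0 : ℝ, 1 ≤ C0 ∧ ∀ T : ℝ, 1 ≤ T → ∀ Q p : ℕ, 1 ≤ Q →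
    p.Prime → Nat.Coprime p Q → ∀ n n' : ℕ,
      Good Q (DAp e0 v0 T Q n n' p) ∧
      Ctrl 10 (C0 * ((Nat.totient Q : ℝ) / Q * Real.log p + EQ Q) / p) p (DAp e0 v0 T Q n n' p) (fAp e0 v0 T Q n n' p) := by
  classical
  obtain ⟨C, hC, hg⟩ := gq
  have hiv : 0 < v0⁻¹ := inv_pos.2 hv0
  refine ⟨4 * C * (v0⁻¹) ^ 2 + 1, by nlinarith [pow_pos hiv 2], fun T hT Q p hQ hp hpQ n n' => ?_⟩
  have hgood : Good Q (DAp e0 v0 T Q n n' p) :=
    good_lcD (good_lcD (AtA_good Q _) (AtA_good Q _)) (BeP_goodp hp hpQ)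
  refine ⟨hgood, ?_⟩
  have hV := BeP_V hC hQ hp.two_le
  have hpR : (0 : ℝ) < p := by exact_mod_cast hp.pos
  have hlp : 0 ≤ Real.log p := Real.log_nonneg (by exact_mod_cast hp.one_lt.le)
  have hφ : 0 ≤ (Nat.totient Q : ℝ) / Q * Real.log p := by positivity
  have hE := gq_EQ hQ
  set A : ℝ := (Nat.totient Q : ℝ) / Q * Real.log p + EQ Q with hA
  have hA0 : 0 ≤ A := by linarith
  set K : ℝ := 4 * C * (v0⁻¹) ^ 2 + 1 with hK
  have hK0 : 0 ≤ K := by positivity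
  have hVA : (v0⁻¹) ^ 2 * (2 * ((Nat.totient Q : ℝ) / Q * Real.log p + 2 * C * EQ Q)) ≤ K * A := by
    have h1 : 2 * ((Nat.totient Q : ℝ) / Q * Real.log p + 2 * C * EQ Q) ≤ 4 * C * A := by
      rw [hA]
      nlinarith
    have h2 := mul_le_mul_of_nonneg_left h1 (sq_nonneg (v0⁻¹))
    rw [hK]
    nlinarith
  have h10 : (10 : ℝ) = 2 * (1 + 4) := by norm_num
  rw [h10]
  refine ctrl_of_U hgood (by positivity) (by norm_num) p ?_
  intro e he heQ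
  have hdvd : p ∣ Nat.lcm e p := Nat.dvd_lcm_right e p
  obtain ⟨e', he'⟩ := hdvd
  have hbs : Squarefree (p * e') := by
    rw [← he']
    exact LcP_sqf he hp.prime.squarefree
  rw [AtP_id hp hpQ he heQ, he']
  have hS : ∀ r ∈ (sq Q (zz e0 v0 T n)).filter (fun r => Nat.Coprime r (p * e')),
      Nat.Coprime r (p * e') := fun r hr => (Finset.mem_filter.1 hr).2
  have b1 := AtP_bound (e0 := e0) (T := T) hC hg hv0 n hQ hp hpQ hbs _ hS
  have b2 := AtP_bound (e0 := e0) (T := T) hC hg hv0 n' hQ hp hpQ hbs _ hS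
  set S := (sq Q (zz e0 v0 T n)).filter (fun r => Nat.Coprime r (p * e')) with hSdef
  have hgp : (0 : ℝ) ≤ (Nat.gcd e p : ℝ) / p := by positivity
  have h1 : |∑ r ∈ S, Yb Q (zz e0 v0 T n) (ya e0 v0 T n) (p * e') r *
      Yb Q (zz e0 v0 T n') (ya e0 v0 T n') (p * e') r / (Nat.totient r : ℝ)| ≤
      4 ^ e'.primeFactors.card * (K * A) := by
    refine (Finset.abs_sum_le_sum_abs _ _).trans ?_
    have h2 : ∀ r ∈ S, |Yb Q (zz e0 v0 T n) (ya e0 v0 T n) (p * e') r *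
        Yb Q (zz e0 v0 T n') (ya e0 v0 T n') (p * e') r / (Nat.totient r : ℝ)| ≤
        1 / 2 * (Yb Q (zz e0 v0 T n) (ya e0 v0 T n) (p * e') r ^ 2 / (Nat.totient r : ℝ)) +
        1 / 2 * (Yb Q (zz e0 v0 T n') (ya e0 v0 T n') (p * e') r ^ 2 / (Nat.totient r : ℝ)) := by
      intro r _
      set a := Yb Q (zz e0 v0 T n) (ya e0 v0 T n) (p * e') r
      set b := Yb Q (zz e0 v0 T n') (ya e0 v0 T n') (p * e') r
      have h3 : (0 : ℝ) ≤ 1 / (Nat.totient r : ℝ) := BeP_nn r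
      have h4 : |a * b| ≤ 1 / 2 * a ^ 2 + 1 / 2 * b ^ 2 := by
        rw [abs_le]
        constructor <;> nlinarith [sq_nonneg (a - b), sq_nonneg (a + b)]
      have h5 := mul_le_mul_of_nonneg_right h4 h3
      rw [abs_div, Nat.abs_cast]
      calc |a * b| / (Nat.totient r : ℝ) = |a * b| * (1 / (Nat.totient r : ℝ)) := by ring
        _ ≤ _ := h5
        _ = _ := by ring
    refine (Finset.sum_le_sum h2).trans ?_
    rw [Finset.sum_add_distrib, ← Finset.mul_sum, ← Finset.mul_sum]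
    have h4 : (4 : ℝ) ^ e'.primeFactors.card *
        ((v0⁻¹) ^ 2 * (2 * ((Nat.totient Q : ℝ) / Q * Real.log p + 2 * C * EQ Q))) ≤
        4 ^ e'.primeFactors.card * (K * A) := mul_le_mul_of_nonneg_left hVA (by positivity)
    linarith
  have h2 : e' ∣ e := by
    have h3 : Nat.Coprime e' p := (Nat.coprime_of_squarefree_mul hbs).symm
    have h4 : e' ∣ e * p := by
      refine (Dvd.intro_left p rfl : e' ∣ p * e').trans ?_
      rw [← he']
      exact Nat.lcm_dvd_mul e p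
    exact h3.dvd_of_dvd_mul_right h4
  have h3 : e'.primeFactors.card ≤ e.primeFactors.card :=
    Finset.card_le_card (Nat.primeFactors_mono h2 he.ne_zero)
  have h4 : (4 : ℝ) ^ e'.primeFactors.card ≤ 4 ^ e.primeFactors.card :=
    pow_le_pow_right₀ (by norm_num) h3
  have hKA : 0 ≤ K * A := mul_nonneg hK0 hA0
  rw [abs_mul, abs_of_nonneg hgp]
  refine (mul_le_mul_of_nonneg_left (h1.trans (mul_le_mul_of_nonneg_right h4 hKA)) hgp).trans
    (le_of_eq ?_)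
  ring

end Pool.Agent.H39.MT
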