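import Pool.Agent.H6.EG.Defs
import Pool.Agent.H17.AvgMain

/-!
# MP_1039f5: prime triples inside arbitrary sets of `ε log x` shifts. Shared definitions.

Overview: /team-store/H39_T2.md
-/

set_option autoImplicit false

namespace Pool.Agent.H39.MT

open Pool.Agent.H17

/-- the primes up to `y` except `P` -/
def PS (y P : ℕ) : Finset ℕ := (PP y).erase P

/-- their product -/
def WS (y P : ℕ) : ℕ := ∏ p ∈ PS y P, p

/-- `m` has no prime factor up to `z` except prime factors of `Q` -/
def Clean (Q z m : ℕ) : Prop := ∀ p : ℕ, p.Prime → p ≤ z → p ∣ m → p ∣ Q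

/-- the product of all differences -/
def dif (H : Finset ℕ) : ℕ := ∏ a ∈ H, ∏ b ∈ H.filter (fun b => a < b), (b - a)

/-- the modulus attached to a set of shifts -/
def QH (y P : ℕ) (H : Finset ℕ) : ℕ := WS y P * P * dif H

/-- `n` is good for the set of shifts `H`: at least three of the `n + h` are prime and all are clean -/
def Gd (y P z : ℕ) (H : Finset ℕ) (n : ℕ) : Prop :=
  3 ≤ (H.filter (fun h => (n + h).Prime)).card ∧ ∀ h ∈ H, Clean (QH y P H) z (n + h)

/-- the density parameter `W/(φ(W) log x)` -/
noncomputable def rho (x : ℝ) (W : ℕ) : ℝ := (W : ℝ) / ((Nat.totient W : ℝ) * Real.log x)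

end Pool.Agent.H39.MT
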