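/-
ROW ClB. The Maynard sum is small on clean numbers.
PROOF. laU: with `z = zz e0 v0 T n`, `g = (vv v0 n)⁻¹`: `|lam Q z y d| ≤ d ∑_{s ∈ sq Q z, d ∣ s} |y_s|/φ(s) ≤ g d ∑_{s ∈ sq Q z, d ∣ s} 1/φ(s) = g (GG Q z) |lam Q z (fun _ => (GG Q z)⁻¹) d|` if `μ(d) ≠ 0` (otherwise `lam = 0`), `≤ g GG Q z`
(`lam_sel_le`; `z ≥ 1` as `T ≥ 1`), and `GG Q z ≤ v_n u + C0 EQ Q ≤ (v_m + 1) u` by `gq` (with `x = T^(e0 v_n)`; `(φ(Q)/Q) log x = v_n u`) and `eqs` (for `T ≥ T1`). `g ≤ v0⁻¹`.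
clB: let `L_i = a_i t + b_i`. `|Fn (sq Q z) (la n) (L_i)| ≤ |{d ∈ sq Q z : d ∣ L_i}| C u`. Such a `d` is squarefree and coprime to `Q`; its prime factors divide `L_i` and not `Q`, so they are `> ⌊T^δ⌋₊`, i.e. `≥ T^δ` (`Clean`). If `s` is the number of primes `q ∣ L_i`,
`q ∤ Q`: `T^(δ s) ≤ L_i ≤ T^2`, so `s ≤ 2/δ`; `d` is the product of a subset of them: at most `2^s ≤ 2^(2/δ)` values `d`. Then `|sM| ≤ ∑_{n ∈ AS} ∏_i (2^(2/δ) C u)`, `|AS| ≤ (m + 1)^K`, all `n i ≤ m`.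
-/
import Pool.Agent.H39.MT.Defs
import Pool.Agent.H6.EG.AtA
import Pool.Agent.H6.EG.LamB

set_option autoImplicit false

namespace Pool.Agent.H39.MT

open EG

theorem ClB_lam {Q z : ℕ} (hz : 1 ≤ z) {g : ℝ} {y : ℕ → ℝ} (hy : ∀ r, |y r| ≤ g) (d : ℕ) :
    |lam Q z y d| ≤ g * GG Q z := by
  have hg : 0 ≤ g := (abs_nonneg _).trans (hy 0)
  have h1m : 1 ∈ sq Q z := by
    unfold EG.sq
    rw [Finset.mem_filter, Finset.mem_Icc]
    exact ⟨⟨le_rfl, hz⟩, squarefree_one, Nat.coprime_one_left Q⟩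
  have hG : 0 < GG Q z := by
    unfold GG
    refine Finset.sum_pos' (fun r _ => by positivity) ⟨1, h1m, by simp⟩
  have h1 := lam_sel_le Q z hz d
  have h2 : |lam Q z (fun _ => (GG Q z)⁻¹) d| = |(ArithmeticFunction.moebius d : ℝ) * d| *
      ((GG Q z)⁻¹ * ∑ s ∈ (sq Q z).filter (fun s => d ∣ s), 1 / (Nat.totient s : ℝ)) := by
    unfold lam
    rw [abs_mul]
    congr 1
    rw [Finset.mul_sum, abs_of_nonneg]
    · apply Finset.sum_congr rfl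
      intro s _
      ring
    · apply Finset.sum_nonneg
      intro s _
      positivity
  have h3 : |lam Q z y d| ≤ |(ArithmeticFunction.moebius d : ℝ) * d| *
      (g * ∑ s ∈ (sq Q z).filter (fun s => d ∣ s), 1 / (Nat.totient s : ℝ)) := by
    unfold lam
    rw [abs_mul]
    apply mul_le_mul_of_nonneg_left _ (abs_nonneg _)
    refine (Finset.abs_sum_le_sum_abs _ _).trans ?_
    rw [Finset.mul_sum]
    apply Finset.sum_le_sum
    intro s _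
    rw [abs_div, abs_of_nonneg (Nat.cast_nonneg (Nat.totient s) : (0 : ℝ) ≤ (Nat.totient s : ℝ)),
      mul_one_div]
    exact div_le_div_of_nonneg_right (hy s) (Nat.cast_nonneg _)
  refine h3.trans ?_
  rw [h2] at h1
  set A := |(ArithmeticFunction.moebius d : ℝ) * d| with hA
  set S := ∑ s ∈ (sq Q z).filter (fun s => d ∣ s), 1 / (Nat.totient s : ℝ) with hS
  have h4 : A * (g * S) = g * GG Q z * (A * ((GG Q z)⁻¹ * S)) := by
    field_simp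
  rw [h4]
  have h5 : 0 ≤ g * GG Q z := mul_nonneg hg hG.le
  calc g * GG Q z * (A * ((GG Q z)⁻¹ * S)) ≤ g * GG Q z * 1 := mul_le_mul_of_nonneg_left h1 h5
    _ = g * GG Q z := mul_one _

theorem laU {e0 v0 : ℝ} (he0 : 0 < e0) (hv0 : 0 < v0) (m : ℕ) : ∃ C T1 : ℝ, 1 ≤ C ∧ ∀ T : ℝ, T1 ≤ T → ∀ Q : ℕ, 1 ≤ Q →
    Big e0 T Q → ∀ n ≤ m, ∀ d : ℕ, |la e0 v0 T Q n d| ≤ C * uu e0 T Q := by
  obtain ⟨C0, hC0, hgq⟩ := gq
  have hC0p : 0 < C0 := by linarith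
  obtain ⟨T1, hT1, heq⟩ := eqs he0 (ε := 1 / C0) (by positivity)
  refine ⟨1 + v0⁻¹, T1, by have := inv_pos.mpr hv0; linarith, ?_⟩
  intro T hT Q hQ hB n _ d
  have hT' : 1 ≤ T := hT1.trans hT
  obtain ⟨h1, h2⟩ := heq T hT Q hQ hB
  have hu : 0 < uu e0 T Q := by
    have : (0 : ℝ) < 1 / (1 / C0) := by positivity
    linarith
  have hv := AtA_vv_pos hv0 n
  have hvg := AtA_vv_ge hv0 n
  have hE : C0 * EQ Q ≤ uu e0 T Q := by
    have h3 : 0 ≤ EQ Q * Real.sqrt (Real.log T) :=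
      mul_nonneg (zero_le_one.trans (EQ_ge_one hQ)) (Real.sqrt_nonneg _)
    have h4 : EQ Q ≤ 1 / C0 * uu e0 T Q := by nlinarith
    calc C0 * EQ Q ≤ C0 * (1 / C0 * uu e0 T Q) := mul_le_mul_of_nonneg_left h4 hC0p.le
      _ = uu e0 T Q := by field_simp
  have hG := AtA_G he0 hv0 hT' hQ hgq n
  have hG2 : GG Q (zz e0 v0 T n) ≤ vv v0 n * uu e0 T Q + uu e0 T Q := by
    have := (abs_le.mp hG).2
    linarith
  have hz : 1 ≤ zz e0 v0 T n := by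
    unfold zz
    rw [Nat.one_le_floor_iff]
    exact Real.one_le_rpow hT' (mul_nonneg he0.le hv.le)
  have hy : ∀ r, |ya e0 v0 T n r| ≤ (vv v0 n)⁻¹ := by
    intro r
    unfold ya
    split_ifs
    · rw [abs_of_pos (inv_pos.mpr hv)]
    · rw [abs_zero]
      exact (inv_pos.mpr hv).le
  have h5 := ClB_lam (Q := Q) hz hy d
  unfold la
  refine h5.trans ?_
  calc (vv v0 n)⁻¹ * GG Q (zz e0 v0 T n)
      ≤ (vv v0 n)⁻¹ * (vv v0 n * uu e0 T Q + uu e0 T Q) :=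
        mul_le_mul_of_nonneg_left hG2 (inv_pos.mpr hv).le
    _ = uu e0 T Q + (vv v0 n)⁻¹ * uu e0 T Q := by field_simp
    _ ≤ uu e0 T Q + v0⁻¹ * uu e0 T Q := by
        have := mul_le_mul_of_nonneg_right (inv_anti₀ hv0 hvg) hu.le
        linarith
    _ = (1 + v0⁻¹) * uu e0 T Q := by ring

theorem ClB_card {Q z L : ℕ} (hL : L ≠ 0) :
    ((sq Q z).filter (fun B => B ∣ L)).card ≤ 2 ^ (L.primeFactors.filter (fun q => ¬ q ∣ Q)).card := by
  rw [← Finset.card_powerset]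
  refine Finset.card_le_card_of_injOn (fun B => B.primeFactors) ?_ ?_
  · intro B hB
    have hB' : B ∈ (sq Q z).filter (fun B => B ∣ L) := hB
    unfold EG.sq at hB'
    rw [Finset.mem_filter, Finset.mem_filter] at hB'
    obtain ⟨⟨_, h2, h3⟩, h4⟩ := hB'
    show B.primeFactors ∈ ((L.primeFactors.filter (fun q => ¬ q ∣ Q)).powerset : Set (Finset ℕ))
    rw [Finset.mem_coe, Finset.mem_powerset]
    intro q hq
    rw [Finset.mem_filter]
    refine ⟨Nat.primeFactors_mono h4 hL hq, ?_⟩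
    intro hqQ
    have hqp := Nat.prime_of_mem_primeFactors hq
    have := Nat.dvd_gcd (Nat.dvd_of_mem_primeFactors hq) hqQ
    rw [Nat.Coprime] at h3
    rw [h3] at this
    exact hqp.one_lt.ne' (Nat.dvd_one.mp this)
  · intro B hB B' hB' h
    have hB1 : B ∈ (sq Q z).filter (fun B => B ∣ L) := hB
    have hB2 : B' ∈ (sq Q z).filter (fun B => B ∣ L) := hB'
    unfold EG.sq at hB1 hB2
    rw [Finset.mem_filter, Finset.mem_filter] at hB1 hB2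
    rw [← Nat.prod_primeFactors_of_squarefree hB1.1.2.1,
      ← Nat.prod_primeFactors_of_squarefree hB2.1.2.1]
    have h' : B.primeFactors = B'.primeFactors := h
    rw [h']

theorem ClB_s {δ T : ℝ} (hδ : 0 < δ) (hT : 1 < T) {Q L : ℕ} (hL : 1 ≤ L) (hL2 : (L : ℝ) ≤ T ^ 2)
    (hc : Clean Q ⌊T ^ δ⌋₊ L) : (L.primeFactors.filter (fun q => ¬ q ∣ Q)).card ≤ ⌊2 / δ⌋₊ := by
  set S := L.primeFactors.filter (fun q => ¬ q ∣ Q) with hS
  have hT0 : 0 < T := by linarith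
  have h1 : ∀ q ∈ S, T ^ δ ≤ (q : ℝ) := by
    intro q hq
    rw [hS, Finset.mem_filter] at hq
    by_contra hcon
    push Not at hcon
    have h2 : q ≤ ⌊T ^ δ⌋₊ := Nat.le_floor hcon.le
    exact hq.2 (hc q (Nat.prime_of_mem_primeFactors hq.1) h2 (Nat.dvd_of_mem_primeFactors hq.1))
  have h2 : (T ^ δ) ^ S.card ≤ (L : ℝ) := by
    calc (T ^ δ) ^ S.card = ∏ _q ∈ S, T ^ δ := by rw [Finset.prod_const]
      _ ≤ ∏ q ∈ S, (q : ℝ) := Finset.prod_le_prod (fun _ _ => (Real.rpow_pos_of_pos hT0 δ).le) h1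
      _ = ((∏ q ∈ S, q : ℕ) : ℝ) := by push_cast; rfl
      _ ≤ (L : ℝ) := by
        exact_mod_cast (Finset.prod_le_prod_of_subset_of_one_le' (Finset.filter_subset _ _)
          (fun q hq _ => (Nat.prime_of_mem_primeFactors hq).one_lt.le)).trans
          (Nat.le_of_dvd (by omega) (Nat.prod_primeFactors_dvd L))
  have h3 : T ^ (δ * S.card) ≤ T ^ (2 : ℝ) := by
    rw [Real.rpow_mul hT0.le, Real.rpow_natCast]
    have h4 : T ^ (2 : ℝ) = T ^ 2 := by exact_mod_cast Real.rpow_natCast T 2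
    rw [h4]
    exact h2.trans hL2
  have h5 := (Real.rpow_le_rpow_left_iff hT).mp h3
  apply Nat.le_floor
  rw [le_div_iff₀ hδ]
  linarith

theorem clB {e0 v0 δ : ℝ} (he0 : 0 < e0) (hv0 : 0 < v0) (hδ : 0 < δ) (m K : ℕ) : ∃ C T1 : ℝ, 1 ≤ C ∧ ∀ T : ℝ, T1 ≤ T →
    ∀ Q : ℕ, 1 ≤ Q → Big e0 T Q → ∀ (ι : Type) [Fintype ι] [DecidableEq ι], Fintype.card ι = K → ∀ (a b : ι → ℕ) (t : ℕ),
      (∀ i, 1 ≤ a i * t + b i ∧ ((a i * t + b i : ℕ) : ℝ) ≤ T ^ 2) → (∀ i, Clean Q ⌊T ^ δ⌋₊ (a i * t + b i)) →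
      |sM e0 v0 T m Q a b ∅ t| ≤ C * uu e0 T Q ^ K := by
  obtain ⟨C', T1, hC', hla⟩ := laU he0 hv0 m
  have h1 : (1 : ℝ) ≤ (2 ^ ⌊2 / δ⌋₊ * C') := by
    have : (1 : ℝ) ≤ 2 ^ ⌊2 / δ⌋₊ := one_le_pow₀ (by norm_num)
    nlinarith
  refine ⟨((m : ℝ) + 1) ^ K * (2 ^ ⌊2 / δ⌋₊ * C') ^ K, max T1 2, ?_, ?_⟩
  · have h2 : (1 : ℝ) ≤ ((m : ℝ) + 1) ^ K := one_le_pow₀ (by have := Nat.cast_nonneg (α := ℝ) m; linarith)
    have h3 : (1 : ℝ) ≤ (2 ^ ⌊2 / δ⌋₊ * C') ^ K := one_le_pow₀ h1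
    nlinarith
  intro T hT Q hQ hB ι _ _ hK a b t hL hcl
  have hT1 : T1 ≤ T := (le_max_left _ _).trans hT
  have hT2 : 1 < T := by
    have := (le_max_right T1 (2 : ℝ)).trans hT
    linarith
  have hla' := hla T hT1 Q hQ hB
  have hCu : 0 ≤ C' * uu e0 T Q := (abs_nonneg _).trans (hla' 0 (Nat.zero_le m) 0)
  have hFn : ∀ n : ι → ℕ, (∀ i, n i ≤ m) → ∀ i, |Fn (sq Q (zz e0 v0 T (n i))) (la e0 v0 T Q (n i)) (a i * t + b i)| ≤
      2 ^ ⌊2 / δ⌋₊ * C' * uu e0 T Q := by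
    intro n hn i
    unfold Fn
    refine (Finset.abs_sum_le_sum_abs _ _).trans ?_
    refine (Finset.sum_le_card_nsmul _ _ (C' * uu e0 T Q) (fun B _ => hla' (n i) (hn i) B)).trans ?_
    rw [nsmul_eq_mul, mul_assoc]
    apply mul_le_mul_of_nonneg_right _ hCu
    have h2 := ClB_card (Q := Q) (z := zz e0 v0 T (n i)) (L := a i * t + b i) (by have := (hL i).1; omega)
    have h3 := ClB_s hδ hT2 (hL i).1 (hL i).2 (hcl i)
    have h4 := h2.trans (Nat.pow_le_pow_right (by norm_num) h3)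
    exact_mod_cast h4
  have hcard : ((AS ι v0 m).card : ℝ) ≤ ((m : ℝ) + 1) ^ K := by
    have h2 : (AS ι v0 m).card ≤ (m + 1) ^ K := by
      unfold AS
      refine (Finset.card_filter_le _ _).trans ?_
      rw [Fintype.card_piFinset]
      simp only [Finset.card_range, Finset.prod_const, Finset.card_univ, hK]
      exact le_rfl
    exact_mod_cast h2
  have hpow : 0 ≤ (2 ^ ⌊2 / δ⌋₊ * C' * uu e0 T Q) ^ K := by
    apply pow_nonneg
    rw [mul_assoc]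
    positivity
  unfold sM
  refine (Finset.abs_sum_le_sum_abs _ _).trans ?_
  refine (Finset.sum_le_card_nsmul _ _ ((2 ^ ⌊2 / δ⌋₊ * C' * uu e0 T Q) ^ K) ?_).trans ?_
  · intro n hn
    have hn' : ∀ i, n i ≤ m := by
      intro i
      unfold AS at hn
      rw [Finset.mem_filter, Fintype.mem_piFinset] at hn
      have := Finset.mem_range.mp (hn.1 i)
      omega
    rw [Finset.abs_prod, ← hK, ← Finset.card_univ, ← Finset.prod_const]
    apply Finset.prod_le_prod (fun _ _ => abs_nonneg _)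
    intro i _
    rw [if_neg (Finset.notMem_empty i)]
    exact hFn n hn' i
  · rw [nsmul_eq_mul]
    calc ((AS ι v0 m).card : ℝ) * (2 ^ ⌊2 / δ⌋₊ * C' * uu e0 T Q) ^ K
        ≤ ((m : ℝ) + 1) ^ K * (2 ^ ⌊2 / δ⌋₊ * C' * uu e0 T Q) ^ K := mul_le_mul_of_nonneg_right hcard hpow
      _ = ((m : ℝ) + 1) ^ K * (2 ^ ⌊2 / δ⌋₊ * C') ^ K * uu e0 T Q ^ K := by
        rw [mul_pow _ (uu e0 T Q)]
        ring

end Pool.Agent.H39.MT
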