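/-
ROW CtP. The shifts that survive modulo `W = WS y P` (the product of the primes up to `y` except `P`).
Adapt the proofs of `Pool/Agent/H17/Crt.lean` (`coprime_WW`, `totient_WW`, `count_triple`, `sum_mt`), replacing the set `PP y` by `PS y P` (all of them only use that the
elements of the set are primes; `card_crt`, `card_miss`, `nu_le`, `locf` are general).
* ps_prime, ws_pos, ws_le: `PS y P ⊆ PP y`; `WS y P ≤ WW y` (`Finset.prod_le_prod_of_subset_of_one_le'`).
* sum_choose: `C(mt A W t, 3)` is the number of `τ ∈ tri A` with all three of `t + τ_i` coprime to `W`: e.g. from `sum_distinct_one`/`sum_sym` in `H17/Avg.lean` (as in `NN_triple` there: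
  `(mt)(mt - 1)(mt - 2) = 6 ∑_{τ ∈ tri A} 1[..]`, and `6 C(N,3) = N (N-1) (N-2)`), then exchange the sums over `t` and `τ` and use ct3.
-/
import Pool.Agent.H39.MT.Defs

set_option autoImplicit false

namespace Pool.Agent.H39.MT

open Pool.Agent.H17

theorem ps_prime {y P p : ℕ} (h : p ∈ PS y P) : p.Prime := by
  exact (mem_PP.mp (Finset.mem_of_mem_erase h)).2

theorem ws_pos (y P : ℕ) : 0 < WS y P := by
  exact Finset.prod_pos (fun p hp => (ps_prime hp).pos)

theorem ws_le (y P : ℕ) : WS y P ≤ WW y := by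
  unfold WS WW
  refine Finset.prod_le_prod_of_subset_of_one_le' (Finset.erase_subset _ _) ?_
  intro p hp _
  exact (mem_PP.mp hp).2.one_le

theorem coprime_ws {n y P : ℕ} : n.Coprime (WS y P) ↔ ∀ p ∈ PS y P, ¬ p ∣ n := by
  unfold WS
  rw [Nat.coprime_prod_right_iff]
  apply forall₂_congr
  intro p hp
  rw [Nat.coprime_comm, Nat.Prime.coprime_iff_not_dvd (ps_prime hp)]

theorem totient_ws (y P : ℕ) : ((WS y P).totient : ℝ) = ∏ p ∈ PS y P, ((p : ℝ) - 1) := by
  have h := Nat.totient_eq_mul_prod_factors (WS y P)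
  have h1 : (WS y P).primeFactors = PS y P := by
    unfold WS
    exact Nat.primeFactors_prod (fun p hp => ps_prime hp)
  rw [h1] at h
  have h2 : ((WS y P).totient : ℝ) = (WS y P) * ∏ p ∈ PS y P, (1 - (p : ℝ)⁻¹) := by
    have h3 := congrArg (fun r : ℚ => (r : ℝ)) h
    push_cast at h3
    exact h3
  rw [h2]
  unfold WS
  rw [Nat.cast_prod, ← Finset.prod_mul_distrib]
  apply Finset.prod_congr rfl
  intro p hp
  have : (p : ℝ) ≠ 0 := by exact_mod_cast (ps_prime hp).ne_zero
  field_simp

theorem ct3 (y P a b c : ℕ) :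
    (((Finset.range (WS y P)).filter (fun t => (t + a).Coprime (WS y P) ∧ (t + b).Coprime (WS y P) ∧
      (t + c).Coprime (WS y P))).card : ℝ)
      = ((WS y P).totient : ℝ) ^ 3 / (WS y P : ℝ) ^ 2 * ∏ p ∈ PS y P, locf a b c p := by
  have h1 : (Finset.range (WS y P)).filter (fun t => (t + a).Coprime (WS y P) ∧ (t + b).Coprime (WS y P) ∧
      (t + c).Coprime (WS y P))
      = (Finset.range (∏ p ∈ PS y P, p)).filter (fun t => ∀ p ∈ PS y P, (¬ p ∣ t + a ∧ ¬ p ∣ t + b ∧ ¬ p ∣ t + c)) := by
    apply Finset.filter_congr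
    intro t _
    rw [coprime_ws, coprime_ws, coprime_ws]
    constructor
    · rintro ⟨h1, h2, h3⟩ p hp
      exact ⟨h1 p hp, h2 p hp, h3 p hp⟩
    · intro h
      exact ⟨fun p hp => (h p hp).1, fun p hp => (h p hp).2.1, fun p hp => (h p hp).2.2⟩
  rw [h1, card_crt (PS y P) (fun p hp => ps_prime hp) (fun p t => ¬ p ∣ t + a ∧ ¬ p ∣ t + b ∧ ¬ p ∣ t + c)]
  · rw [totient_ws, Nat.cast_prod]
    unfold WS
    rw [Nat.cast_prod, ← Finset.prod_pow, ← Finset.prod_pow, ← Finset.prod_div_distrib, ← Finset.prod_mul_distrib]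
    apply Finset.prod_congr rfl
    intro p hp
    have hpp := ps_prime hp
    rw [card_miss a b c hpp.pos, Nat.cast_sub (nu_le a b c hpp.pos)]
    unfold locf
    have hp0 : (p : ℝ) ≠ 0 := by exact_mod_cast hpp.ne_zero
    have hp1 : (p : ℝ) - 1 ≠ 0 := by
      have : (2 : ℝ) ≤ p := by exact_mod_cast hpp.two_le
      linarith
    have h4 : (1 : ℝ) - 1 / p = (p - 1) / p := by field_simp
    rw [h4]
    field_simp
  · intro p _ t
    have : ∀ s : ℕ, p ∣ t + s ↔ p ∣ t % p + s := by
      intro s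
      exact ((Nat.mod_modEq t p).symm.add_right s).dvd_iff dvd_rfl
    rw [← this, ← this, ← this]

theorem sum_mt' (A : Finset ℕ) (y P : ℕ) :
    ∑ t ∈ Finset.range (WS y P), (mt A (WS y P) t : ℝ) = A.card * (WS y P).totient := by
  simp_rw [mt_eq_sum]
  rw [Finset.sum_comm]
  have h1 : ∀ a ∈ A, ∑ t ∈ Finset.range (WS y P), (if (t + a).Coprime (WS y P) then (1 : ℝ) else 0) =
      (WS y P).totient := by
    intro a _
    have h2 := Nat.filter_coprime_Ico_eq_totient (WS y P) a
    have h3 : ∑ t ∈ Finset.range (WS y P), (if (t + a).Coprime (WS y P) then (1 : ℝ) else 0)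
        = ∑ s ∈ Finset.Ico a (a + WS y P), (if (WS y P).Coprime s then (1 : ℝ) else 0) := by
      rw [Finset.sum_Ico_eq_sum_range]
      rw [Nat.add_sub_cancel_left]
      apply Finset.sum_congr rfl
      intro t _
      have h4 : (t + a).Coprime (WS y P) ↔ (WS y P).Coprime (a + t) := by rw [Nat.coprime_comm, add_comm]
      simp only [h4]
    rw [h3, ← h2, Finset.card_filter]
    push_cast
    rfl
  rw [Finset.sum_congr rfl h1, Finset.sum_const, nsmul_eq_mul]

theorem ctP_choose (N : ℕ) : (N : ℝ) * (N - 1) * (N - 2) = 6 * (N.choose 3 : ℝ) := by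
  induction N with
  | zero => simp
  | succ n ih =>
    rw [Nat.choose_succ_succ' n 2]
    push_cast
    rw [Nat.cast_choose_two]
    nlinarith

theorem ctP_triple (A : Finset ℕ) (W t : ℕ) :
    ((mt A W t).choose 3 : ℝ) = ∑ τ ∈ tri A,
      (if (t + τ.1).Coprime W ∧ (t + τ.2.1).Coprime W ∧ (t + τ.2.2).Coprime W then (1 : ℝ) else 0) := by
  have h := sum_sym A (fun a b c => if (t + a).Coprime W ∧ (t + b).Coprime W ∧ (t + c).Coprime W then (1 : ℝ) else 0)
    (by
      intro a b c
      congr 1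
      rw [eq_iff_iff]
      tauto)
    (by
      intro a b c
      congr 1
      rw [eq_iff_iff]
      tauto)
  have h6 : (6 : ℝ) * ((mt A W t).choose 3 : ℝ) = 6 * ∑ τ ∈ tri A,
      (if (t + τ.1).Coprime W ∧ (t + τ.2.1).Coprime W ∧ (t + τ.2.2).Coprime W then (1 : ℝ) else 0) := by
    rw [← h, ← ctP_choose]
    unfold Pool.Agent.H17.mt
    rw [← sum_distinct_one]
    rw [Finset.sum_filter]
    apply Finset.sum_congr rfl
    intro a _
    by_cases ha : (t + a).Coprime W
    · rw [if_pos ha, Finset.sum_filter]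
      apply Finset.sum_congr rfl
      intro b _
      by_cases hb : (t + b).Coprime W
      · rw [if_pos hb, Finset.sum_filter]
        apply Finset.sum_congr rfl
        intro c _
        by_cases hc : (t + c).Coprime W
        · rw [if_pos hc, if_pos (⟨ha, hb, hc⟩ : (t + a).Coprime W ∧ (t + b).Coprime W ∧ (t + c).Coprime W)]
        · rw [if_neg hc, if_neg (show ¬ ((t + a).Coprime W ∧ (t + b).Coprime W ∧ (t + c).Coprime W) from fun h => hc h.2.2)]
          simp
      · rw [if_neg hb]
        symm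
        apply Finset.sum_eq_zero
        intro c _
        rw [if_neg (show ¬ ((t + a).Coprime W ∧ (t + b).Coprime W ∧ (t + c).Coprime W) from fun h => hb h.2.1)]
        simp
    · rw [if_neg ha]
      symm
      apply Finset.sum_eq_zero
      intro b _
      apply Finset.sum_eq_zero
      intro c _
      rw [if_neg (show ¬ ((t + a).Coprime W ∧ (t + b).Coprime W ∧ (t + c).Coprime W) from fun h => ha h.1)]
      simp
  linarith

theorem sum_choose (A : Finset ℕ) (y P : ℕ) :
    ∑ t ∈ Finset.range (WS y P), ((mt A (WS y P) t).choose 3 : ℝ) =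
      ((WS y P).totient : ℝ) ^ 3 / (WS y P : ℝ) ^ 2 * ∑ τ ∈ tri A, ∏ p ∈ PS y P, locf τ.1 τ.2.1 τ.2.2 p := by
  simp_rw [ctP_triple]
  rw [Finset.sum_comm, Finset.mul_sum]
  apply Finset.sum_congr rfl
  intro τ _
  rw [← ct3, Finset.card_filter]
  push_cast
  rfl

end Pool.Agent.H39.MT
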