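/-
ROW E2H. The lower bound for the sum over primes.
PROOF. `e2r` with `A = 8`, `e2c` with `ε/2`, `eqs he0` with `ε = 1` (`u = uu e0 T Q ≥ 1`). `w0` from `e2c`.
(1) `∑_t φ θ(L_j) sM{j}² = ∑_{n,n' ∈ AS} la(n j) 1 la(n' j) 1 ∑_t φ θ(L_j) ∏_i Fn (update DA j {1} i) (update fA j 1 i) (L_i)`, `θ(x) = log x` if `x` is prime and `0` otherwise: square of a sum (`Finset.sum_mul_sum`, `Finset.prod_mul_distrib`),
`Fn {1} (fun _ => 1) x = 1`, `Fn (sq) (la) x * Fn (sq) (la') x = Fn (DA) (fA) x` (`fn_mul`; compare `sqJ`).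
(2) `e2r`, `|la 1| ≤ 4/v0 (1 + log T)^3` (`la_abs`) and `e2c`: the sum is `≥ T ∫φ (a j/φ(a j)) (FI {j} - ε/2) u^(K+1) - (m+1)^(2K) (4/v0 (1 + log T)^3)^2 T/(log T)^8`, and the last term is `≤ (ε/2) T ∫φ (a j/φ(a j)) u^(K+1)` for large `T` (`a j/φ(a j) ≥ 1`, `u ≥ 1`).
(3) For `t ∈ rT T`: `L_j(t) ≤ 2 T (log T)^B + (log T)^B ≤ T^2` for large `T`, so `θ(L_j) ≤ 2 log T`, and `φ θ(L_j) sM² ≤ 2 log T φ sM² [L_j prime]`.
-/
import Pool.Agent.H39.MT.E2R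
import Pool.Agent.H6.EG.E2c
import Pool.Agent.H6.EG.Eqs

set_option autoImplicit false

namespace Pool.Agent.H39.MT

open EG Finset

theorem E2H_log (M : ℝ) (N : ℕ) {κ : ℝ} (hκ : 0 < κ) {ε : ℝ} (hε : 0 < ε) :
    ∃ T1 : ℝ, 1 ≤ T1 ∧ ∀ T, T1 ≤ T → M * (1 + Real.log T) ^ N * T ^ (1 - κ) ≤ ε * T := by
  have h1 := isLittleO_log_rpow_rpow_atTop (N : ℝ) hκ
  have hc : 0 < ε / ((|M| + 1) * 2 ^ N) := by positivity
  have h2 := (h1.def hc).and (Filter.eventually_ge_atTop (Real.exp 1))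
  obtain ⟨T1, hT1⟩ := Filter.eventually_atTop.1 h2
  refine ⟨max T1 1, le_max_right _ _, ?_⟩
  intro T hT
  obtain ⟨h3, h4⟩ := hT1 T ((le_max_left _ _).trans hT)
  have hT0 : 0 < T := (Real.exp_pos 1).trans_le h4
  have hL : 1 ≤ Real.log T := by
    rw [Real.le_log_iff_exp_le hT0]; exact h4
  rw [Real.rpow_natCast, Real.norm_of_nonneg (by positivity), Real.norm_of_nonneg (by positivity)] at h3
  have h5 : (1 + Real.log T) ^ N ≤ 2 ^ N * Real.log T ^ N := by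
    rw [← mul_pow]
    exact pow_le_pow_left₀ (by linarith) (by linarith) N
  have h6 : T ^ (1 - κ) = T / T ^ κ := by
    rw [Real.rpow_sub hT0, Real.rpow_one]
  have hTk : 0 < T ^ κ := Real.rpow_pos_of_pos hT0 _
  rw [h6, mul_div_assoc', div_le_iff₀ hTk]
  have h7 : M * (1 + Real.log T) ^ N ≤ (|M| + 1) * (2 ^ N * Real.log T ^ N) := by
    have h8 : M ≤ |M| + 1 := (le_abs_self M).trans (by linarith)
    exact mul_le_mul h8 h5 (by positivity) (by positivity)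
  have h9 : (|M| + 1) * (2 ^ N * Real.log T ^ N) ≤ ε * T ^ κ := by
    have h10 := mul_le_mul_of_nonneg_left h3 (by positivity : 0 ≤ (|M| + 1) * 2 ^ N)
    have h11 : (|M| + 1) * 2 ^ N * (ε / ((|M| + 1) * 2 ^ N) * T ^ κ) = ε * T ^ κ := by
      field_simp
    rw [h11] at h10
    linarith
  calc M * (1 + Real.log T) ^ N * T ≤ (ε * T ^ κ) * T :=
        mul_le_mul_of_nonneg_right (h7.trans h9) hT0.le
    _ = ε * T * T ^ κ := by ring

/-- the product of divisor sums for the pair `n, n'` -/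
noncomputable def E2H_P {ι : Type} [Fintype ι] [DecidableEq ι] (e0 v0 T : ℝ) (Q : ℕ) (a b : ι → ℕ) (j : ι) (n n' : ι → ℕ) (t : ℕ) : ℝ :=
  ∏ i, Fn (Function.update (fun i => DA e0 v0 T Q (n i) (n' i)) j {1} i)
    (Function.update (fun i => fA e0 v0 T Q (n i) (n' i)) j (fun _ => 1) i) (a i * t + b i)

theorem E2H_one (x : ℕ) : Fn {1} (fun _ => (1 : ℝ)) x = 1 := by
  unfold Fn
  rw [Finset.sum_filter, Finset.sum_singleton, if_pos (one_dvd x)]

theorem E2H_exp {ι : Type} [Fintype ι] [DecidableEq ι] (e0 v0 T : ℝ) (m Q : ℕ) (a b : ι → ℕ) (j : ι) (t : ℕ) :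
    sM e0 v0 T m Q a b {j} t ^ 2 = ∑ n ∈ AS ι v0 m, ∑ n' ∈ AS ι v0 m,
      la e0 v0 T Q (n j) 1 * la e0 v0 T Q (n' j) 1 * E2H_P e0 v0 T Q a b j n n' t := by
  rw [pow_two]
  unfold sM
  rw [Finset.sum_mul_sum]
  refine Finset.sum_congr rfl fun n _ => Finset.sum_congr rfl fun n' _ => ?_
  unfold E2H_P
  rw [← Finset.prod_mul_distrib, ← Finset.mul_prod_erase Finset.univ _ (Finset.mem_univ j),
    ← Finset.mul_prod_erase Finset.univ (fun i => Fn (Function.update (fun i => DA e0 v0 T Q (n i) (n' i)) j {1} i)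
    (Function.update (fun i => fA e0 v0 T Q (n i) (n' i)) j (fun _ => 1) i) (a i * t + b i)) (Finset.mem_univ j)]
  simp only [Finset.mem_singleton, if_true, Function.update_self]
  rw [E2H_one, one_mul]
  congr 1
  refine Finset.prod_congr rfl fun i hi => ?_
  have hij : i ≠ j := Finset.ne_of_mem_erase hi
  rw [if_neg hij, if_neg hij, Function.update_of_ne hij, Function.update_of_ne hij, fn_mul]
  rfl

theorem E2H_v {ι : Type} [Fintype ι] [DecidableEq ι] {v0 : ℝ} (hv0 : 0 < v0) {m : ℕ} {n : ι → ℕ} (hn : n ∈ AS ι v0 m) (i : ι) :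
    vv v0 (n i) ≤ 1 := by
  unfold AS at hn
  have h := (mem_filter.1 hn).2
  exact (single_le_sum (f := fun i => vv v0 (n i)) (fun j _ => (AtA_vv_pos hv0 _).le) (mem_univ i)).trans h

theorem E2H_sum {ι : Type} (A : Finset ι) (l : ι → ι → ℝ) (X Y : ι → ι → ℝ) {F E N : ℝ} (hF : 0 ≤ F) (hE : 0 ≤ E)
    (hN : (A.card : ℝ) ≤ N)
    (hl : ∀ n ∈ A, ∀ n' ∈ A, |l n n'| ≤ F) (hX : ∀ n ∈ A, ∀ n' ∈ A, |X n n' - Y n n'| ≤ E) :
    ∑ n ∈ A, ∑ n' ∈ A, l n n' * Y n n' - N ^ 2 * (F * E) ≤ ∑ n ∈ A, ∑ n' ∈ A, l n n' * X n n' := by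
  have h1 : ∑ n ∈ A, ∑ n' ∈ A, (l n n' * Y n n' - F * E) ≤ ∑ n ∈ A, ∑ n' ∈ A, l n n' * X n n' := by
    refine Finset.sum_le_sum fun n hn => Finset.sum_le_sum fun n' hn' => ?_
    have h2 : |l n n' * (X n n' - Y n n')| ≤ F * E := by
      rw [abs_mul]
      exact mul_le_mul (hl n hn n' hn') (hX n hn n' hn') (abs_nonneg _) hF
    have h3 := (abs_le.1 h2).1
    rw [mul_sub] at h3
    linarith
  have h2 : ∑ n ∈ A, ∑ n' ∈ A, (l n n' * Y n n' - F * E) =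
      ∑ n ∈ A, ∑ n' ∈ A, l n n' * Y n n' - (A.card : ℝ) ^ 2 * (F * E) := by
    simp only [Finset.sum_sub_distrib, Finset.sum_const, nsmul_eq_mul]
    ring
  rw [h2] at h1
  have h3 : (A.card : ℝ) ^ 2 * (F * E) ≤ N ^ 2 * (F * E) :=
    mul_le_mul_of_nonneg_right (pow_le_pow_left₀ (Nat.cast_nonneg _) hN 2) (mul_nonneg hF hE)
  linarith

theorem e2h {φ : ℝ → ℝ} (hφ : Wt (1 / 2) φ) {e0 v0 : ℝ} (he0 : 0 < e0) (he1 : e0 ≤ 1 / 16) (hv0 : 0 < v0) (m K B : ℕ) (hK : 1 ≤ K)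
    {ε : ℝ} (hε : 0 < ε) :
    ∃ (T0 : ℝ) (w0 : ℕ), ∀ T, T0 ≤ T → ∀ (ι : Type) [Fintype ι] [DecidableEq ι], Fintype.card ι = K → ∀ (Q : ℕ) (a b : ι → ℕ), Forms Q a b →
      Wide w0 Q → Big e0 T Q → (∀ i, (a i : ℝ) ≤ Real.log T ^ B) → (∀ i, (b i : ℝ) ≤ Real.log T ^ B) → ∀ j : ι, Nat.Coprime (a j) (b j) →
      T * (∫ x, φ x) * ((a j : ℝ) / (Nat.totient (a j) : ℝ)) * (FI ι v0 m {j} - ε) * uu e0 T Q ^ (K + 1) ≤
        2 * Real.log T * ∑ t ∈ (rT T).filter (fun t => (a j * t + b j).Prime), φ ((t : ℝ) / T) * sM e0 v0 T m Q a b {j} t ^ 2 := by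
  have hI : 0 < ∫ x, φ x := hφ.int_pos
  obtain ⟨T1, hR⟩ := e2r hφ he0 he1 hv0 m K B 8
  obtain ⟨T2, w0, hC⟩ := e2c he0 hv0 m K hK (half_pos hε)
  obtain ⟨T3, hT31, hE⟩ := eqs he0 (show (0 : ℝ) < 1 by norm_num)
  obtain ⟨T4, hT41, hlog⟩ := E2H_log 3 B (κ := 1 / 2) (by norm_num) (show (0 : ℝ) < 1 by norm_num)
  obtain ⟨I, hIdef⟩ : ∃ I : ℝ, I = ∫ x, φ x := ⟨_, rfl⟩
  rw [← hIdef] at hI hR ⊢
  obtain ⟨N, hNdef⟩ : ∃ N : ℝ, N = ((m : ℝ) + 1) ^ K := ⟨_, rfl⟩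
  obtain ⟨V, hV⟩ : ∃ V : ℝ, V = N ^ 2 * (4 / v0) ^ 2 * 64 * (2 / (ε * I)) := ⟨_, rfl⟩
  refine ⟨max T1 (max T2 (max T3 (max T4 (Real.exp (max 1 V))))), w0, ?_⟩
  intro T hT ι _ _ hι Q a b hF hW hB ha hb j hab
  have hT1 : T1 ≤ T := (le_max_left _ _).trans hT
  have hT2 : T2 ≤ T := ((le_max_left _ _).trans (le_max_right _ _)).trans hT
  have hT3 : T3 ≤ T := ((le_max_left _ _).trans ((le_max_right _ _).trans (le_max_right _ _))).trans hT
  have hT4 : T4 ≤ T :=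
    ((le_max_left _ _).trans ((le_max_right _ _).trans ((le_max_right _ _).trans (le_max_right _ _)))).trans hT
  have hT5 : Real.exp (max 1 V) ≤ T :=
    ((le_max_right _ _).trans ((le_max_right _ _).trans ((le_max_right _ _).trans (le_max_right _ _)))).trans hT
  have hT : 1 ≤ T := hT31.trans hT3
  have hT0 : 0 < T := by linarith
  have hL : max 1 V ≤ Real.log T := by
    rw [Real.le_log_iff_exp_le hT0]
    exact hT5
  have hL1 : 1 ≤ Real.log T := (le_max_left _ _).trans hL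
  have hLV : V ≤ Real.log T := (le_max_right _ _).trans hL
  obtain ⟨L, hLdef⟩ : ∃ L : ℝ, L = Real.log T := ⟨_, rfl⟩
  have hu := (hE T hT3 Q hF.Q_pos hB).1
  rw [div_one] at hu
  obtain ⟨u, hudef⟩ : ∃ u : ℝ, u = uu e0 T Q := ⟨_, rfl⟩
  have hC' := hC ι hι Q hF.Q_pos hW T hT2 hB j
  rw [← hudef] at hu hC' ⊢
  -- the ratio
  obtain ⟨c, hc⟩ : ∃ c : ℝ, c = (a j : ℝ) / (Nat.totient (a j) : ℝ) := ⟨_, rfl⟩
  have hc1 : 1 ≤ c := by
    have h1 : 0 < Nat.totient (a j) := Nat.totient_pos.2 (by have := hF.pos j; omega)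
    rw [hc, le_div_iff₀ (by exact_mod_cast h1), one_mul]
    exact_mod_cast Nat.totient_le (a j)
  rw [← hc]
  -- the sum with logarithms
  have hexp : ∑ t ∈ (rT T).filter (fun t => (a j * t + b j).Prime),
        φ ((t : ℝ) / T) * Real.log ((a j * t + b j : ℕ) : ℝ) * sM e0 v0 T m Q a b {j} t ^ 2 =
      ∑ n ∈ AS ι v0 m, ∑ n' ∈ AS ι v0 m, la e0 v0 T Q (n j) 1 * la e0 v0 T Q (n' j) 1 *
        ∑ t ∈ rT T, φ ((t : ℝ) / T) * (if (a j * t + b j).Prime then Real.log ((a j * t + b j : ℕ) : ℝ) else 0) *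
          E2H_P e0 v0 T Q a b j n n' t := by
    rw [Finset.sum_filter]
    have h1 : ∀ t ∈ rT T, (if (a j * t + b j).Prime then
          φ ((t : ℝ) / T) * Real.log ((a j * t + b j : ℕ) : ℝ) * sM e0 v0 T m Q a b {j} t ^ 2 else 0) =
        ∑ n ∈ AS ι v0 m, ∑ n' ∈ AS ι v0 m, la e0 v0 T Q (n j) 1 * la e0 v0 T Q (n' j) 1 *
          (φ ((t : ℝ) / T) * (if (a j * t + b j).Prime then Real.log ((a j * t + b j : ℕ) : ℝ) else 0) *
          E2H_P e0 v0 T Q a b j n n' t) := by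
      intro t _
      split_ifs with hp
      · rw [E2H_exp, Finset.mul_sum]
        refine Finset.sum_congr rfl fun n _ => ?_
        rw [Finset.mul_sum]
        refine Finset.sum_congr rfl fun n' _ => ?_
        ring
      · simp
    rw [Finset.sum_congr rfl h1, Finset.sum_comm]
    refine Finset.sum_congr rfl fun n _ => ?_
    rw [Finset.sum_comm]
    refine Finset.sum_congr rfl fun n' _ => ?_
    rw [Finset.mul_sum]
  -- lower bound
  have hla : ∀ n ∈ AS ι v0 m, |la e0 v0 T Q (n j) 1| ≤ 4 / v0 * (1 + L) ^ 3 := by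
    intro n hn
    rw [hLdef]
    exact (la_abs he0 (by linarith) hv0 hT Q (n j) (E2H_v hv0 hn j)).1 1
  have hL1' : 1 ≤ L := by rw [hLdef]; exact hL1
  have hLV' : V ≤ L := by rw [hLdef]; exact hLV
  have hF0 : 0 ≤ 4 / v0 * (1 + L) ^ 3 := by positivity
  have hcard := E3pM_card ι hι v0 m
  rw [← hNdef] at hcard
  have hlow := E2H_sum (AS ι v0 m) (fun n n' => la e0 v0 T Q (n j) 1 * la e0 v0 T Q (n' j) 1)
    (fun n n' => ∑ t ∈ rT T, φ ((t : ℝ) / T) * (if (a j * t + b j).Prime then Real.log ((a j * t + b j : ℕ) : ℝ) else 0) *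
          E2H_P e0 v0 T Q a b j n n' t)
    (fun n n' => T * I * c * Mm (Function.update (fun i => DA e0 v0 T Q (n i) (n' i)) j {1})
              (Function.update (fun i B => fA e0 v0 T Q (n i) (n' i) B * ((B : ℝ) / (Nat.totient B : ℝ))) j
                (fun _ => 1)) 1)
    (F := (4 / v0 * (1 + L) ^ 3) ^ 2) (E := T / L ^ 8) (N := N) (by positivity) (by positivity) hcard
    (fun n hn n' hn' => by
      rw [abs_mul, pow_two]
      exact mul_le_mul (hla n hn) (hla n' hn') (abs_nonneg _) hF0)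
    (fun n hn n' hn' => by
      have h1 := hR T hT1 ι hι Q a b hF ha hb j hab n hn n' hn'
      rw [← hc, ← hLdef] at h1
      have h2 : L ^ (8 : ℝ) = L ^ 8 := by
        have h3 : (8 : ℝ) = ((8 : ℕ) : ℝ) := by norm_num
        rw [h3, Real.rpow_natCast]
      rw [h2] at h1
      exact h1)
  rw [← hexp] at hlow
  have hmain : T * I * c * ((FI ι v0 m {j} - ε / 2) * u ^ (K + 1)) ≤
      ∑ n ∈ AS ι v0 m, ∑ n' ∈ AS ι v0 m, la e0 v0 T Q (n j) 1 * la e0 v0 T Q (n' j) 1 *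
        (T * I * c * Mm (Function.update (fun i => DA e0 v0 T Q (n i) (n' i)) j {1})
              (Function.update (fun i B => fA e0 v0 T Q (n i) (n' i) B * ((B : ℝ) / (Nat.totient B : ℝ))) j
                (fun _ => 1)) 1) := by
    have h1 := (abs_le.1 hC').1
    have h2 : ∑ n ∈ AS ι v0 m, ∑ n' ∈ AS ι v0 m, la e0 v0 T Q (n j) 1 * la e0 v0 T Q (n' j) 1 *
        (T * I * c * Mm (Function.update (fun i => DA e0 v0 T Q (n i) (n' i)) j {1})
              (Function.update (fun i B => fA e0 v0 T Q (n i) (n' i) B * ((B : ℝ) / (Nat.totient B : ℝ))) j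
                (fun _ => 1)) 1) =
        T * I * c * ∑ n ∈ AS ι v0 m, ∑ n' ∈ AS ι v0 m, la e0 v0 T Q (n j) 1 * la e0 v0 T Q (n' j) 1 *
          Mm (Function.update (fun i => DA e0 v0 T Q (n i) (n' i)) j {1})
            (Function.update (fun i B => fA e0 v0 T Q (n i) (n' i) B * ((B : ℝ) / (Nat.totient B : ℝ))) j (fun _ => 1)) 1 := by
      simp only [Finset.mul_sum]
      refine Finset.sum_congr rfl fun n _ => Finset.sum_congr rfl fun n' _ => ?_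
      ring
    rw [h2]
    refine mul_le_mul_of_nonneg_left ?_ (by positivity)
    linarith
  have hu0 : 0 < u := by linarith
  have huK : 1 ≤ u ^ (K + 1) := one_le_pow₀ hu
  have herr : N ^ 2 * ((4 / v0 * (1 + L) ^ 3) ^ 2 * (T / L ^ 8)) ≤ T * I * c * (ε / 2 * u ^ (K + 1)) := by
    have h1 : (1 + L) ^ 6 ≤ 64 * L ^ 6 := by
      calc (1 + L) ^ 6 ≤ (2 * L) ^ 6 := pow_le_pow_left₀ (by linarith) (by linarith) 6
        _ = 64 * L ^ 6 := by ring
    have h2 : N ^ 2 * ((4 / v0 * (1 + L) ^ 3) ^ 2 * (T / L ^ 8)) =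
        N ^ 2 * (4 / v0) ^ 2 * (1 + L) ^ 6 * (T / L ^ 8) := by ring
    have h3 : N ^ 2 * (4 / v0) ^ 2 * (1 + L) ^ 6 * (T / L ^ 8) ≤
        N ^ 2 * (4 / v0) ^ 2 * (64 * L ^ 6) * (T / L ^ 8) := by gcongr
    have h4 : N ^ 2 * (4 / v0) ^ 2 * (64 * L ^ 6) * (T / L ^ 8) = V * (ε * I / 2) * T / L ^ 2 := by
      rw [hV]
      have hL0 : L ≠ 0 := by linarith
      field_simp
    have h5 : V * (ε * I / 2) * T / L ^ 2 ≤ (ε * I / 2) * T := by
      rw [div_le_iff₀ (by positivity)]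
      have h6 : V ≤ L ^ 2 := by nlinarith
      have h7 : 0 < (ε * I / 2) * T := by positivity
      nlinarith
    have h6 : T * I * c * (ε / 2 * u ^ (K + 1)) = (ε * I / 2) * T * (c * u ^ (K + 1)) := by ring
    have h7 : 1 ≤ c * u ^ (K + 1) := one_le_mul_of_one_le_of_one_le hc1 huK
    have h8 : (ε * I / 2) * T ≤ (ε * I / 2) * T * (c * u ^ (K + 1)) := le_mul_of_one_le_right (by positivity) h7
    rw [h2, h6]
    linarith
  have hfin : T * I * c * (FI ι v0 m {j} - ε) * u ^ (K + 1) =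
      T * I * c * ((FI ι v0 m {j} - ε / 2) * u ^ (K + 1)) - T * I * c * (ε / 2 * u ^ (K + 1)) := by ring
  rw [hfin]
  have hstep : T * I * c * ((FI ι v0 m {j} - ε / 2) * u ^ (K + 1)) - T * I * c * (ε / 2 * u ^ (K + 1)) ≤
      ∑ t ∈ (rT T).filter (fun t => (a j * t + b j).Prime),
        φ ((t : ℝ) / T) * Real.log ((a j * t + b j : ℕ) : ℝ) * sM e0 v0 T m Q a b {j} t ^ 2 := by
    linarith
  refine hstep.trans ?_
  rw [Finset.mul_sum]
  refine Finset.sum_le_sum fun t ht => ?_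
  obtain ⟨ht1, ht2⟩ := mem_filter.1 ht
  have ht3 : (t : ℝ) ≤ 2 * T := by
    unfold rT at ht1
    rw [mem_range] at ht1
    have h1 : t ≤ ⌊2 * T⌋₊ := by omega
    exact (Nat.le_floor_iff (by positivity)).1 h1
  have hval : ((a j * t + b j : ℕ) : ℝ) ≤ T ^ 2 := by
    push_cast
    have h1 := ha j
    have h2 := hb j
    rw [← hLdef] at h1 h2
    have h3 := hlog T hT4
    rw [← hLdef] at h3
    have h4 : L ^ B ≤ (1 + L) ^ B := pow_le_pow_left₀ (by linarith) (by linarith) B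
    have h5 : (1 : ℝ) ≤ T ^ (1 - 1 / 2 : ℝ) := Real.one_le_rpow hT (by norm_num)
    have h6 : 3 * L ^ B ≤ T := by
      have h7 : 3 * L ^ B ≤ 3 * (1 + L) ^ B * T ^ (1 - 1 / 2 : ℝ) := by
        calc 3 * L ^ B ≤ 3 * (1 + L) ^ B := by linarith
          _ ≤ 3 * (1 + L) ^ B * T ^ (1 - 1 / 2 : ℝ) := le_mul_of_one_le_right (by positivity) h5
      linarith
    have h8 : (0 : ℝ) ≤ L ^ B := by positivity
    have h9 : (a j : ℝ) * t ≤ L ^ B * (2 * T) := mul_le_mul h1 ht3 (by positivity) h8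
    have h10 : L ^ B ≤ L ^ B * T := le_mul_of_one_le_right h8 hT
    have h11 : 3 * L ^ B * T ≤ T * T := mul_le_mul_of_nonneg_right h6 hT0.le
    nlinarith
  have hpos : (0 : ℝ) < ((a j * t + b j : ℕ) : ℝ) := by exact_mod_cast ht2.pos
  have hlogle : Real.log ((a j * t + b j : ℕ) : ℝ) ≤ 2 * Real.log T := by
    have h1 := Real.log_le_log hpos hval
    rw [Real.log_pow] at h1
    exact_mod_cast h1
  have h0 : 0 ≤ φ ((t : ℝ) / T) * sM e0 v0 T m Q a b {j} t ^ 2 := mul_nonneg (hφ.nonneg _) (sq_nonneg _)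
  calc φ ((t : ℝ) / T) * Real.log ((a j * t + b j : ℕ) : ℝ) * sM e0 v0 T m Q a b {j} t ^ 2 =
      Real.log ((a j * t + b j : ℕ) : ℝ) * (φ ((t : ℝ) / T) * sM e0 v0 T m Q a b {j} t ^ 2) := by ring
    _ ≤ 2 * Real.log T * (φ ((t : ℝ) / T) * sM e0 v0 T m Q a b {j} t ^ 2) := mul_le_mul_of_nonneg_right hlogle h0

end Pool.Agent.H39.MT
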