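/-
ROW ThW. Primes in progressions in the variable `t`, by partial summation.
Notation: `n = a t + b`, `D = a q`, `r0 = a ρ + b`, `f(n) = log n` if `n` is prime and `n ≡ r0 mod D`, else `0`; `F(y) = ∑_{1 ≤ n ≤ y} f(n)`; `w(n) = φ((n - b)/(a T))` (real numbers). `L` = a Lipschitz constant of `φ` (private theorem `e2a_lip` in H6/EG/E2a.lean: copy it).
PROOF. (1) The sum over `t` equals `∑_{n ∈ Icc 1 N} w(n) f(n)`: `t ↦ a t + b` is injective on `rT T`, its values are `≤ 2 a T + b ≤ N` (`⌊2 T⌋₊ ≤ 2 T`), `a t + b ≡ a ρ + b mod a q` iff `t ≡ ρ mod q` (`Nat.ModEq.mul_left_cancel'`, `Nat.ModEq.mul_left'`),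
`w(a t + b) = φ(t/T)`. Conversely if `w(n) ≠ 0` and `n ≡ r0 mod a q` then `1/2 < (n - b)/(a T) < 3/2` (`Wt.zero`), so `n > b`, `a ∣ n - b` and `n = a t + b` with `t < (3/2) T`, `t ≡ ρ mod q` (compare the proof of `e2a`).
(The term with `n = a t + b = 0` is not prime. Primes are `≥ 1`.)
(2) Partial summation: `w(N) = 0` because `(N - b)/(a T) ≥ 2`; `∑_{n=1}^N w(n) f(n) = ∑_{n=1}^{N-1} (w(n) - w(n+1)) F(n)` and `∑_{n=1}^N w(n) = ∑_{n=1}^{N-1} (w(n) - w(n+1)) n` (simple inductions, or one induction for `f - 1/φ(D)`: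
`∑_{n=1}^N w(n) g(n) = w(N) G(N) + ∑_{n=1}^{N-1} (w(n) - w(n+1)) G(n)`). With `g = f - 1/φ(D)`, `|G(n)| ≤ E`: `|∑ w f - (1/φ(D)) ∑_{n=1}^N w(n)| ≤ E ∑_{n=1}^{N-1} |w(n) - w(n+1)| ≤ E (a T + 2) L/(a T) ≤ 3 L E`
(the difference is `0` unless `n` or `n + 1` lies in the open interval `(b + a T/2, b + 3 a T/2)`, i.e. `n ∈ (b + a T/2 - 1, b + 3 a T/2)`: at most `a T + 2` integers; a simpler count suffices: all such `n` are in `Icc b (b + ⌈3 a T/2⌉₊)`, at most `3 a T` + 3 of them; the value of the constant `V` is unimportant).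
(3) `|∑_{n=1}^N w(n) - a T ∫ φ| ≤ C`: the terms with `w(n) ≠ 0` have `n = b + k`, `1 ≤ k ≤ 2 a T`, so the sum is `∑_{k ∈ rT (a T)} φ(k/(a T))` (`k = 0` gives `φ 0 = 0`), and `cnt` (H6/EG/Cnt.lean) with `a T`, `q = 1`.
-/
import Pool.Agent.H39.MT.Defs
import Pool.Agent.H6.EG.Cnt

set_option autoImplicit false

namespace Pool.Agent.H39.MT

open EG Finset

theorem ThW_lip {φ : ℝ → ℝ} (hφ : Wt (1 / 2) φ) :
    ∃ L : ℝ, 0 ≤ L ∧ ∀ x y, |φ x - φ y| ≤ L * |x - y| := by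
  have hs : HasCompactSupport φ := by
    apply HasCompactSupport.intro (isCompact_Icc (a := (0 : ℝ)) (b := 2))
    intro x hx
    apply hφ.zero
    rw [Set.mem_Icc, not_and_or, not_le, not_le] at hx
    rw [le_abs]
    rcases hx with h | h
    · right
      linarith
    · left
      linarith
  obtain ⟨C, hC⟩ := ContDiff.lipschitzWith_of_hasCompactSupport hs hφ.smooth (by simp)
  refine ⟨C, C.2, fun x y => ?_⟩
  have := hC.dist_le_mul x y
  simpa [Real.dist_eq] using this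

theorem ThW_abel (w g : ℕ → ℝ) (N : ℕ) :
    ∑ n ∈ Icc 1 N, w n * g n = w (N + 1) * ∑ n ∈ Icc 1 N, g n + ∑ n ∈ Icc 1 N, (w n - w (n + 1)) * ∑ k ∈ Icc 1 n, g k := by
  induction N with
  | zero => simp
  | succ N ih =>
    have e : ∀ h : ℕ → ℝ, ∑ k ∈ Icc 1 (N + 1), h k = ∑ k ∈ Icc 1 N, h k + h (N + 1) := fun h =>
      Finset.sum_Icc_succ_top (by omega) _
    rw [e (fun n => w n * g n), e (fun n => (w n - w (n + 1)) * ∑ k ∈ Icc 1 n, g k), ih, e g]
    ring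

/-- the weight in terms of `n = a t + b` -/
noncomputable def ThW_w (φ : ℝ → ℝ) (S : ℝ) (b n : ℕ) : ℝ := φ (((n : ℝ) - b) / S)

theorem ThW_supp {φ : ℝ → ℝ} (hφ : Wt (1 / 2) φ) {S : ℝ} (hS : 1 ≤ S) {b n : ℕ} (h : ThW_w φ S b n ≠ 0) :
    (b : ℝ) + S / 2 < n ∧ (n : ℝ) < b + 3 / 2 * S := by
  have hS0 : 0 < S := by linarith
  by_contra hc
  apply h
  unfold ThW_w
  apply hφ.zero
  rw [not_and_or, not_lt, not_lt] at hc
  rw [le_abs]
  rcases hc with h1 | h1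
  · right
    have : ((n : ℝ) - b) / S ≤ 1 / 2 := by
      rw [div_le_iff₀ hS0]
      linarith
    linarith
  · left
    have : 3 / 2 ≤ ((n : ℝ) - b) / S := by
      rw [le_div_iff₀ hS0]
      linarith
    linarith

theorem ThW_var {φ : ℝ → ℝ} (hφ : Wt (1 / 2) φ) {L : ℝ} (hL0 : 0 ≤ L) (hL : ∀ x y, |φ x - φ y| ≤ L * |x - y|)
    {S : ℝ} (hS : 1 ≤ S) (b N : ℕ) :
    ∑ n ∈ Icc 1 N, |ThW_w φ S b n - ThW_w φ S b (n + 1)| ≤ 5 * L := by
  have hS0 : 0 < S := by linarith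
  have hfl : (⌊2 * S⌋₊ : ℝ) ≤ 2 * S := Nat.floor_le (by positivity)
  have h1 : ∀ n ∈ Icc 1 N, |ThW_w φ S b n - ThW_w φ S b (n + 1)| ≤
      if n ∈ Icc b (b + (⌊2 * S⌋₊ + 1)) then L / S else 0 := by
    intro n _
    split_ifs with hn
    · unfold ThW_w
      refine (hL _ _).trans ?_
      have e : ((n : ℝ) - b) / S - (((n + 1 : ℕ) : ℝ) - b) / S = -(1 / S) := by
        push_cast
        ring
      rw [e, abs_neg, abs_of_pos (by positivity), mul_one_div]
    · have hz1 : ThW_w φ S b n = 0 := by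
        by_contra h
        obtain ⟨h2, h3⟩ := ThW_supp hφ hS h
        apply hn
        rw [Finset.mem_Icc]
        constructor
        · have : (b : ℝ) < n := by linarith
          exact_mod_cast this.le
        · have h4 : (n : ℝ) < b + (2 * S) := by linarith
          have h5 := Nat.lt_floor_add_one (2 * S)
          have h6 : (n : ℝ) < ((b + (⌊2 * S⌋₊ + 1) : ℕ) : ℝ) := by
            push_cast
            linarith
          exact_mod_cast h6.le
      have hz2 : ThW_w φ S b (n + 1) = 0 := by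
        by_contra h
        obtain ⟨h2, h3⟩ := ThW_supp hφ hS h
        apply hn
        push_cast at h2 h3
        rw [Finset.mem_Icc]
        constructor
        · have : (b : ℝ) < n + 1 := by linarith
          have h7 : b < n + 1 := by exact_mod_cast this
          omega
        · have h4 : (n : ℝ) < b + (2 * S) := by linarith
          have h5 := Nat.lt_floor_add_one (2 * S)
          have h6 : (n : ℝ) < ((b + (⌊2 * S⌋₊ + 1) : ℕ) : ℝ) := by
            push_cast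
            linarith
          exact_mod_cast h6.le
      rw [hz1, hz2, sub_zero, abs_zero]
  refine (Finset.sum_le_sum h1).trans ?_
  rw [← Finset.sum_filter, Finset.sum_const, nsmul_eq_mul]
  have h2 : (((Icc 1 N).filter (fun n => n ∈ Icc b (b + (⌊2 * S⌋₊ + 1)))).card : ℝ) ≤ 5 * S := by
    have h3 : ((Icc 1 N).filter (fun n => n ∈ Icc b (b + (⌊2 * S⌋₊ + 1)))).card ≤ (Icc b (b + (⌊2 * S⌋₊ + 1))).card := by
      apply Finset.card_le_card
      intro n hn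
      exact (Finset.mem_filter.1 hn).2
    rw [Nat.card_Icc] at h3
    have h4 : b + (⌊2 * S⌋₊ + 1) + 1 - b = ⌊2 * S⌋₊ + 2 := by omega
    rw [h4] at h3
    have h5 : (((Icc 1 N).filter (fun n => n ∈ Icc b (b + (⌊2 * S⌋₊ + 1)))).card : ℝ) ≤ ((⌊2 * S⌋₊ + 2 : ℕ) : ℝ) := by
      exact_mod_cast h3
    push_cast at h5
    linarith
  calc (((Icc 1 N).filter (fun n => n ∈ Icc b (b + (⌊2 * S⌋₊ + 1)))).card : ℝ) * (L / S) ≤ 5 * S * (L / S) :=
        mul_le_mul_of_nonneg_right h2 (by positivity)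
    _ = 5 * L := by
        field_simp

theorem ThW_mass {φ : ℝ → ℝ} (hφ : Wt (1 / 2) φ) : ∃ C : ℝ, 0 ≤ C ∧ ∀ S : ℝ, 1 ≤ S → ∀ b N : ℕ, 2 * S + b ≤ N →
    |∑ n ∈ Icc 1 N, ThW_w φ S b n - S * ∫ x, φ x| ≤ C := by
  obtain ⟨C, hC, hcnt⟩ := cnt hφ
  refine ⟨C, hC, fun S hS b N hN => ?_⟩
  have hS0 : 0 < S := by linarith
  have h := hcnt S hS 1 le_rfl 0
  have e1 : (rT S).filter (fun t => t ≡ 0 [MOD 1]) = rT S := by
    apply Finset.filter_true_of_mem
    intro t _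
    exact Nat.modEq_one
  rw [e1, Nat.cast_one, div_one] at h
  have e2 : ∑ t ∈ rT S, φ ((t : ℝ) / S) = ∑ n ∈ Icc 1 N, ThW_w φ S b n := by
    have e3 : ∑ t ∈ rT S, φ ((t : ℝ) / S) = ∑ n ∈ (rT S).image (fun t => b + t), ThW_w φ S b n := by
      rw [Finset.sum_image (fun t _ t' _ h => by simpa using h)]
      refine Finset.sum_congr rfl fun t _ => ?_
      unfold ThW_w
      congr 2
      push_cast
      ring
    rw [e3]
    have e4 : ∀ F : Finset ℕ, ∑ n ∈ F, ThW_w φ S b n = ∑ n ∈ F.filter (fun n => ThW_w φ S b n ≠ 0), ThW_w φ S b n := by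
      intro F
      rw [Finset.sum_filter_ne_zero]
    rw [e4, e4 (Icc 1 N)]
    refine Finset.sum_congr ?_ (fun _ _ => rfl)
    ext n
    rw [Finset.mem_filter, Finset.mem_filter, Finset.mem_Icc, Finset.mem_image]
    constructor
    · rintro ⟨⟨t, ht, rfl⟩, h1⟩
      obtain ⟨h2, h3⟩ := ThW_supp hφ hS h1
      refine ⟨⟨?_, ?_⟩, h1⟩
      · have : (0 : ℝ) < ((b + t : ℕ) : ℝ) := by
          have : (0 : ℝ) ≤ b := Nat.cast_nonneg b
          linarith
        exact_mod_cast this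
      · have : ((b + t : ℕ) : ℝ) ≤ N := by linarith
        exact_mod_cast this
    · rintro ⟨⟨_, _⟩, h1⟩
      obtain ⟨h2, h3⟩ := ThW_supp hφ hS h1
      have hbn : (b : ℝ) < n := by linarith
      have hbn' : b < n := by exact_mod_cast hbn
      refine ⟨⟨n - b, ?_, by omega⟩, h1⟩
      unfold rT
      rw [Finset.mem_range, Nat.lt_add_one_iff, Nat.le_floor_iff (by positivity), Nat.cast_sub hbn'.le]
      linarith
  rw [← e2]
  exact h

theorem ThW_sum {φ : ℝ → ℝ} (hφ : Wt (1 / 2) φ) {T : ℝ} (hT : 1 ≤ T) {a b q ρ N : ℕ} (ha : 1 ≤ a) (hN : 2 * (a * T) + b ≤ N) :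
    ∑ t ∈ (rT T).filter (fun t => t ≡ ρ [MOD q]), φ ((t : ℝ) / T) *
        (if (a * t + b).Prime then Real.log ((a * t + b : ℕ) : ℝ) else 0) =
      ∑ n ∈ Icc 1 N, ThW_w φ (a * T) b n * (if n.Prime ∧ n ≡ a * ρ + b [MOD a * q] then Real.log n else 0) := by
  classical
  have hT0 : 0 < T := by linarith
  have ha' : (1 : ℝ) ≤ a := by exact_mod_cast ha
  have hS : 1 ≤ (a : ℝ) * T := by nlinarith
  have hr : ∑ n ∈ Icc 1 N, ThW_w φ (a * T) b n * (if n.Prime ∧ n ≡ a * ρ + b [MOD a * q] then Real.log n else 0) =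
      ∑ n ∈ (Icc 1 N).filter (fun n => ThW_w φ (a * T) b n ≠ 0 ∧ n.Prime ∧ n ≡ a * ρ + b [MOD a * q]),
        ThW_w φ (a * T) b n * Real.log n := by
    rw [Finset.sum_filter]
    refine Finset.sum_congr rfl fun n _ => ?_
    by_cases h1 : ThW_w φ (a * T) b n = 0
    · rw [h1, zero_mul, zero_mul, ite_self]
    · by_cases h2 : n.Prime ∧ n ≡ a * ρ + b [MOD a * q]
      · rw [if_pos h2, if_pos ⟨h1, h2⟩]
      · rw [if_neg h2, if_neg (fun h => h2 h.2), mul_zero]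
  have hl : ∑ t ∈ (rT T).filter (fun t => t ≡ ρ [MOD q]), φ ((t : ℝ) / T) *
        (if (a * t + b).Prime then Real.log ((a * t + b : ℕ) : ℝ) else 0) =
      ∑ t ∈ (rT T).filter (fun t => t ≡ ρ [MOD q] ∧ φ ((t : ℝ) / T) ≠ 0 ∧ (a * t + b).Prime),
        φ ((t : ℝ) / T) * Real.log ((a * t + b : ℕ) : ℝ) := by
    rw [Finset.sum_filter, Finset.sum_filter]
    refine Finset.sum_congr rfl fun t _ => ?_
    by_cases h0 : t ≡ ρ [MOD q]
    · rw [if_pos h0]
      by_cases h1 : φ ((t : ℝ) / T) = 0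
      · rw [h1, zero_mul, zero_mul, ite_self]
      · by_cases h2 : (a * t + b).Prime
        · rw [if_pos h2, if_pos ⟨h0, h1, h2⟩]
        · rw [if_neg h2, if_neg (fun h => h2 h.2.2), mul_zero]
    · rw [if_neg h0, if_neg (fun h => h0 h.1)]
  rw [hr, hl]
  have hw : ∀ t : ℕ, ThW_w φ (a * T) b (a * t + b) = φ ((t : ℝ) / T) := by
    intro t
    unfold ThW_w
    congr 1
    push_cast
    field_simp
    ring
  refine Finset.sum_bij (fun t _ => a * t + b) ?_ ?_ ?_ ?_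
  · intro t ht
    rw [Finset.mem_filter] at ht
    obtain ⟨h1, h2, h3, h4⟩ := ht
    rw [Finset.mem_filter, Finset.mem_Icc]
    refine ⟨⟨h4.one_lt.le, ?_⟩, ?_, h4, (h2.mul_left' a).add_right b⟩
    · unfold rT at h1
      rw [Finset.mem_range, Nat.lt_add_one_iff, Nat.le_floor_iff (by positivity)] at h1
      have h5 : ((a * t + b : ℕ) : ℝ) ≤ N := by
        push_cast
        have : (a : ℝ) * t ≤ a * (2 * T) := mul_le_mul_of_nonneg_left h1 (by positivity)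
        linarith
      exact_mod_cast h5
    · rw [hw]
      exact h3
  · intro t _ t' _ h
    exact Nat.eq_of_mul_eq_mul_left (by omega) (Nat.add_right_cancel h)
  · intro n hn
    rw [Finset.mem_filter, Finset.mem_Icc] at hn
    obtain ⟨⟨_, _⟩, h1, h2, h3⟩ := hn
    obtain ⟨h4, h5⟩ := ThW_supp hφ hS h1
    have hbn : (b : ℝ) < n := by nlinarith
    have hbn' : b ≤ n := by exact_mod_cast hbn.le
    have h6 : n ≡ b [MOD a] := by
      have h7 : n ≡ a * ρ + b [MOD a] := h3.of_mul_right q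
      have h8 : a * ρ + b ≡ 0 + b [MOD a] := by
        apply Nat.ModEq.add_right
        exact (Nat.modEq_zero_iff_dvd).2 (Dvd.intro _ rfl)
      simpa using h7.trans h8
    obtain ⟨t, ht⟩ := (Nat.modEq_iff_dvd' hbn').1 h6.symm
    have hnt : n = a * t + b := by omega
    subst hnt
    refine ⟨t, ?_, rfl⟩
    rw [Finset.mem_filter]
    refine ⟨?_, ?_, ?_, h2⟩
    · unfold rT
      rw [Finset.mem_range, Nat.lt_add_one_iff, Nat.le_floor_iff (by positivity)]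
      push_cast at h5
      have h8 : (a : ℝ) * t < a * (2 * T) := by nlinarith
      exact (lt_of_mul_lt_mul_left h8 (by positivity)).le
    · exact Nat.ModEq.mul_left_cancel' (by omega) (Nat.ModEq.add_right_cancel' b h3)
    · rw [← hw]
      exact h1
  · intro t _
    rw [hw]

theorem thW {φ : ℝ → ℝ} (hφ : Wt (1 / 2) φ) : ∃ V : ℝ, 0 ≤ V ∧ ∀ T : ℝ, 1 ≤ T → ∀ a b q ρ N : ℕ, 1 ≤ a → 1 ≤ q →
    2 * (a * T) + b ≤ N → ∀ E : ℝ, 0 ≤ E →
    (∀ y : ℕ, y ≤ N → |∑ p ∈ (Icc 1 y).filter (fun p => p.Prime ∧ p ≡ a * ρ + b [MOD a * q]), Real.log p -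
      y / (Nat.totient (a * q) : ℝ)| ≤ E) →
    |∑ t ∈ (rT T).filter (fun t => t ≡ ρ [MOD q]), φ ((t : ℝ) / T) *
        (if (a * t + b).Prime then Real.log ((a * t + b : ℕ) : ℝ) else 0) -
      a * T * (∫ x, φ x) / (Nat.totient (a * q) : ℝ)| ≤ V * (E + 1) := by
  classical
  obtain ⟨L, hL0, hL⟩ := ThW_lip hφ
  obtain ⟨C, hC0, hC⟩ := ThW_mass hφ
  refine ⟨5 * L + C, by positivity, fun T hT a b q ρ N ha hq hN E hE hbv => ?_⟩
  have hT0 : 0 < T := by linarith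
  have ha' : (1 : ℝ) ≤ a := by exact_mod_cast ha
  have hS : 1 ≤ (a : ℝ) * T := by nlinarith
  have htot : (1 : ℝ) ≤ (Nat.totient (a * q) : ℝ) := by
    exact_mod_cast Nat.totient_pos.2 (Nat.mul_pos ha hq)
  obtain ⟨D, hD⟩ : ∃ D : ℝ, D = (Nat.totient (a * q) : ℝ) := ⟨_, rfl⟩
  rw [ThW_sum hφ hT ha hN]
  rw [← hD] at htot hbv ⊢
  have hD0 : 0 < D := by linarith
  obtain ⟨f, hf⟩ : ∃ f : ℕ → ℝ, f = fun n => if n.Prime ∧ n ≡ a * ρ + b [MOD a * q] then Real.log n else 0 := ⟨_, rfl⟩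
  have hff : ∀ n, (if n.Prime ∧ n ≡ a * ρ + b [MOD a * q] then Real.log n else 0) = f n := by
    intro n
    rw [hf]
  simp only [hff]
  obtain ⟨w, hw⟩ : ∃ w : ℕ → ℝ, w = ThW_w φ (a * T) b := ⟨_, rfl⟩
  have hvar := ThW_var hφ hL0 hL hS b N
  have hmass := hC (a * T) hS b N hN
  have hwN : ThW_w φ (a * T) b (N + 1) = 0 := by
    by_contra h
    obtain ⟨_, h2⟩ := ThW_supp hφ hS h
    push_cast at h2
    nlinarith
  rw [← hw] at hvar hmass hwN ⊢
  -- partial sums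
  have hG : ∀ n ∈ Icc 1 N, |∑ k ∈ Icc 1 n, (f k - 1 / D)| ≤ E := by
    intro n hn
    rw [Finset.mem_Icc] at hn
    have h1 := hbv n hn.2
    have e1 : ∑ k ∈ Icc 1 n, (f k - 1 / D) =
        ∑ p ∈ (Icc 1 n).filter (fun p => p.Prime ∧ p ≡ a * ρ + b [MOD a * q]), Real.log p - n / D := by
      rw [Finset.sum_sub_distrib, Finset.sum_const, Nat.card_Icc, Nat.add_sub_cancel, nsmul_eq_mul, mul_one_div]
      congr 1
      rw [Finset.sum_filter, hf]
    rw [e1]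
    exact h1
  have hab := ThW_abel w (fun n => f n - 1 / D) N
  rw [hwN, zero_mul, zero_add] at hab
  have h2 : |∑ n ∈ Icc 1 N, w n * (f n - 1 / D)| ≤ 5 * L * E := by
    rw [hab]
    refine (Finset.abs_sum_le_sum_abs _ _).trans ?_
    have h3 : ∀ n ∈ Icc 1 N, |(w n - w (n + 1)) * ∑ k ∈ Icc 1 n, (f k - 1 / D)| ≤ |w n - w (n + 1)| * E := by
      intro n hn
      rw [abs_mul]
      exact mul_le_mul_of_nonneg_left (hG n hn) (abs_nonneg _)
    refine (Finset.sum_le_sum h3).trans ?_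
    rw [← Finset.sum_mul]
    exact mul_le_mul_of_nonneg_right hvar hE
  have e2 : ∑ n ∈ Icc 1 N, w n * (f n - 1 / D) = ∑ n ∈ Icc 1 N, w n * f n - (∑ n ∈ Icc 1 N, w n) / D := by
    rw [Finset.sum_div, ← Finset.sum_sub_distrib]
    refine Finset.sum_congr rfl fun n _ => ?_
    ring
  rw [e2] at h2
  have h4 : |(∑ n ∈ Icc 1 N, w n) / D - a * T * (∫ x, φ x) / D| ≤ C := by
    rw [← sub_div, abs_div, abs_of_pos hD0, div_le_iff₀ hD0]
    refine hmass.trans ?_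
    nlinarith
  have h5 := abs_sub_le (∑ n ∈ Icc 1 N, w n * f n) ((∑ n ∈ Icc 1 N, w n) / D) (a * T * (∫ x, φ x) / D)
  nlinarith

end Pool.Agent.H39.MT
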