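/-
ROW E2R. The remainder of the sum over primes (Bombieri-Vinogradov).
PROOF. `bv_theta` with `ε = 1/8`, exponent `A' = max A 0 + 6 K + B + 2`, `C = 2^(K+2)`; take `N = ⌈3 * a j * T⌉₊` (`≥ T`, so large); `V` from `thW hφ`. For large `T`: `b j ≤ (log T)^B ≤ T`, so `2 (a j) T + b j ≤ N`; `N ≤ 4 (a j) T ≤ 4 T (log T)^B`.
Fix `n, n', j`; `D = update (fun i => DA ..) j {1}`, `f = update (fun i => fA ..) j (fun _ => 1)`. All `D i` are `Good Q` (`good_lcD`; `{1}`). `mtx` with `g t = φ(t/T) * (if prime then log else 0)`. For a pairwise coprime tuple `B` let `q = ∏ B i`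
(squarefree, coprime to `Q`, `≥ 1`, `B j = 1`); `crtB` gives `ρ` with `(∀ i, B i ∣ a i t + b i) ↔ t ≡ ρ mod q`. `(a j ρ + b j, a j q) = 1`: a common prime `p` of `a j ρ + b j` and `a j` divides `b j`, contradiction to `Coprime (a j) (b j)`;
if `p ∣ q` then `p ∣ B i` for some `i ≠ j`, so `p ∣ a i ρ + b i` (take `t = ρ` in `crtB`) and `p ∣ a j ρ + b j`, so `p ∣ a i * b j - a j * b i` (`= a i (a j ρ + b j) - a j (a i ρ + b i)`), `p ∣ Q` by `Forms.diff`, contradiction to `Coprime (B i) Q`.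
`a j q ≤ (log T)^B T^(2 e0) ≤ T^(1/8) T^(1/8) ≤ N^(3/8)` (`B i ≤ z_{n i} z_{n' i} ≤ T^(e0 (v_{n i} + v_{n' i}))`, `∑ v ≤ 1`; for the sizes of the elements of `DA` see `lcD`, `sq`, `zz`; compare AbsJ.lean).
`thW` and `bv_theta` (modulus `a j q`, residue `a j ρ + b j`): `∑_{t ≡ ρ} g t = (a j) T ∫φ/φ(a j q) + O(V (E(a j q) + 1))`, and `φ(a j q) = φ(a j) φ(q)` (the primes of `a j` divide `Q` by `Forms.prime`, `q` is coprime to `Q`), `φ(q) = ∏ φ(B i)`:
`(∏ f i (B i)) (a j) T ∫φ/φ(a j q) = T ∫φ (a j/φ(a j)) ∏ (f~ i (B i)/B i)`; the main terms sum to `T ∫φ (a j/φ(a j)) Mm D f~ 1` (coprimality to `1` is no condition).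
Errors: `|f i (B i)| ≤ 4^ω(B i) F`, `F = (4/v0 (1 + log T)^3)^2 + 1` (`lcf_bd`, `la_abs` (`v ≤ 1` on `AS`); `1` for `i = j`), so by `tup` (`X q = V (E(a j q) + 1)`, `𝒬 = Icc 1 ⌊T^(1/8)⌋₊`) they are at most
`F^K V ∑_{q ≤ T^(1/8)} (2^(K+2))^ω(q) (E(a j q) + 1)`. `ω(q) ≤ ω(a j q)` and `q ↦ a j q` is injective with values in `Icc 1 ⌊N^(3/8)⌋₊`, so `∑ (2^(K+2))^ω(q) E(a j q) ≤ N/(log N)^A' ≤ 4 (log T)^B T/(log T)^A'`;
`∑_{q ≤ T^(1/8)} (2^(K+2))^ω(q) ≤ C1 T^(1/4)` (`omega_bound`, `φ(q) ≤ q`). Since `F^K ≤ C2 (1 + log T)^(6 K)`, the total is `≤ T/(log T)^A` for large `T`.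
(All statements for large `T` only involve `K, B, A, V, v0, C1`; the index type, `Q`, `a`, `b` come after `T0`.)
-/
import Pool.Agent.H39.MT.ThW
import Pool.Agent.H6.EG.E2b
import Pool.Agent.H6.EG.Mtx
import Pool.Agent.H6.EG.AbsJ
import Pool.Agent.H17.BV.Tht

set_option autoImplicit false

namespace Pool.Agent.H39.MT

open EG Finset

private theorem E2R_core {e0 v0 : ℝ} (he0 : 0 < e0) (he1 : e0 ≤ 1 / 8) (hv0 : 0 < v0) (m : ℕ)
    {ι : Type} [Fintype ι] [DecidableEq ι] {Q : ℕ} {a b : ι → ℕ} (ha : Forms Q a b)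
    {T I : ℝ} (hT : 1 ≤ T) {n n' : ι → ℕ} (hn : n ∈ AS ι v0 m)
    (hn' : n' ∈ AS ι v0 m) (j : ι) (hab : Nat.Coprime (a j) (b j)) (g : ℕ → ℝ) (X : ℕ → ℝ) (hX : ∀ q, 0 ≤ X q)
    (hg : ∀ q : ℕ, 1 ≤ q → (q : ℝ) ≤ T ^ (2 * e0) → Nat.Coprime q Q → ∀ ρ : ℕ,
      Nat.Coprime (a j * ρ + b j) (a j * q) →
      |∑ t ∈ (rT T).filter (fun t => t ≡ ρ [MOD q]), g t - I / (Nat.totient q : ℝ)| ≤ X q) :
    |∑ t ∈ rT T, g t *
          ∏ i, Fn (Function.update (fun i => DA e0 v0 T Q (n i) (n' i)) j {1} i)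
            (Function.update (fun i => fA e0 v0 T Q (n i) (n' i)) j (fun _ => 1) i) (a i * t + b i) -
        I * Mm (Function.update (fun i => DA e0 v0 T Q (n i) (n' i)) j {1})
            (Function.update (fun i B => fA e0 v0 T Q (n i) (n' i) B * ((B : ℝ) / (Nat.totient B : ℝ))) j
              (fun _ => 1)) 1| ≤
      ((4 / v0 * (1 + Real.log T) ^ 3) ^ 2) ^ Fintype.card ι *
        ∑ q ∈ E2b_S e0 T Q, ((2 : ℝ) ^ (Fintype.card ι + 2)) ^ q.primeFactors.card * X q := by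
  have hT0 : 0 < T := by linarith
  have hlT := Real.log_nonneg hT
  have hvp : ∀ k, 0 < vv v0 k := fun k => by unfold vv; positivity
  have hs : ∀ {n : ι → ℕ}, n ∈ AS ι v0 m → ∑ i, vv v0 (n i) ≤ 1 := by
    intro n hn
    unfold AS at hn
    exact (mem_filter.1 hn).2
  have hle : ∀ {n : ι → ℕ}, n ∈ AS ι v0 m → ∀ i, vv v0 (n i) ≤ 1 := by
    intro n hn i
    exact (single_le_sum (f := fun i => vv v0 (n i)) (fun j _ => (hvp _).le) (mem_univ i)).trans (hs hn)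
  have hv1 : v0 ≤ 1 := by
    refine le_trans ?_ (hle hn j)
    unfold vv
    have h : (1 : ℝ) ≤ 2 ^ (n j) := one_le_pow₀ (by norm_num)
    nlinarith
  obtain ⟨F0, hF0⟩ : ∃ F0, F0 = 4 / v0 * (1 + Real.log T) ^ 3 := ⟨_, rfl⟩
  have hF1 : 1 ≤ F0 := by
    rw [hF0]
    have h1 : 1 ≤ 4 / v0 := by
      rw [le_div_iff₀ hv0]
      linarith
    have h2 : 1 ≤ (1 + Real.log T) ^ 3 := one_le_pow₀ (by linarith)
    nlinarith
  rw [← hF0]
  obtain ⟨D, hDdef⟩ : ∃ D, D = Function.update (fun i => DA e0 v0 T Q (n i) (n' i)) j {1} := ⟨_, rfl⟩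
  obtain ⟨f, hfdef⟩ : ∃ f, f = Function.update (fun i => fA e0 v0 T Q (n i) (n' i)) j (fun _ => 1) := ⟨_, rfl⟩
  obtain ⟨f', hf'def⟩ : ∃ f', f' = Function.update
    (fun i (B : ℕ) => fA e0 v0 T Q (n i) (n' i) B * ((B : ℝ) / (Nat.totient B : ℝ))) j
              (fun _ => 1) := ⟨_, rfl⟩
  rw [← hDdef, ← hfdef, ← hf'def]
  have hDj : D j = {1} := by rw [hDdef, Function.update_self]
  have hDi : ∀ i, i ≠ j → D i = DA e0 v0 T Q (n i) (n' i) := by
    intro i hi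
    rw [hDdef, Function.update_of_ne hi]
  have hfj : f j = fun _ => 1 := by rw [hfdef, Function.update_self]
  have hfi : ∀ i, i ≠ j → f i = fA e0 v0 T Q (n i) (n' i) := by
    intro i hi
    rw [hfdef, Function.update_of_ne hi]
  have hf'j : f' j = fun _ => 1 := by rw [hf'def, Function.update_self]
  have hf'i : ∀ i, i ≠ j → f' i = fun B : ℕ => fA e0 v0 T Q (n i) (n' i) B * ((B : ℝ) / (Nat.totient B : ℝ)) := by
    intro i hi
    rw [hf'def, Function.update_of_ne hi]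
  have hD : ∀ i, Good Q (D i) := by
    intro i
    by_cases hi : i = j
    · rw [hi, hDj]
      intro B hB
      rw [mem_singleton] at hB
      rw [hB]
      exact ⟨squarefree_one, Nat.coprime_one_left _⟩
    · rw [hDi i hi]
      exact good_lcD (E2b_sq _ _) (E2b_sq _ _)
  have hmtx := mtx ha (f := f) hD (rT T) g
  rw [hmtx]
  have hM : Mm D f' 1 = ∑ B ∈ (Fintype.piFinset D).filter
      (fun B => ∀ i j, i ≠ j → Nat.Coprime (B i) (B j)), ∏ i, f' i (B i) / (B i : ℝ) := by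
    unfold Mm
    refine Finset.sum_congr (Finset.filter_congr (fun B _ => ?_)) (fun _ _ => rfl)
    exact ⟨fun h => h.1, fun h => ⟨h, fun i => Nat.coprime_one_right _⟩⟩
  have hprodle : ∀ B ∈ Fintype.piFinset D, ((∏ i, B i : ℕ) : ℝ) ≤ T ^ (2 * e0) := by
    intro B hB
    rw [Fintype.mem_piFinset] at hB
    push_cast
    have h1 : ∀ i, (B i : ℝ) ≤ T ^ (e0 * vv v0 (n i) + e0 * vv v0 (n' i)) := by
      intro i
      by_cases hi : i = j
      · have h2 := hB i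
        rw [hi, hDj, mem_singleton] at h2
        rw [hi, h2, Nat.cast_one]
        exact Real.one_le_rpow hT (add_nonneg (mul_nonneg he0.le (hvp _).le) (mul_nonneg he0.le (hvp _).le))
      · have h2 := hB i
        rw [hDi i hi] at h2
        exact E2b_DA hT h2
    refine (prod_le_prod (fun i _ => Nat.cast_nonneg _) fun i _ => h1 i).trans ?_
    rw [← Real.rpow_sum_of_pos hT0]
    refine Real.rpow_le_rpow_of_exponent_le hT ?_
    rw [sum_add_distrib, ← mul_sum, ← mul_sum]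
    have := hs hn
    have := hs hn'
    nlinarith
  have hgood : ∀ B ∈ Fintype.piFinset D, ∀ i, 1 ≤ B i ∧ Nat.Coprime (B i) Q := by
    intro B hB i
    rw [Fintype.mem_piFinset] at hB
    have h1 := hD i (B i) (hB i)
    exact ⟨Nat.pos_of_ne_zero h1.1.ne_zero, h1.2⟩
  have hqc : ∀ B ∈ Fintype.piFinset D, Nat.Coprime (∏ i, B i) Q := by
    intro B hB
    exact Nat.Coprime.prod_left fun i _ => (hgood B hB i).2
  have hq1 : ∀ B ∈ Fintype.piFinset D, 1 ≤ ∏ i, B i := by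
    intro B hB
    refine Nat.pos_of_ne_zero (Finset.prod_ne_zero_iff.2 (fun i _ => ?_))
    have := (hgood B hB i).1
    omega
  have htup := tup (ι := ι) hD hX (𝒬 := E2b_S e0 T Q) (by
    intro B hB _
    unfold E2b_S
    rw [mem_filter, mem_Icc]
    exact ⟨⟨hq1 B hB, Nat.le_floor (hprodle B hB)⟩, hqc B hB⟩)
  refine le_trans ?_ (mul_le_mul_of_nonneg_left htup (by positivity))
  rw [hM, mul_sum, mul_sum, ← sum_sub_distrib]
  refine (abs_sum_le_sum_abs _ _).trans (sum_le_sum fun B hB => ?_)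
  rw [mem_filter] at hB
  obtain ⟨hBp, hBc⟩ := hB
  have hBD := hBp
  rw [Fintype.mem_piFinset] at hBD
  have hBj : B j = 1 := by
    have h1 := hBD j
    rw [hDj, mem_singleton] at h1
    exact h1
  obtain ⟨ρ, hρ⟩ := crtB ha (hgood B hBp) hBc
  have hfil : (rT T).filter (fun t => ∀ i, B i ∣ a i * t + b i) =
      (rT T).filter (fun t => t ≡ ρ [MOD ∏ i, B i]) :=
    Finset.filter_congr (fun t _ => hρ t)
  rw [hfil]
  have hco : Nat.Coprime (a j * ρ + b j) (a j * ∏ i, B i) := by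
    by_contra hcon
    rw [Nat.Prime.not_coprime_iff_dvd] at hcon
    obtain ⟨r, hr, h1, h2⟩ := hcon
    rcases hr.dvd_mul.1 h2 with h3 | h3
    · have h4 : r ∣ b j := (Nat.dvd_add_right (h3.mul_right ρ)).1 h1
      have h5 : r ∣ Nat.gcd (a j) (b j) := Nat.dvd_gcd h3 h4
      rw [Nat.Coprime.gcd_eq_one hab] at h5
      exact hr.one_lt.ne' (Nat.dvd_one.1 h5)
    · obtain ⟨i, _, h4⟩ := (Prime.dvd_finsetProd_iff hr.prime B).1 h3
      have hij : i ≠ j := by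
        rintro rfl
        rw [hBj] at h4
        exact hr.one_lt.ne' (Nat.dvd_one.1 h4)
      have h5 : r ∣ a i * ρ + b i := h4.trans ((hρ ρ).2 (Nat.ModEq.refl ρ) i)
      have h6 : (r : ℤ) ∣ (a i : ℤ) * b j - (a j : ℤ) * b i := by
        have e : (a i : ℤ) * b j - (a j : ℤ) * b i =
            (a i : ℤ) * ((a j : ℤ) * ρ + b j) - (a j : ℤ) * ((a i : ℤ) * ρ + b i) := by ring
        rw [e]
        have h7 : (r : ℤ) ∣ (a j : ℤ) * ρ + b j := by exact_mod_cast h1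
        have h8 : (r : ℤ) ∣ (a i : ℤ) * ρ + b i := by exact_mod_cast h5
        exact dvd_sub (h7.mul_left _) (h8.mul_left _)
      have h7 := ha.diff i j hij r hr h6
      have h8 : r ∣ Nat.gcd (B i) Q := Nat.dvd_gcd h4 h7
      rw [Nat.Coprime.gcd_eq_one (hgood B hBp i).2] at h8
      exact hr.one_lt.ne' (Nat.dvd_one.1 h8)
  have hmain := hg (∏ i, B i) (hq1 B hBp) (hprodle B hBp) (hqc B hBp) ρ hco
  have hf' : ∏ i, f' i (B i) / (B i : ℝ) = (∏ i, f i (B i)) / (Nat.totient (∏ i, B i) : ℝ) := by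
    rw [E2b_tot univ B hBc, Nat.cast_prod, ← prod_div_distrib]
    refine prod_congr rfl fun i _ => ?_
    by_cases hi : i = j
    · rw [hi, hf'j, hfj, hBj]
      simp
    · rw [hf'i i hi, hfi i hi]
      have h1 : (B i : ℝ) ≠ 0 := by
        have := (hgood B hBp i).1
        positivity
      field_simp
  rw [hf']
  have h3 : (∏ i, f i (B i)) * ∑ t ∈ (rT T).filter (fun t => t ≡ ρ [MOD ∏ i, B i]), g t -
      I * ((∏ i, f i (B i)) / (Nat.totient (∏ i, B i) : ℝ)) =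
      (∏ i, f i (B i)) * (∑ t ∈ (rT T).filter (fun t => t ≡ ρ [MOD ∏ i, B i]), g t -
        I / (Nat.totient (∏ i, B i) : ℝ)) := by ring
  rw [h3, abs_mul, Finset.abs_prod, ← mul_assoc]
  refine mul_le_mul ?_ hmain (abs_nonneg _) (by positivity)
  have h4 : ∀ i, |f i (B i)| ≤ F0 ^ 2 * 4 ^ (B i).primeFactors.card := by
    intro i
    by_cases hi : i = j
    · rw [hi, hfj, hBj]
      simp only [abs_one, Nat.primeFactors_one, card_empty, pow_zero, mul_one]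
      exact one_le_pow₀ hF1
    · rw [hfi i hi]
      obtain ⟨a1, _⟩ := la_abs he0 (by linarith) hv0 hT Q (n i) (hle hn i)
      obtain ⟨b1, _⟩ := la_abs he0 (by linarith) hv0 hT Q (n' i) (hle hn' i)
      rw [← hF0] at a1 b1
      have h5 := lcf_bd (E2b_sq Q (zz e0 v0 T (n i))) (E2b_sq Q (zz e0 v0 T (n' i))) a1 b1 (B i)
      unfold fA
      refine h5.trans (le_of_eq ?_)
      ring
  calc ∏ i, |f i (B i)| ≤ ∏ i, (F0 ^ 2 * 4 ^ (B i).primeFactors.card) :=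
        prod_le_prod (fun i _ => abs_nonneg _) fun i _ => h4 i
    _ = _ := by rw [prod_mul_distrib, prod_const, card_univ]

private theorem E2R_fin {v : ℝ} (hv : 0 < v) (K : ℕ) (A : ℝ) {M : ℝ} (hM : 0 ≤ M) {C : ℝ} (hC : 0 ≤ C) :
    ∀ᶠ T : ℝ in Filter.atTop,
    ((4 / v * (1 + Real.log T) ^ 3) ^ 2) ^ K *
      (M * (T / Real.log T ^ (|A| + 6 * K + 2)) + C * T ^ (1 / 2 : ℝ)) ≤ T / Real.log T ^ A := by
  obtain ⟨G, hG⟩ : ∃ G, G = ((32 / v) ^ 2) ^ K := ⟨_, rfl⟩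
  have hG0 : 0 < G := by rw [hG]; positivity
  have hlittle := (isLittleO_log_rpow_rpow_atTop (s := 1 / 2) (6 * (K : ℝ) + |A|) (by norm_num)).bound
    (show (0 : ℝ) < 1 / (2 * G * C + 1) by positivity)
  filter_upwards [hlittle, Filter.eventually_ge_atTop (Real.exp 1),
    Real.tendsto_log_atTop.eventually_ge_atTop (2 * G * M)] with T h1 h2 h3
  have hT0 : 0 < T := lt_of_lt_of_le (Real.exp_pos 1) h2
  have hL1 : 1 ≤ Real.log T := by rwa [Real.le_log_iff_exp_le hT0]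
  obtain ⟨L, hL⟩ : ∃ L, L = Real.log T := ⟨_, rfl⟩
  rw [← hL] at h1 h3 hL1 ⊢
  have hL0 : 0 < L := by linarith
  have hA0 := abs_nonneg A
  have hK0 : (0 : ℝ) ≤ K := Nat.cast_nonneg K
  have h4 : ((4 / v * (1 + L) ^ 3) ^ 2) ^ K ≤ G * L ^ (6 * K : ℝ) := by
    have h5 : 4 / v * (1 + L) ^ 3 ≤ 32 / v * L ^ 3 := by
      have h6 : (1 + L) ^ 3 ≤ (2 * L) ^ 3 := pow_le_pow_left₀ (by positivity) (by linarith) 3
      calc 4 / v * (1 + L) ^ 3 ≤ 4 / v * (2 * L) ^ 3 := mul_le_mul_of_nonneg_left h6 (by positivity)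
        _ = 32 / v * L ^ 3 := by ring
    calc ((4 / v * (1 + L) ^ 3) ^ 2) ^ K ≤ ((32 / v * L ^ 3) ^ 2) ^ K := by
          refine pow_le_pow_left₀ (by positivity) (pow_le_pow_left₀ (by positivity) h5 2) K
      _ = G * L ^ (6 * K : ℝ) := by
          rw [hG]
          have h7 : L ^ (6 * K : ℝ) = L ^ (6 * K) := by
            rw [← Real.rpow_natCast]
            push_cast
            rfl
          rw [h7, mul_pow, mul_pow, ← pow_mul, ← pow_mul, ← pow_mul]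
          congr 2
          ring
  have h6 : G * L ^ (6 * K : ℝ) * (M * (T / L ^ (|A| + 6 * K + 2))) ≤ 1 / 2 * (T / L ^ |A|) := by
    have e : L ^ (|A| + 6 * K + 2) = L ^ |A| * L ^ (6 * K : ℝ) * L ^ (2 : ℝ) := by
      rw [← Real.rpow_add hL0, ← Real.rpow_add hL0]
    have hLA : 0 < L ^ |A| := by positivity
    have hLK : 0 < L ^ (6 * K : ℝ) := by positivity
    rw [e, Real.rpow_two]
    have e2 : G * L ^ (6 * K : ℝ) * (M * (T / (L ^ |A| * L ^ (6 * K : ℝ) * L ^ 2))) = (G * M / L ^ 2) * (T / L ^ |A|) := by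
      field_simp
    rw [e2]
    refine mul_le_mul_of_nonneg_right ?_ (by positivity)
    rw [div_le_iff₀ (by positivity)]
    nlinarith
  have h7 : G * L ^ (6 * K : ℝ) * (C * T ^ (1 / 2 : ℝ)) ≤ 1 / 2 * (T / L ^ |A|) := by
    rw [Real.norm_of_nonneg (by positivity), Real.norm_of_nonneg (by positivity), one_div_mul_eq_div,
      le_div_iff₀ (by positivity), Real.rpow_add hL0] at h1
    have hLA : 0 < L ^ |A| := by positivity
    have hTT : T = T ^ (1 / 2 : ℝ) * T ^ (1 / 2 : ℝ) := by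
      rw [← Real.rpow_add hT0]
      norm_num
    obtain ⟨u, hu⟩ : ∃ u, u = T ^ (1 / 2 : ℝ) := ⟨_, rfl⟩
    have hu0 : 0 < u := by rw [hu]; positivity
    have hLK : 0 < L ^ (6 * K : ℝ) := by positivity
    rw [← hu] at h1 hTT ⊢
    have h8 : 2 * G * C * (L ^ (6 * K : ℝ) * L ^ |A|) ≤ u := by nlinarith
    rw [mul_div_assoc', le_div_iff₀ hLA]
    calc G * L ^ (6 * K : ℝ) * (C * u) * L ^ |A| = 1 / 2 * (2 * G * C * (L ^ (6 * K : ℝ) * L ^ |A|)) * u := by ring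
      _ ≤ 1 / 2 * u * u := by
          refine mul_le_mul_of_nonneg_right (mul_le_mul_of_nonneg_left h8 (by norm_num)) hu0.le
      _ = 1 / 2 * T := by rw [hTT]; ring
  have h8 : T / L ^ |A| ≤ T / L ^ A := by
    refine div_le_div_of_nonneg_left hT0.le (by positivity) ?_
    exact Real.rpow_le_rpow_of_exponent_le hL1 (le_abs_self A)
  have hnn : 0 ≤ M * (T / L ^ (|A| + 6 * K + 2)) + C * T ^ (1 / 2 : ℝ) := by
    positivity
  calc ((4 / v * (1 + L) ^ 3) ^ 2) ^ K *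
      (M * (T / L ^ (|A| + 6 * K + 2)) + C * T ^ (1 / 2 : ℝ))
      ≤ G * L ^ (6 * K : ℝ) * (M * (T / L ^ (|A| + 6 * K + 2)) + C * T ^ (1 / 2 : ℝ)) :=
        mul_le_mul_of_nonneg_right h4 hnn
    _ = G * L ^ (6 * K : ℝ) * (M * (T / L ^ (|A| + 6 * K + 2))) + G * L ^ (6 * K : ℝ) * (C * T ^ (1 / 2 : ℝ)) := by
        ring
    _ ≤ T / L ^ |A| := by linarith
    _ ≤ T / L ^ A := h8

theorem e2r {φ : ℝ → ℝ} (hφ : Wt (1 / 2) φ) {e0 v0 : ℝ} (he0 : 0 < e0) (he1 : e0 ≤ 1 / 16) (hv0 : 0 < v0) (m K B : ℕ) (A : ℝ) :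
    ∃ T0 : ℝ, ∀ T, T0 ≤ T → ∀ (ι : Type) [Fintype ι] [DecidableEq ι], Fintype.card ι = K → ∀ (Q : ℕ) (a b : ι → ℕ), Forms Q a b →
      (∀ i, (a i : ℝ) ≤ Real.log T ^ B) → (∀ i, (b i : ℝ) ≤ Real.log T ^ B) → ∀ j : ι, Nat.Coprime (a j) (b j) →
      ∀ n ∈ AS ι v0 m, ∀ n' ∈ AS ι v0 m,
        |∑ t ∈ rT T, φ ((t : ℝ) / T) * (if (a j * t + b j).Prime then Real.log ((a j * t + b j : ℕ) : ℝ) else 0) *
            ∏ i, Fn (Function.update (fun i => DA e0 v0 T Q (n i) (n' i)) j {1} i)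
              (Function.update (fun i => fA e0 v0 T Q (n i) (n' i)) j (fun _ => 1) i) (a i * t + b i) -
          T * (∫ x, φ x) * ((a j : ℝ) / (Nat.totient (a j) : ℝ)) *
            Mm (Function.update (fun i => DA e0 v0 T Q (n i) (n' i)) j {1})
              (Function.update (fun i B => fA e0 v0 T Q (n i) (n' i) B * ((B : ℝ) / (Nat.totient B : ℝ))) j
                (fun _ => 1)) 1| ≤ T / Real.log T ^ A := by
  obtain ⟨V, hV0, hV⟩ := thW hφ
  obtain ⟨N0, hN0⟩ := BVL.bv_theta (ε := 1 / 8) (by norm_num) (|A| + 6 * (K : ℝ) + 2 + B)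
    ((2 : ℝ) ^ (K + 2))
  have hc1 : (1 : ℝ) ≤ 2 ^ (K + 2) := one_le_pow₀ (by norm_num)
  obtain ⟨C2, hC2, hsum⟩ := E2b_sum hc1
  have hevB : ∀ᶠ T : ℝ in Filter.atTop, Real.log T ^ B ≤ T ^ (1 / 8 : ℝ) := by
    have h := (isLittleO_log_rpow_rpow_atTop (s := 1 / 8) (B : ℝ) (by norm_num)).bound one_pos
    filter_upwards [h, Filter.eventually_ge_atTop 1] with T h1 h2
    have hl := Real.log_nonneg h2
    rw [one_mul, Real.rpow_natCast, Real.norm_of_nonneg (by positivity), Real.norm_of_nonneg (by positivity)] at h1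
    exact h1
  have hev := (E2R_fin hv0 K A (show 0 ≤ 4 * V by positivity) (show 0 ≤ V * C2 by positivity)).and
    ((Filter.eventually_ge_atTop (Real.exp 1)).and ((Filter.eventually_ge_atTop (N0 : ℝ)).and hevB))
  obtain ⟨T0, hT0⟩ := Filter.eventually_atTop.1 hev
  refine ⟨T0, fun T hT ι _ _ hK Q a b ha haB hbB j hab n hn n' hn' => ?_⟩
  obtain ⟨h1, h2, h3, h4⟩ := hT0 T hT
  have hT0' : 0 < T := lt_of_lt_of_le (Real.exp_pos 1) h2
  have hT1 : 1 ≤ T := le_trans (Real.one_le_exp zero_le_one) h2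
  have hL1 : 1 ≤ Real.log T := by rwa [Real.le_log_iff_exp_le hT0']
  have haj1 : 1 ≤ a j := ha.pos j
  have haj1' : (1 : ℝ) ≤ a j := by exact_mod_cast haj1
  have haT : T ≤ a j * T := by nlinarith
  have hLB : Real.log T ^ B ≤ T :=
    h4.trans ((Real.rpow_le_rpow_of_exponent_le hT1 (by norm_num)).trans (le_of_eq (Real.rpow_one T)))
  obtain ⟨N, hNdef⟩ : ∃ N : ℕ, N = ⌈3 * (a j * T)⌉₊ := ⟨_, rfl⟩
  have hN1 : 3 * (a j * T) ≤ N := by rw [hNdef]; exact Nat.le_ceil _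
  have hN2 : (N : ℝ) ≤ 4 * (a j * T) := by
    rw [hNdef]
    have := Nat.ceil_lt_add_one (show 0 ≤ 3 * (a j * T) by positivity)
    linarith
  have hNT : T ≤ N := by linarith
  have hNN0 : N0 ≤ N := by
    have : (N0 : ℝ) ≤ N := h3.trans hNT
    exact_mod_cast this
  obtain ⟨E, hE0, hE1, hE2⟩ := hN0 N hNN0
  rw [abs_of_nonneg (show (0 : ℝ) ≤ 2 ^ (K + 2) by positivity)] at hE2
  have hbj : 2 * (a j * T) + b j ≤ N := by
    have := hbB j
    linarith
  have hsmall : ∀ q : ℕ, (q : ℝ) ≤ T ^ (2 * e0) → ((a j * q : ℕ) : ℝ) ≤ (N : ℝ) ^ (1 / 2 - 1 / 8 : ℝ) := by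
    intro q hq
    push_cast
    have h6 : (a j : ℝ) ≤ T ^ (1 / 8 : ℝ) := (haB j).trans h4
    have h7 : (q : ℝ) ≤ T ^ (1 / 8 : ℝ) :=
      hq.trans (Real.rpow_le_rpow_of_exponent_le hT1 (by linarith))
    calc (a j : ℝ) * q ≤ T ^ (1 / 8 : ℝ) * T ^ (1 / 8 : ℝ) :=
          mul_le_mul h6 h7 (Nat.cast_nonneg _) (by positivity)
      _ = T ^ (1 / 4 : ℝ) := by
          rw [← Real.rpow_add hT0']
          norm_num
      _ ≤ T ^ (1 / 2 - 1 / 8 : ℝ) := Real.rpow_le_rpow_of_exponent_le hT1 (by norm_num)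
      _ ≤ (N : ℝ) ^ (1 / 2 - 1 / 8 : ℝ) :=
          Real.rpow_le_rpow hT0'.le hNT (by norm_num)
  have hcop : ∀ q : ℕ, Nat.Coprime q Q → Nat.Coprime (a j) q := by
    intro q hq
    by_contra hcon
    rw [Nat.Prime.not_coprime_iff_dvd] at hcon
    obtain ⟨r, hr, h5, h6⟩ := hcon
    have h7 : r ∣ Nat.gcd q Q := Nat.dvd_gcd h6 (ha.prime j r hr h5)
    rw [Nat.Coprime.gcd_eq_one hq] at h7
    exact hr.one_lt.ne' (Nat.dvd_one.1 h7)
  have hcore := E2R_core he0 (by linarith) hv0 m ha (I := T * (∫ x, φ x) * ((a j : ℝ) / (Nat.totient (a j) : ℝ)))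
    hT1 hn hn' j hab (fun t => φ ((t : ℝ) / T) * (if (a j * t + b j).Prime then Real.log ((a j * t + b j : ℕ) : ℝ) else 0))
    (fun q => V * (E (a j * q) + 1)) (fun q => mul_nonneg hV0 (add_nonneg (hE0 _) zero_le_one)) (by
      intro q hq1 hq2 hq3 ρ hρ
      have h6 := hV T hT1 (a j) (b j) q ρ N haj1 hq1 hbj (E (a j * q)) (hE0 _)
        (fun y hy => hE1 (a j * q) (Nat.mul_pos haj1 hq1) (hsmall q hq2) _ hρ y hy)
      have h7 : (Nat.totient (a j * q) : ℝ) = Nat.totient (a j) * Nat.totient q := by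
        rw [Nat.totient_mul (hcop q hq3)]
        push_cast
        rfl
      rw [h7] at h6
      have h8 : a j * T * (∫ x, φ x) / ((Nat.totient (a j) : ℝ) * Nat.totient q) =
          T * (∫ x, φ x) * ((a j : ℝ) / (Nat.totient (a j) : ℝ)) / (Nat.totient q : ℝ) := by
        rw [← div_div]
        ring
      rw [h8] at h6
      exact h6)
  refine hcore.trans (le_trans ?_ h1)
  rw [hK]
  refine mul_le_mul_of_nonneg_left ?_ (by positivity)
  have hS : ∀ q ∈ E2b_S e0 T Q, (1 ≤ q ∧ (q : ℝ) ≤ T ^ (2 * e0)) ∧ Nat.Coprime q Q := by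
    intro q hq
    unfold E2b_S at hq
    rw [mem_filter, mem_Icc] at hq
    exact ⟨⟨hq.1.1, (Nat.cast_le.2 hq.1.2).trans (Nat.floor_le (by positivity))⟩, hq.2⟩
  have hsplit : ∑ q ∈ E2b_S e0 T Q, ((2 : ℝ) ^ (K + 2)) ^ q.primeFactors.card * (V * (E (a j * q) + 1)) =
      V * ∑ q ∈ E2b_S e0 T Q, ((2 : ℝ) ^ (K + 2)) ^ q.primeFactors.card * E (a j * q) +
      V * ∑ q ∈ E2b_S e0 T Q, ((2 : ℝ) ^ (K + 2)) ^ q.primeFactors.card := by
    rw [mul_sum, mul_sum, ← sum_add_distrib]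
    refine sum_congr rfl fun q _ => ?_
    ring
  have hbig : (N : ℝ) / Real.log N ^ (|A| + 6 * (K : ℝ) + 2 + B) ≤
      4 * (T / Real.log T ^ (|A| + 6 * (K : ℝ) + 2)) := by
    have hL0 : 0 < Real.log T := by linarith
    have e1 : Real.log T ^ (|A| + 6 * (K : ℝ) + 2 + B) =
        Real.log T ^ (|A| + 6 * (K : ℝ) + 2) * Real.log T ^ B := by
      rw [Real.rpow_add hL0, Real.rpow_natCast]
    have hlog : Real.log T ≤ Real.log N := Real.log_le_log hT0' hNT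
    have h5 : Real.log T ^ (|A| + 6 * (K : ℝ) + 2 + B) ≤ Real.log N ^ (|A| + 6 * (K : ℝ) + 2 + B) :=
      Real.rpow_le_rpow hL0.le hlog (by positivity)
    have h6 : (N : ℝ) ≤ 4 * (Real.log T ^ B * T) := by
      have := haB j
      nlinarith
    have h7 : 0 < Real.log T ^ (|A| + 6 * (K : ℝ) + 2) := by positivity
    have h8 : 0 < Real.log T ^ B := by positivity
    calc (N : ℝ) / Real.log N ^ (|A| + 6 * (K : ℝ) + 2 + B)
        ≤ 4 * (Real.log T ^ B * T) / Real.log T ^ (|A| + 6 * (K : ℝ) + 2 + B) :=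
          div_le_div₀ (by positivity) h6 (by positivity) h5
      _ = 4 * (T / Real.log T ^ (|A| + 6 * (K : ℝ) + 2)) := by
          rw [e1]
          field_simp
  rw [hsplit]
  refine add_le_add ?_ ?_
  · rw [mul_comm 4 V, mul_assoc]
    refine mul_le_mul_of_nonneg_left ?_ hV0
    refine le_trans ?_ hbig
    refine le_trans ?_ hE2
    calc ∑ q ∈ E2b_S e0 T Q, ((2 : ℝ) ^ (K + 2)) ^ q.primeFactors.card * E (a j * q)
        ≤ ∑ q ∈ E2b_S e0 T Q, ((2 : ℝ) ^ (K + 2)) ^ (a j * q).primeFactors.card * E (a j * q) := by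
          refine sum_le_sum fun q hq => mul_le_mul_of_nonneg_right ?_ (hE0 _)
          refine pow_le_pow_right₀ hc1 (card_le_card (Nat.primeFactors_mono (Dvd.intro_left _ rfl) ?_))
          have h6 := Nat.mul_pos haj1 (hS q hq).1.1
          omega
      _ = ∑ q ∈ (E2b_S e0 T Q).image (fun q => a j * q),
            ((2 : ℝ) ^ (K + 2)) ^ q.primeFactors.card * E q := by
          rw [sum_image]
          intro x _ y _ hxy
          exact Nat.eq_of_mul_eq_mul_left haj1 hxy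
      _ ≤ _ := by
          refine sum_le_sum_of_subset_of_nonneg ?_ (fun q _ _ => mul_nonneg (by positivity) (hE0 q))
          intro q' hq'
          rw [mem_image] at hq'
          obtain ⟨q, hq, rfl⟩ := hq'
          obtain ⟨⟨h6, h7⟩, h8⟩ := hS q hq
          rw [mem_Icc]
          exact ⟨Nat.mul_pos haj1 h6, Nat.le_floor (hsmall q h7)⟩
  · rw [mul_assoc]
    refine mul_le_mul_of_nonneg_left ?_ hV0
    refine (hsum (T ^ (2 * e0)) (Real.one_le_rpow hT1 (by linarith)) _ (fun q hq => (hS q hq).1)).trans ?_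
    refine mul_le_mul_of_nonneg_left ?_ (by linarith)
    rw [← Real.rpow_natCast, ← Real.rpow_mul hT0'.le]
    refine Real.rpow_le_rpow_of_exponent_le hT1 ?_
    push_cast
    linarith

end Pool.Agent.H39.MT
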