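/-
ROW E4. Numbers with a small prime factor carry little of the weight. (Compare `Pool/Agent/H6/EG/E3p.lean`, `ETr.lean`.)
PROOF. Constants: `C1` from `atA he0 hv0 m` (with `ε = 1`: `Good`, `Ctrl 10 (C1 u) 1` for `n, n' ≤ m`, `T ≥ T1`), `C0` from `atP`, `C'` from `s3 K 10`, `C2` from `mtt hφ`; `u = uu e0 T Q`.
Fix a prime `p ≤ T^δ`, `p ∤ Q`. As in `sqJ` with `J = ∅`: `∑_{t ∈ rT T} φ(t/T) sM(t)^2 [p ∣ L_j(t)] = ∑_{n,n' ∈ AS} ∑_t φ(t/T) ∏_i Fn (D i) (f i) (L_i t)`, `D i = DA (n i) (n' i)`, `f i = fA ..` for `i ≠ j` and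
`D j = DAp .. p`, `f j = fAp .. p` (`fn_mul` with `{p}`: `Fn (DA) (fA) x * [p ∣ x] = Fn (DAp) (fAp) x`). By `mtt` each inner sum is at most `T (∫φ) |Mm D f 1| + C2 ∏_i ∑ |f i|`.
(1) `s3 K 10` (this `p`, `j0 = j`; `Wide w Q`, `C' ≤ w`; `w < p` because all primes `≤ w` divide `Q`) with `a i = C1 u` (`i ≠ j`), `a j = A_p := C0 ((φ(Q)/Q) log p + EQ Q)/p`: `|Mm - ∏ SS_i(1)| ≤ (C'/√w) ∏ a_i`, and `|SS_i(1)| ≤ a_i` (`Ctrl` at `b = 1`), so
`|Mm| ≤ 2 ∏ a_i = 2 (C1 u)^(K-1) A_p` if `w ≥ C'^2`.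
(2) `∑_{p ≤ N} (log p)/p ≤ C3 (1 + log N)` and `∑_{p ≤ N} 1/p ≤ C3 (1 + √(log N))` (`N ≥ 1`; see the header of E3p: from `∑_{n ≤ x} Λ(n) ⌊x/n⌋ = log ⌊x⌋!` and `ψ(x) ≤ 6 x`). With `N = T^δ`: `∑_p A_p ≤ C0 C3 ((φ(Q)/Q)(1 + δ log T) + EQ Q (1 + √(log T)))
≤ C0 C3 (1 + (δ/e0) u + δ u)` (`δ ≤ 1`, `eqs` with `ε = δ`), and `1 ≤ δ u` (`eqs`). So the main terms sum to `≤ (m+1)^(2K) 2 T (C1 u)^(K-1) C0 C3 (2 + 1/e0) δ u`.
(3) the remainders: `∏_i ∑ |f i| ≤ (4/v0 (1 + log T)^3)^(2K) T^(2 e0)` as in `absJ` (`∑ |fAp| ≤ ∑ |fA|` by `lcf_abs`), for each of the `≤ T^δ` primes; `δ + 2 e0 ≤ 1/4`: total `≤ T^(1/2) ≤ δ T u^K` for large `T` (`u ≥ 1`).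
-/
import Pool.Agent.H39.MT.AtP
import Pool.Agent.H6.EG.S3
import Pool.Agent.H6.EG.SqJ
import Pool.Agent.H6.EG.AbsJ
import Pool.Agent.H6.EG.Mtt

set_option autoImplicit false

namespace Pool.Agent.H39.MT

open EG Finset

theorem E4_mertens {n : ℕ} (hn : 1 ≤ n) :
    ∑ p ∈ (Icc 1 n).filter (fun p : ℕ => p.Prime), Real.log p / p ≤ Real.log n + 2 := by
  have hn0 : (0 : ℝ) < n := by exact_mod_cast hn
  have hfac : ∀ p ∈ (Icc 1 n).filter (fun p : ℕ => p.Prime), ((n : ℝ) / p - 1) * Real.log p ≤ ((n.factorial).factorization p : ℝ) * Real.log p := by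
    intro p hp
    have hpp : p.Prime := (mem_filter.1 hp).2
    have hp1 : (1 : ℝ) ≤ p := by exact_mod_cast hpp.one_lt.le
    apply mul_le_mul_of_nonneg_right _ (Real.log_nonneg hp1)
    have h1 : n / p ≤ (n.factorial).factorization p := by
      rw [Nat.factorization_factorial hpp (b := Nat.log p n + 2) (by omega)]
      have := Finset.single_le_sum (f := fun i => n / p ^ i) (s := Ico 1 (Nat.log p n + 2))
        (fun i _ => Nat.zero_le _) (a := 1) (by simp)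
      simpa using this
    have h2 : (n : ℝ) / p - 1 ≤ ((n / p : ℕ) : ℝ) := by
      have := Nat.lt_succ_floor ((n : ℝ) / p)
      rw [Nat.floor_div_eq_div] at this
      push_cast at this
      linarith
    exact h2.trans (by exact_mod_cast h1)
  have hlog : Real.log (n.factorial : ℕ) = ∑ p ∈ (Icc 1 n).filter (fun p : ℕ => p.Prime), ((n.factorial).factorization p : ℝ) * Real.log p := by
    rw [Real.log_nat_eq_sum_factorization, Finsupp.sum]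
    apply Finset.sum_subset
    · intro p hp
      rw [Nat.support_factorization, Nat.mem_primeFactors] at hp
      rw [mem_filter, mem_Icc]
      have := (Nat.Prime.dvd_factorial hp.1).mp hp.2.1
      exact ⟨⟨hp.1.one_lt.le, this⟩, hp.1⟩
    · intro p _ hp
      rw [Finsupp.notMem_support_iff.mp hp]; simp
  have hle : Real.log (n.factorial : ℕ) ≤ n * Real.log n := by
    have h1 : ((n.factorial : ℕ) : ℝ) ≤ (n : ℝ) ^ n := by exact_mod_cast Nat.factorial_le_pow n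
    have h2 := Real.log_le_log (by exact_mod_cast Nat.factorial_pos n) h1
    rwa [Real.log_pow] at h2
  have hsum := Finset.sum_le_sum hfac
  rw [← hlog] at hsum
  have htheta : ∑ p ∈ (Icc 1 n).filter (fun p : ℕ => p.Prime), Real.log p ≤ Real.log 4 * n := by
    have h1 := Chebyshev.theta_le_log4_mul_x (x := n) hn0.le
    refine le_trans (le_of_eq ?_) h1
    rw [Chebyshev.theta_eq_sum_primesLE_log]
    apply Finset.sum_congr _ (fun _ _ => rfl)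
    ext p
    simp only [mem_filter, mem_Icc, Nat.mem_primesLE]
    constructor
    · rintro ⟨⟨_, h2⟩, h3⟩
      exact ⟨h2, h3⟩
    · rintro ⟨h2, h3⟩
      exact ⟨⟨h3.one_lt.le, h2⟩, h3⟩
  have h5 : ∑ p ∈ (Icc 1 n).filter (fun p : ℕ => p.Prime), ((n : ℝ) / p - 1) * Real.log p
      = n * ∑ p ∈ (Icc 1 n).filter (fun p : ℕ => p.Prime), Real.log p / p - ∑ p ∈ (Icc 1 n).filter (fun p : ℕ => p.Prime), Real.log p := by
    rw [Finset.mul_sum, ← Finset.sum_sub_distrib]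
    refine Finset.sum_congr rfl fun p _ => ?_
    ring
  rw [h5] at hsum
  have hlog4 : Real.log 4 ≤ 2 := by
    have h1 : Real.log 4 = 2 * Real.log 2 := by
      rw [show (4 : ℝ) = 2 ^ 2 by norm_num, Real.log_pow]; push_cast; ring
    have := Real.log_two_lt_d9
    rw [h1]; linarith
  have h6 : n * ∑ p ∈ (Icc 1 n).filter (fun p : ℕ => p.Prime), Real.log p / p ≤ n * (Real.log n + 2) := by
    nlinarith
  exact le_of_mul_le_mul_left h6 hn0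

theorem E4_inv {n : ℕ} (hn : 1 ≤ n) :
    ∑ p ∈ (Icc 1 n).filter (fun p : ℕ => p.Prime), 1 / (p : ℝ) ≤ 4 * (1 + Real.sqrt (Real.log n)) := by
  have hL : 0 ≤ Real.log n := Real.log_nonneg (by exact_mod_cast hn)
  obtain ⟨q, hq0, hq⟩ : ∃ q : ℝ, 0 ≤ q ∧ q ^ 2 = Real.log n := ⟨_, Real.sqrt_nonneg _, Real.sq_sqrt hL⟩
  have hq' : Real.sqrt (Real.log n) = q := by rw [← hq, Real.sqrt_sq hq0]
  rw [hq']
  have hM := E4_mertens hn
  rw [← hq] at hM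
  obtain ⟨s, hs⟩ : ∃ s : ℝ, s = 1 + q := ⟨_, rfl⟩
  have hs1 : 1 ≤ s := by linarith
  have hs0 : 0 < s := by linarith
  have hE1 : 1 ≤ ⌊Real.exp s⌋₊ := Nat.le_floor (by
    rw [Nat.cast_one]
    exact Real.one_le_exp hs0.le)
  have hterm : ∀ p ∈ (Icc 1 n).filter (fun p : ℕ => p.Prime), 1 / (p : ℝ) ≤
      s⁻¹ * (Real.log p / p) + (if p ≤ ⌊Real.exp s⌋₊ then 1 / (p : ℝ) else 0) := by
    intro p hp
    have hpp : p.Prime := (mem_filter.1 hp).2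
    have hp1 : (1 : ℝ) ≤ p := by exact_mod_cast hpp.one_lt.le
    have hp0 : (0 : ℝ) < p := by linarith
    have hlp : 0 ≤ Real.log p := Real.log_nonneg hp1
    split_ifs with h
    · have : 0 ≤ s⁻¹ * (Real.log p / p) := by positivity
      linarith
    · rw [add_zero]
      have h1 : Real.exp s < p := (Nat.floor_lt (Real.exp_pos s).le).1 (not_le.1 h)
      have h2 : s ≤ Real.log p := by
        rw [Real.le_log_iff_exp_le hp0]
        exact h1.le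
      rw [inv_mul_eq_div, div_div, div_le_div_iff₀ hp0 (by positivity)]
      nlinarith
  refine (Finset.sum_le_sum hterm).trans ?_
  rw [Finset.sum_add_distrib, ← Finset.mul_sum]
  have h1 : ∑ p ∈ (Icc 1 n).filter (fun p : ℕ => p.Prime), (if p ≤ ⌊Real.exp s⌋₊ then 1 / (p : ℝ) else 0) ≤ 1 + s := by
    rw [← Finset.sum_filter]
    have h2 : ∑ p ∈ ((Icc 1 n).filter (fun p : ℕ => p.Prime)).filter (fun p => p ≤ ⌊Real.exp s⌋₊), 1 / (p : ℝ) ≤
        ∑ p ∈ Icc 1 ⌊Real.exp s⌋₊, 1 / (p : ℝ) := by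
      refine Finset.sum_le_sum_of_subset_of_nonneg ?_ (fun _ _ _ => by positivity)
      intro p hp
      simp only [mem_filter, mem_Icc] at hp ⊢
      exact ⟨hp.1.1.1, hp.2⟩
    refine h2.trans ?_
    have h3 := harmonic_le_one_add_log ⌊Real.exp s⌋₊
    rw [harmonic_eq_sum_Icc] at h3
    push_cast at h3
    have h4 : Real.log (⌊Real.exp s⌋₊ : ℝ) ≤ s := by
      have h5 : (0 : ℝ) < ⌊Real.exp s⌋₊ := by exact_mod_cast hE1
      have h6 := Real.log_le_log h5 (Nat.floor_le (Real.exp_pos s).le)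
      rwa [Real.log_exp] at h6
    simp only [one_div]
    linarith
  have h2 : s⁻¹ * ∑ p ∈ (Icc 1 n).filter (fun p : ℕ => p.Prime), Real.log p / p ≤ q + 2 := by
    rw [inv_mul_le_iff₀ hs0]
    refine hM.trans ?_
    rw [hs]
    nlinarith
  linarith

theorem E4_log (M : ℝ) (N : ℕ) {κ : ℝ} (hκ : 0 < κ) {ε : ℝ} (hε : 0 < ε) :
    ∃ T1 : ℝ, 1 ≤ T1 ∧ ∀ T, T1 ≤ T → M * (1 + Real.log T) ^ N * T ^ (1 - κ) ≤ ε * T := by
  have h1 := isLittleO_log_rpow_rpow_atTop (N : ℝ) hκ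
  have hc : 0 < ε / ((|M| + 1) * 2 ^ N) := by positivity
  have h2 := (h1.def hc).and (Filter.eventually_ge_atTop (Real.exp 1))
  obtain ⟨T1, hT1⟩ := Filter.eventually_atTop.1 h2
  refine ⟨max T1 1, le_max_right _ _, ?_⟩
  intro T hT
  obtain ⟨h3, h4⟩ := hT1 T ((le_max_left _ _).trans hT)
  have hT0 : 0 < T := (Real.exp_pos 1).trans_le h4
  have hL : 1 ≤ Real.log T := by
    rw [Real.le_log_iff_exp_le hT0]; exact h4
  rw [Real.rpow_natCast, Real.norm_of_nonneg (by positivity), Real.norm_of_nonneg (by positivity)] at h3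
  have h5 : (1 + Real.log T) ^ N ≤ 2 ^ N * Real.log T ^ N := by
    rw [← mul_pow]
    exact pow_le_pow_left₀ (by linarith) (by linarith) N
  have h6 : T ^ (1 - κ) = T / T ^ κ := by
    rw [Real.rpow_sub hT0, Real.rpow_one]
  have hTk : 0 < T ^ κ := Real.rpow_pos_of_pos hT0 _
  rw [h6, mul_div_assoc', div_le_iff₀ hTk]
  have h7 : M * (1 + Real.log T) ^ N ≤ (|M| + 1) * (2 ^ N * Real.log T ^ N) := by
    have h8 : M ≤ |M| + 1 := (le_abs_self M).trans (by linarith)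
    exact mul_le_mul h8 h5 (by positivity) (by positivity)
  have h9 : (|M| + 1) * (2 ^ N * Real.log T ^ N) ≤ ε * T ^ κ := by
    have h10 := mul_le_mul_of_nonneg_left h3 (by positivity : 0 ≤ (|M| + 1) * 2 ^ N)
    have h11 : (|M| + 1) * 2 ^ N * (ε / ((|M| + 1) * 2 ^ N) * T ^ κ) = ε * T ^ κ := by
      field_simp
    rw [h11] at h10
    linarith
  calc M * (1 + Real.log T) ^ N * T ≤ (ε * T ^ κ) * T :=
        mul_le_mul_of_nonneg_right (h7.trans h9) hT0.le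
    _ = ε * T * T ^ κ := by ring

theorem E4_card (ι : Type) [Fintype ι] [DecidableEq ι] {K : ℕ} (hι : Fintype.card ι = K) (v0 : ℝ)
    (m : ℕ) : ((AS ι v0 m).card : ℝ) ≤ ((m : ℝ) + 1) ^ K := by
  have h1 : (AS ι v0 m).card ≤ (m + 1) ^ K := by
    unfold AS
    refine (Finset.card_filter_le _ _).trans ?_
    rw [Fintype.card_piFinset]
    simp [hι]
  exact_mod_cast h1

theorem E4_le {ι : Type} [Fintype ι] [DecidableEq ι] {v0 : ℝ} {m : ℕ} {n : ι → ℕ}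
    (hn : n ∈ AS ι v0 m) (i : ι) : n i ≤ m := by
  unfold AS at hn
  have h1 := Fintype.mem_piFinset.1 (Finset.mem_filter.1 hn).1 i
  have := Finset.mem_range.1 h1
  omega

/-- the supports -/
noncomputable def E4_D {ι : Type} [DecidableEq ι] (e0 v0 T : ℝ) (Q p : ℕ) (j : ι) (n n' : ι → ℕ) (i : ι) : Finset ℕ :=
  if i = j then DAp e0 v0 T Q (n i) (n' i) p else DA e0 v0 T Q (n i) (n' i)

/-- the coefficients -/
noncomputable def E4_f {ι : Type} [DecidableEq ι] (e0 v0 T : ℝ) (Q p : ℕ) (j : ι) (n n' : ι → ℕ) (i : ι) : ℕ → ℝ :=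
  if i = j then fAp e0 v0 T Q (n i) (n' i) p else fA e0 v0 T Q (n i) (n' i)

theorem E4_exp {ι : Type} [Fintype ι] [DecidableEq ι] (e0 v0 T : ℝ) (m Q p : ℕ) (a b : ι → ℕ) (j : ι) (S : Finset ℕ) (g : ℕ → ℝ) :
    ∑ t ∈ S.filter (fun t => p ∣ a j * t + b j), g t * sM e0 v0 T m Q a b ∅ t ^ 2 =
      ∑ n ∈ AS ι v0 m, ∑ n' ∈ AS ι v0 m, ∑ t ∈ S, g t *
        ∏ i, Fn (E4_D e0 v0 T Q p j n n' i) (E4_f e0 v0 T Q p j n n' i) (a i * t + b i) := by
  have hF : ∀ x : ℕ, Fn {p} (fun _ => 1) x = if p ∣ x then 1 else 0 := by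
    intro x
    unfold Fn
    rw [Finset.sum_filter, Finset.sum_singleton]
  have key : ∀ t, (if p ∣ a j * t + b j then sM e0 v0 T m Q a b ∅ t ^ 2 else 0) =
      ∑ n ∈ AS ι v0 m, ∑ n' ∈ AS ι v0 m,
        ∏ i, Fn (E4_D e0 v0 T Q p j n n' i) (E4_f e0 v0 T Q p j n n' i) (a i * t + b i) := by
    intro t
    have h1 : (if p ∣ a j * t + b j then sM e0 v0 T m Q a b ∅ t ^ 2 else 0) =
        sM e0 v0 T m Q a b ∅ t ^ 2 * ∏ i, (if i = j then Fn {p} (fun _ => 1) (a i * t + b i) else 1) := by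
      rw [Finset.prod_ite_eq', if_pos (Finset.mem_univ j), hF, mul_ite, mul_one, mul_zero]
    rw [h1, pow_two]
    unfold sM
    rw [Finset.sum_mul_sum, Finset.sum_mul]
    refine Finset.sum_congr rfl fun n _ => ?_
    rw [Finset.sum_mul]
    refine Finset.sum_congr rfl fun n' _ => ?_
    rw [← Finset.prod_mul_distrib, ← Finset.prod_mul_distrib]
    refine Finset.prod_congr rfl fun i _ => ?_
    unfold E4_D E4_f
    by_cases hi : i = j
    · simp only [Finset.notMem_empty, if_false, if_pos hi]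
      rw [fn_mul, fn_mul]
      rfl
    · simp only [Finset.notMem_empty, if_false, if_neg hi, mul_one]
      rw [fn_mul]
      rfl
  rw [Finset.sum_filter]
  have h2 : ∀ t ∈ S, (if p ∣ a j * t + b j then g t * sM e0 v0 T m Q a b ∅ t ^ 2 else 0) =
      g t * ∑ n ∈ AS ι v0 m, ∑ n' ∈ AS ι v0 m,
        ∏ i, Fn (E4_D e0 v0 T Q p j n n' i) (E4_f e0 v0 T Q p j n n' i) (a i * t + b i) := by
    intro t _
    rw [← key t, mul_ite, mul_zero]
  rw [Finset.sum_congr rfl h2]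
  simp only [Finset.mul_sum]
  rw [Finset.sum_comm]
  refine Finset.sum_congr rfl fun n _ => ?_
  rw [Finset.sum_comm]

theorem E4_prod {ι : Type} [Fintype ι] [DecidableEq ι] {K : ℕ} (hι : Fintype.card ι = K) (j : ι) (A B : ℝ) :
    ∏ i, (if i = j then A else B) = A * B ^ (K - 1) := by
  rw [← Finset.mul_prod_erase Finset.univ _ (Finset.mem_univ j), if_pos rfl]
  congr 1
  rw [Finset.prod_congr rfl (g := fun _ => B), Finset.prod_const, Finset.card_erase_of_mem (Finset.mem_univ j),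
    Finset.card_univ, hι]
  intro i hi
  exact if_neg (Finset.ne_of_mem_erase hi)

theorem E4_rem {ι : Type} [Fintype ι] [DecidableEq ι] {K : ℕ} (hι : Fintype.card ι = K) {e0 v0 : ℝ} (he0 : 0 < e0)
    (he1 : e0 ≤ 1) (hv0 : 0 < v0) (m Q p : ℕ) {T : ℝ} (hT : 1 ≤ T) (j : ι) {n n' : ι → ℕ} (hn : n ∈ AS ι v0 m)
    (hn' : n' ∈ AS ι v0 m) :
    ∏ i, ∑ B ∈ E4_D e0 v0 T Q p j n n' i, |E4_f e0 v0 T Q p j n n' i B| ≤
      (4 / v0 * (1 + Real.log T) ^ 3) ^ (2 * K) * T ^ (2 * e0) := by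
  have h := absJ he0 he1 hv0 (r := 1) one_pos m ι Q hT ∅ hn hn'
  rw [hι, Finset.card_empty, Nat.cast_zero, mul_zero, add_zero] at h
  refine le_trans (Finset.prod_le_prod (fun i _ => Finset.sum_nonneg fun _ _ => abs_nonneg _) fun i _ => ?_) h
  unfold E4_D E4_f DJ fJ
  simp only [Finset.notMem_empty, if_false]
  by_cases hi : i = j
  · simp only [if_pos hi]
    unfold DAp fAp
    refine (lcf_abs _ _ _ _).trans (le_of_eq ?_)
    rw [Finset.sum_singleton, abs_one, mul_one]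
  · simp only [if_neg hi]
    exact le_rfl

theorem E4_ctrl {C a : ℝ} {p : ℕ} {D : Finset ℕ} {f : ℕ → ℝ} (h : Ctrl C a p D f) : |SS D f 1| ≤ a := by
  have h1 := h 1 squarefree_one
  rw [Nat.primeFactors_one, Finset.card_empty, pow_zero, Nat.gcd_one_left, Nat.cast_one, mul_one, mul_one, div_one] at h1
  exact h1

theorem E4_Mm {ι : Type} [Fintype ι] [DecidableEq ι] {D : ι → Finset ℕ} {f : ι → ℕ → ℝ} {a : ι → ℝ} {q : ι → ℕ} {C C' : ℝ}
    {w : ℕ} (hC' : 1 ≤ C') (hw : C' ^ 2 ≤ w) (ha : ∀ i, 0 ≤ a i) (hc : ∀ i, Ctrl C (a i) (q i) (D i) (f i))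
    (h : |Mm D f 1 - ∏ i, SS (D i) (f i) 1| ≤ C' / Real.sqrt w * ∏ i, a i) : |Mm D f 1| ≤ 2 * ∏ i, a i := by
  have h0 : 0 ≤ ∏ i, a i := Finset.prod_nonneg fun i _ => ha i
  have h1 : |∏ i, SS (D i) (f i) 1| ≤ ∏ i, a i := by
    rw [Finset.abs_prod]
    exact Finset.prod_le_prod (fun _ _ => abs_nonneg _) fun i _ => E4_ctrl (hc i)
  have h2 : C' ≤ Real.sqrt w := by
    rw [Real.le_sqrt (by linarith) (by positivity)]
    exact hw
  have h3 : C' / Real.sqrt w ≤ 1 := by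
    rw [div_le_one (by linarith)]
    exact h2
  have h4 := abs_add_le (Mm D f 1 - ∏ i, SS (D i) (f i) 1) (∏ i, SS (D i) (f i) 1)
  rw [sub_add_cancel] at h4
  nlinarith

theorem E4_Ap {e0 C0 : ℝ} (he0 : 0 < e0) (hC0 : 1 ≤ C0) {δ : ℝ} (hδ : 0 < δ) (hδ1 : δ ≤ 1) {T : ℝ} (hT : 1 ≤ T) {Q : ℕ}
    (hQ : 1 ≤ Q) (hE : 1 ≤ EQ Q) (hu : 1 / δ ≤ uu e0 T Q) (hEQ : EQ Q * (1 + Real.sqrt (Real.log T)) ≤ δ * uu e0 T Q) :
    ∑ p ∈ (Icc 1 ⌊T ^ δ⌋₊).filter (fun p => p.Prime ∧ ¬ p ∣ Q),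
      C0 * ((Nat.totient Q : ℝ) / Q * Real.log p + EQ Q) / p ≤ C0 * (1 / e0 + 6) * δ * uu e0 T Q := by
  have hT0 : 0 < T := by linarith
  have hTd : 1 ≤ T ^ δ := Real.one_le_rpow hT hδ.le
  have hN : 1 ≤ ⌊T ^ δ⌋₊ := Nat.le_floor (by rw [Nat.cast_one]; exact hTd)
  have hN0 : (0 : ℝ) < ⌊T ^ δ⌋₊ := by exact_mod_cast hN
  have hL : 0 ≤ Real.log T := Real.log_nonneg hT
  have hLN : Real.log (⌊T ^ δ⌋₊ : ℝ) ≤ δ * Real.log T := by
    rw [← Real.log_rpow hT0]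
    exact Real.log_le_log hN0 (Nat.floor_le (by positivity))
  have hQ0 : (0 : ℝ) < Q := by exact_mod_cast hQ
  obtain ⟨g, hg⟩ : ∃ g : ℝ, g = (Nat.totient Q : ℝ) / Q := ⟨_, rfl⟩
  have hg0 : 0 ≤ g := by rw [hg]; positivity
  have hg1 : g ≤ 1 := by
    rw [hg, div_le_one hQ0]
    exact_mod_cast Nat.totient_le Q
  have hgu : g * Real.log T = uu e0 T Q / e0 := by
    unfold uu
    rw [← hg]
    field_simp
  rw [← hg]
  obtain ⟨u, hudef⟩ : ∃ u : ℝ, u = uu e0 T Q := ⟨_, rfl⟩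
  rw [← hudef] at hu hEQ hgu ⊢
  have hu1 : 1 ≤ δ * u := by
    rw [div_le_iff₀ hδ] at hu
    linarith
  have h1 : ∑ p ∈ (Icc 1 ⌊T ^ δ⌋₊).filter (fun p => p.Prime ∧ ¬ p ∣ Q), C0 * (g * Real.log p + EQ Q) / p ≤
      ∑ p ∈ (Icc 1 ⌊T ^ δ⌋₊).filter (fun p => p.Prime), C0 * (g * Real.log p + EQ Q) / p := by
    refine Finset.sum_le_sum_of_subset_of_nonneg ?_ ?_
    · intro p hp
      simp only [mem_filter] at hp ⊢
      exact ⟨hp.1, hp.2.1⟩
    · intro p hp _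
      have hpp : p.Prime := (mem_filter.1 hp).2
      have : 0 ≤ Real.log p := Real.log_nonneg (by exact_mod_cast hpp.one_lt.le)
      have h2 : 0 ≤ g * Real.log p + EQ Q := by positivity
      exact div_nonneg (mul_nonneg (by linarith) h2) (by positivity)
  refine h1.trans ?_
  have h2 : ∑ p ∈ (Icc 1 ⌊T ^ δ⌋₊).filter (fun p => p.Prime), C0 * (g * Real.log p + EQ Q) / p =
      C0 * (g * ∑ p ∈ (Icc 1 ⌊T ^ δ⌋₊).filter (fun p => p.Prime), Real.log p / p +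
        EQ Q * ∑ p ∈ (Icc 1 ⌊T ^ δ⌋₊).filter (fun p => p.Prime), 1 / (p : ℝ)) := by
    rw [Finset.mul_sum, Finset.mul_sum, ← Finset.sum_add_distrib, Finset.mul_sum]
    refine Finset.sum_congr rfl fun p _ => ?_
    ring
  rw [h2]
  have h3 := E4_mertens hN
  have h4 := E4_inv hN
  have h5 : Real.sqrt (Real.log (⌊T ^ δ⌋₊ : ℝ)) ≤ Real.sqrt (Real.log T) := by
    apply Real.sqrt_le_sqrt
    nlinarith
  have h6 : g * ∑ p ∈ (Icc 1 ⌊T ^ δ⌋₊).filter (fun p => p.Prime), Real.log p / p ≤ δ * u / e0 + 2 * (δ * u) := by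
    calc g * ∑ p ∈ (Icc 1 ⌊T ^ δ⌋₊).filter (fun p => p.Prime), Real.log p / p
        ≤ g * (δ * Real.log T + 2) := mul_le_mul_of_nonneg_left (by linarith) hg0
      _ = δ * (g * Real.log T) + 2 * g := by ring
      _ = δ * u / e0 + 2 * g := by rw [hgu]; ring
      _ ≤ δ * u / e0 + 2 * (δ * u) := by linarith
  have h7 : EQ Q * ∑ p ∈ (Icc 1 ⌊T ^ δ⌋₊).filter (fun p => p.Prime), 1 / (p : ℝ) ≤ 4 * (δ * u) := by
    calc EQ Q * ∑ p ∈ (Icc 1 ⌊T ^ δ⌋₊).filter (fun p => p.Prime), 1 / (p : ℝ)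
        ≤ EQ Q * (4 * (1 + Real.sqrt (Real.log T))) := mul_le_mul_of_nonneg_left (by linarith) (by linarith)
      _ = 4 * (EQ Q * (1 + Real.sqrt (Real.log T))) := by ring
      _ ≤ 4 * (δ * u) := by linarith
  calc C0 * (g * ∑ p ∈ (Icc 1 ⌊T ^ δ⌋₊).filter (fun p => p.Prime), Real.log p / p +
        EQ Q * ∑ p ∈ (Icc 1 ⌊T ^ δ⌋₊).filter (fun p => p.Prime), 1 / (p : ℝ))
      ≤ C0 * ((δ * u / e0 + 2 * (δ * u)) + 4 * (δ * u)) :=
        mul_le_mul_of_nonneg_left (add_le_add h6 h7) (by linarith)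
    _ = C0 * (1 / e0 + 6) * δ * u := by ring

theorem e4 {φ : ℝ → ℝ} (hφ : Wt (1 / 2) φ) {e0 v0 : ℝ} (he0 : 0 < e0) (he1 : e0 ≤ 1 / 16) (hv0 : 0 < v0) (m K : ℕ) (hK : 1 ≤ K) :
    ∃ (C : ℝ) (w1 : ℕ), 0 < C ∧ ∀ δ : ℝ, 0 < δ → δ ≤ 1 / 8 → ∃ T1 : ℝ, ∀ T, T1 ≤ T → ∀ w Q : ℕ, 1 ≤ Q → Wide w Q → w1 ≤ w →
      Big e0 T Q → ∀ (ι : Type) [Fintype ι] [DecidableEq ι], Fintype.card ι = K → ∀ a b : ι → ℕ, Forms Q a b → ∀ j : ι,
      ∑ p ∈ (Icc 1 ⌊T ^ δ⌋₊).filter (fun p => p.Prime ∧ ¬ p ∣ Q), ∑ t ∈ (rT T).filter (fun t => p ∣ a j * t + b j),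
          φ ((t : ℝ) / T) * sM e0 v0 T m Q a b ∅ t ^ 2 ≤ C * δ * T * uu e0 T Q ^ K := by
  obtain ⟨C0, hC0, hAp⟩ := atP he0 hv0
  obtain ⟨C1, hC1, hAt⟩ := atA he0 hv0 m
  obtain ⟨C2, hC2, hmtt⟩ := mtt hφ
  obtain ⟨C', hC', hs3⟩ := s3 K 10 (by norm_num)
  have hI : 0 < ∫ x, φ x := hφ.int_pos
  obtain ⟨I, hIdef⟩ : ∃ I : ℝ, I = ∫ x, φ x := ⟨_, rfl⟩
  rw [← hIdef] at hI hmtt
  obtain ⟨M, hMdef⟩ : ∃ M : ℝ, M = ((m : ℝ) + 1) ^ K := ⟨_, rfl⟩
  have hM : 1 ≤ M := by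
    rw [hMdef]
    refine one_le_pow₀ ?_
    have : (0 : ℝ) ≤ m := Nat.cast_nonneg m
    linarith
  have hM0 : 0 < M := by linarith
  have hC00 : 0 < C0 := by linarith
  have hC10 : 0 < C1 := by linarith
  refine ⟨M ^ 2 * I * 2 * C1 ^ (K - 1) * (C0 * (1 / e0 + 6)) + 1, ⌈C' ^ 2⌉₊, by positivity, ?_⟩
  intro δ hδ hδ8
  obtain ⟨T2, hT2⟩ := hAt 1 one_pos
  obtain ⟨T3, hT31, heqs⟩ := eqs he0 hδ
  obtain ⟨T4, hT41, hlog⟩ := E4_log (M ^ 2 * C2 * (4 / v0) ^ (2 * K)) (3 * (2 * K)) (κ := 1 / 2) (by norm_num) hδ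
  refine ⟨max T2 (max T3 T4), ?_⟩
  intro T hT w Q hQ hW hw hB ι _ _ hι a b hF j
  have hT2' : T2 ≤ T := (le_max_left _ _).trans hT
  have hT3' : T3 ≤ T := (le_max_left _ _).trans ((le_max_right _ _).trans hT)
  have hT4' : T4 ≤ T := (le_max_right _ _).trans ((le_max_right _ _).trans hT)
  have hT1 : 1 ≤ T := hT31.trans hT3'
  have hT0 : 0 < T := by linarith
  obtain ⟨hu, hEQ⟩ := heqs T hT3' Q hQ hB
  have hE := EQ_ge_one hQ
  have hat := hT2 T hT2' Q hQ hB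
  have hSum := E4_Ap he0 hC0 hδ (by linarith) hT1 hQ hE hu hEQ
  obtain ⟨u, hudef⟩ : ∃ u : ℝ, u = uu e0 T Q := ⟨_, rfl⟩
  rw [← hudef] at hu hat hSum ⊢
  have hu1 : 1 ≤ u := by
    refine le_trans ?_ hu
    rw [le_div_iff₀ hδ]
    linarith
  have hu0 : 0 < u := by linarith
  have hlogT : 0 ≤ Real.log T := Real.log_nonneg hT1
  obtain ⟨P, hP⟩ : ∃ P : ℝ, P = (4 / v0 * (1 + Real.log T) ^ 3) ^ (2 * K) * T ^ (2 * e0) := ⟨_, rfl⟩
  have hP0 : 0 ≤ P := by rw [hP]; positivity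
  have hwC : C' ^ 2 ≤ (w : ℝ) := (Nat.le_ceil _).trans (by exact_mod_cast hw)
  have hwC1 : C' ≤ (w : ℝ) := by nlinarith
  -- one prime
  have key : ∀ p ∈ (Icc 1 ⌊T ^ δ⌋₊).filter (fun p => p.Prime ∧ ¬ p ∣ Q),
      ∑ t ∈ (rT T).filter (fun t => p ∣ a j * t + b j), φ ((t : ℝ) / T) * sM e0 v0 T m Q a b ∅ t ^ 2 ≤
      M ^ 2 * (T * I * (2 * (C1 * u) ^ (K - 1))) * (C0 * ((Nat.totient Q : ℝ) / Q * Real.log p + EQ Q) / p) +
        M ^ 2 * (C2 * P) := by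
    intro p hp
    obtain ⟨hp1, hpp, hpQ⟩ : p ∈ Icc 1 ⌊T ^ δ⌋₊ ∧ p.Prime ∧ ¬ p ∣ Q := by
      rw [mem_filter] at hp
      exact hp
    have hcop : Nat.Coprime p Q := (Nat.Prime.coprime_iff_not_dvd hpp).2 hpQ
    have hwp : w < p := by
      by_contra h
      exact hpQ (hW.2 p hpp (not_lt.1 h))
    obtain ⟨A, hA⟩ : ∃ A : ℝ, A = C0 * ((Nat.totient Q : ℝ) / Q * Real.log p + EQ Q) / p := ⟨_, rfl⟩
    have hap := hAp T hT1 Q p hQ hpp hcop
    rw [← hA] at hap ⊢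
    have hA0 : 0 ≤ A := by
      have : 0 ≤ Real.log p := Real.log_nonneg (by exact_mod_cast hpp.one_lt.le)
      rw [hA]
      positivity
    rw [E4_exp e0 v0 T m Q p a b j (rT T) (fun t => φ ((t : ℝ) / T))]
    have hgood : ∀ n ∈ AS ι v0 m, ∀ n' ∈ AS ι v0 m, ∀ i, Good Q (E4_D e0 v0 T Q p j n n' i) := by
      intro n hn n' hn' i
      unfold E4_D
      split_ifs
      · exact (hap _ _).1
      · exact (hat _ (E4_le hn i) _ (E4_le hn' i)).1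
    have hone : ∀ n ∈ AS ι v0 m, ∀ n' ∈ AS ι v0 m,
        ∑ t ∈ rT T, φ ((t : ℝ) / T) * ∏ i, Fn (E4_D e0 v0 T Q p j n n' i) (E4_f e0 v0 T Q p j n n' i) (a i * t + b i) ≤
          T * I * (2 * (C1 * u) ^ (K - 1)) * A + C2 * P := by
      intro n hn n' hn'
      have h1 := hmtt ι Q a b hF _ (E4_f e0 v0 T Q p j n n') (hgood n hn n' hn') T hT1
      have h2 := E4_rem hι he0 (by linarith) hv0 m Q p hT1 j hn hn'
      rw [← hP] at h2
      have h3 : ∀ i, 0 ≤ (if i = j then A else C1 * u) := by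
        intro i
        split_ifs
        · exact hA0
        · positivity
      have h4 : ∀ i, Ctrl 10 (if i = j then A else C1 * u) (if i = j then p else 1)
          (E4_D e0 v0 T Q p j n n' i) (E4_f e0 v0 T Q p j n n' i) := by
        intro i
        unfold E4_D E4_f
        by_cases hi : i = j
        · simp only [if_pos hi]
          exact (hap _ _).2
        · simp only [if_neg hi]
          exact (hat _ (E4_le hn i) _ (E4_le hn' i)).2.1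
      have h5 := hs3 ι hι w Q p hW hwC1 (Or.inr ⟨hpp, hwp⟩) (E4_D e0 v0 T Q p j n n') (E4_f e0 v0 T Q p j n n')
        (fun i => if i = j then A else C1 * u) j h3 (hgood n hn n' hn') h4
      have h6 := E4_Mm hC' hwC h3 h4 h5
      rw [E4_prod hι] at h6
      have h7 := (abs_le.1 (h1.trans (mul_le_mul_of_nonneg_left h2 hC2))).2
      have h8 : T * I * Mm (E4_D e0 v0 T Q p j n n') (E4_f e0 v0 T Q p j n n') 1 ≤
          T * I * (2 * (A * (C1 * u) ^ (K - 1))) :=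
        mul_le_mul_of_nonneg_left ((le_abs_self _).trans h6) (by positivity)
      have h9 : T * I * (2 * (A * (C1 * u) ^ (K - 1))) = T * I * (2 * (C1 * u) ^ (K - 1)) * A := by ring
      linarith
    refine (Finset.sum_le_sum fun n hn => Finset.sum_le_sum fun n' hn' => hone n hn n' hn').trans ?_
    rw [Finset.sum_const, Finset.sum_const, nsmul_eq_mul, nsmul_eq_mul]
    have hc := E4_card ι hι v0 m
    rw [← hMdef] at hc
    have h0 : 0 ≤ T * I * (2 * (C1 * u) ^ (K - 1)) * A + C2 * P := by positivity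
    calc ((AS ι v0 m).card : ℝ) * (((AS ι v0 m).card : ℝ) * (T * I * (2 * (C1 * u) ^ (K - 1)) * A + C2 * P))
        ≤ M * (M * (T * I * (2 * (C1 * u) ^ (K - 1)) * A + C2 * P)) := by gcongr
      _ = M ^ 2 * (T * I * (2 * (C1 * u) ^ (K - 1))) * A + M ^ 2 * (C2 * P) := by ring
  refine (Finset.sum_le_sum key).trans ?_
  rw [Finset.sum_add_distrib, ← Finset.mul_sum, Finset.sum_const, nsmul_eq_mul]
  have hcard : (((Icc 1 ⌊T ^ δ⌋₊).filter (fun p => p.Prime ∧ ¬ p ∣ Q)).card : ℝ) ≤ T ^ δ := by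
    have h1 : ((Icc 1 ⌊T ^ δ⌋₊).filter (fun p => p.Prime ∧ ¬ p ∣ Q)).card ≤ ⌊T ^ δ⌋₊ := by
      refine (Finset.card_filter_le _ _).trans ?_
      simp
    calc (((Icc 1 ⌊T ^ δ⌋₊).filter (fun p => p.Prime ∧ ¬ p ∣ Q)).card : ℝ) ≤ (⌊T ^ δ⌋₊ : ℝ) := by exact_mod_cast h1
      _ ≤ T ^ δ := Nat.floor_le (by positivity)
  have hpow : u ^ K = u ^ (K - 1) * u := by
    rw [← pow_succ]
    congr 1
    omega
  have hA : M ^ 2 * (T * I * (2 * (C1 * u) ^ (K - 1))) *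
      ∑ p ∈ (Icc 1 ⌊T ^ δ⌋₊).filter (fun p => p.Prime ∧ ¬ p ∣ Q),
        (C0 * ((Nat.totient Q : ℝ) / Q * Real.log p + EQ Q) / p) ≤
      M ^ 2 * I * 2 * C1 ^ (K - 1) * (C0 * (1 / e0 + 6)) * δ * T * u ^ K := by
    refine (mul_le_mul_of_nonneg_left hSum (by positivity)).trans (le_of_eq ?_)
    rw [hpow, mul_pow]
    ring
  have hR : (((Icc 1 ⌊T ^ δ⌋₊).filter (fun p => p.Prime ∧ ¬ p ∣ Q)).card : ℝ) * (M ^ 2 * (C2 * P)) ≤ δ * T * u ^ K := by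
    have h1 : (((Icc 1 ⌊T ^ δ⌋₊).filter (fun p => p.Prime ∧ ¬ p ∣ Q)).card : ℝ) * (M ^ 2 * (C2 * P)) ≤
        T ^ δ * (M ^ 2 * (C2 * P)) := mul_le_mul_of_nonneg_right hcard (by positivity)
    have h2 : T ^ δ * (M ^ 2 * (C2 * P)) =
        M ^ 2 * C2 * (4 / v0) ^ (2 * K) * (1 + Real.log T) ^ (3 * (2 * K)) * (T ^ δ * T ^ (2 * e0)) := by
      rw [hP, mul_pow, ← pow_mul]
      ring
    have h3 : T ^ δ * T ^ (2 * e0) ≤ T ^ (1 - 1 / 2 : ℝ) := by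
      rw [← Real.rpow_add hT0]
      exact Real.rpow_le_rpow_of_exponent_le hT1 (by linarith)
    have h4 := hlog T hT4'
    have h5 : M ^ 2 * C2 * (4 / v0) ^ (2 * K) * (1 + Real.log T) ^ (3 * (2 * K)) * (T ^ δ * T ^ (2 * e0)) ≤
        M ^ 2 * C2 * (4 / v0) ^ (2 * K) * (1 + Real.log T) ^ (3 * (2 * K)) * T ^ (1 - 1 / 2 : ℝ) :=
      mul_le_mul_of_nonneg_left h3 (by positivity)
    have h6 : δ * T ≤ δ * T * u ^ K := le_mul_of_one_le_right (by positivity) (one_le_pow₀ hu1)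
    linarith
  have hfin : (M ^ 2 * I * 2 * C1 ^ (K - 1) * (C0 * (1 / e0 + 6)) + 1) * δ * T * u ^ K =
      M ^ 2 * I * 2 * C1 ^ (K - 1) * (C0 * (1 / e0 + 6)) * δ * T * u ^ K + δ * T * u ^ K := by ring
  rw [hfin]
  exact add_le_add hA hR

end Pool.Agent.H39.MT
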