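/-
ROW FUc. The choice of the parameters.
PROOF. Choose `m` with `aI = 1 + m/2 ≥ 300/e0`, then `K ≥ max 3 (2^m)` and `v0 = 1/(4 K aI)` (`aI = 1 + m/2` for every `v0 > 0`, `aI_eq`). `v_m = 2^m v0 ≤ 1/(4 aI) ≤ 1/2`, so `FI_ge`: `FI {j} ≥ (1 - 2 K aI v0) aI² bI^(K-1) = (1/2) aI² bI^(K-1)`.
`bI ≤ 3/(2 v0) = 6 K aI` (`bI_le`), so `K (e0/8) FI {j} ≥ K (e0/16) aI² bI^(K-1) ≥ (e0/96) aI bI^K ≥ 3 bI^K`. `FI ∅ ≤ bI^K` (`FI_le`), `bI ≥ 1/v0 ≥ 1` (`bI_ge`). So `2 FI ∅ + 1 ≤ 3 bI^K ≤ K (e0/8) FI {j}`.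
-/
import Pool.Agent.H6.EG.FUb

set_option autoImplicit false

namespace Pool.Agent.H39.MT

open EG Finset

theorem fUc {e0 : ℝ} (he0 : 0 < e0) : ∃ (m K : ℕ) (v0 : ℝ), 3 ≤ K ∧ 0 < v0 ∧
    ∀ (ι : Type) [Fintype ι] [DecidableEq ι], Fintype.card ι = K → ∀ j : ι,
      2 * FI ι v0 m ∅ + 1 ≤ K * (e0 / 8) * FI ι v0 m {j} := by
  obtain ⟨m, hm⟩ := exists_nat_ge (600 / e0)
  set A : ℝ := 1 + (m : ℝ) / 2 with hA
  have hA1 : 1 ≤ A := by
    have : (0 : ℝ) ≤ (m : ℝ) / 2 := by positivity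
    linarith
  have hA300 : 300 ≤ e0 * A := by
    have h1 : 600 ≤ m * e0 := (div_le_iff₀ he0).mp hm
    have h2 : e0 * A = e0 + m * e0 / 2 := by rw [hA]; ring
    linarith
  set K : ℕ := 3 + 2 ^ m with hK
  have hK3 : 3 ≤ K := Nat.le_add_right 3 _
  have hK0 : (0 : ℝ) < K := by
    rw [hK]
    positivity
  have hK2 : (2 : ℝ) ^ m ≤ K := by
    rw [hK]
    push_cast
    linarith
  have hv0 : (0 : ℝ) < 1 / (4 * K * A) := by positivity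
  refine ⟨m, K, 1 / (4 * K * A), hK3, hv0, ?_⟩
  intro ι _ _ hc j
  set v0 : ℝ := 1 / (4 * K * A) with hv0d
  have hKA : v0 * (4 * K * A) = 1 := by
    rw [hv0d]
    field_simp
  have ha : aI v0 m = A := aI_eq hv0 m
  have hvm : vv v0 m ≤ 1 / 2 := by
    unfold vv
    have h1 : (2 : ℝ) ^ m * v0 ≤ K * v0 := mul_le_mul_of_nonneg_right hK2 hv0.le
    have h2 : K * v0 ≤ K * v0 * (2 * A) := by
      have : 0 ≤ K * v0 := by positivity
      nlinarith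
    have h3 : K * v0 * (2 * A) = 1 / 2 := by linarith
    linarith
  have h1 := FI_ge hv0 m hvm ι j
  have h2 := FI_le hv0 m ι ∅
  rw [hc, ha] at h1
  rw [hc, Finset.card_empty, pow_zero, one_mul, Nat.sub_zero] at h2
  have h3 := bI_ge hv0 m
  have h4 := bI_le hv0 m
  set b := bI v0 m with hb
  have e1 : 1 - 2 * (K : ℝ) * A * v0 = 1 / 2 := by linarith
  rw [e1] at h1
  have hv0le : v0 ≤ 1 := by
    have h5 : (1 : ℝ) ≤ 4 * K * A := by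
      have : (1 : ℝ) ≤ K := by exact_mod_cast (le_trans (by norm_num) hK3 : 1 ≤ K)
      nlinarith
    nlinarith
  have hb1 : 1 ≤ b := by
    refine le_trans ?_ h3
    rw [le_div_iff₀ hv0]
    linarith
  have hb6 : b ≤ 6 * K * A := by
    refine h4.trans (le_of_eq ?_)
    rw [hv0d]
    field_simp
    ring
  obtain ⟨k, hk⟩ : ∃ k, K = k + 1 := ⟨K - 1, (Nat.sub_add_cancel (le_trans (by norm_num) hK3)).symm⟩
  have e2 : b ^ K = b * b ^ (K - 1) := by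
    rw [hk, Nat.add_sub_cancel, pow_succ]
    ring
  have hbp : 0 < b ^ (K - 1) := by positivity
  have h5 : 1 ≤ b ^ K := one_le_pow₀ hb1
  have h6 : b ^ K ≤ 6 * K * A * b ^ (K - 1) := by
    rw [e2]
    exact mul_le_mul_of_nonneg_right hb6 hbp.le
  have h7 : K * (e0 / 8) * (1 / 2 * (A ^ 2 * b ^ (K - 1))) ≤ K * (e0 / 8) * FI ι v0 m {j} :=
    mul_le_mul_of_nonneg_left h1 (by positivity)
  have h8 : 18 * K * A * b ^ (K - 1) ≤ K * (e0 / 8) * (1 / 2 * (A ^ 2 * b ^ (K - 1))) := by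
    have e3 : K * (e0 / 8) * (1 / 2 * (A ^ 2 * b ^ (K - 1))) = (K * A * b ^ (K - 1)) * (e0 * A) / 16 := by ring
    rw [e3]
    have h9 : 0 ≤ K * A * b ^ (K - 1) := by positivity
    nlinarith
  linarith

end Pool.Agent.H39.MT
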