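/-
ROW SgP. The singular series is at most twice its part over the primes of `PS (yy x) P`.
PROOF. `sing3_le_singW` (`H17/AvgMain.lean`) with `δ = 1/2`: for large `x`, `sing3 a b c ≤ (3/2) singW (yy x) a b c`, and `singW y a b c = ∏_{p ∈ PP y} locf ≤ exp (2/(P-1)) ∏_{p ∈ PS y P} locf`
(if `P ∈ PP y` split off the factor `P`, `locf_le_exp`; otherwise `PS y P = PP y`; all factors are nonnegative, `locf_nonneg`), and `exp (2/(P-1)) ≤ 4/3` for `P > 100`.
-/
import Pool.Agent.H39.MT.Defs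

set_option autoImplicit false

namespace Pool.Agent.H39.MT

open Pool.Agent.H17 Filter

theorem SgP_exp {P : ℕ} (hP : 100 < P) : Real.exp (2 / ((P : ℝ) - 1)) ≤ 4 / 3 := by
  have h1 : (101 : ℝ) ≤ P := by exact_mod_cast hP
  have h2 : 2 / ((P : ℝ) - 1) ≤ 1 / 50 := by
    rw [div_le_div_iff₀ (by linarith) (by norm_num)]
    linarith
  have h3 : Real.exp (2 / ((P : ℝ) - 1)) ≤ Real.exp (1 / 50) := Real.exp_le_exp.2 h2
  have h4 := Real.add_one_le_exp (-(1 / 50) : ℝ)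
  have h5 : Real.exp (1 / 50) * Real.exp (-(1 / 50)) = 1 := by
    rw [← Real.exp_add]
    norm_num
  have h6 := Real.exp_pos (1 / 50 : ℝ)
  nlinarith

theorem SgP_le (y P a b c : ℕ) (hPp : P.Prime) (hP : 100 < P) :
    singW y a b c ≤ 4 / 3 * ∏ p ∈ PS y P, locf a b c p := by
  have h0 : 0 ≤ ∏ p ∈ PS y P, locf a b c p :=
    Finset.prod_nonneg fun p hp => locf_nonneg a b c (mem_PP.1 (Finset.mem_of_mem_erase hp)).2
  unfold singW
  by_cases h : P ∈ PP y
  · rw [← Finset.mul_prod_erase (PP y) (locf a b c) h]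
    exact mul_le_mul_of_nonneg_right ((locf_le_exp a b c hPp).trans (SgP_exp hP)) h0
  · have e : PS y P = PP y := Finset.erase_eq_of_notMem h
    rw [e] at h0 ⊢
    linarith

theorem sing3_le_ps : ∃ X : ℝ, ∀ x : ℝ, X ≤ x → ∀ P : ℕ, P.Prime → 100 < P → ∀ a b c : ℕ, a < b → b < c →
    (c : ℝ) ≤ (Real.log x) ^ 2 → sing3 a b c ≤ 2 * ∏ p ∈ PS (yy x) P, locf a b c p := by
  have hev := sing3_le_singW (δ := 1 / 2) (by norm_num)
  obtain ⟨X, hX⟩ := eventually_atTop.mp hev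
  refine ⟨X, fun x hx P hPp hP a b c hab hbc hc => ?_⟩
  have h1 := hX x hx a b c hab hbc hc
  have h2 := SgP_le (yy x) P a b c hPp hP
  linarith

end Pool.Agent.H39.MT
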