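/-
ROW FinA. From one residue class modulo `W` to all triples.
PROOF. Given `ε` (w.l.o.g. `ε ≤ 1`, otherwise use `min ε 1`), put `e0 = (ε/2)^(1/3)` (real power), take `c, X` from the hypothesis `hloc` for `e0`, `X'` from `sing3_le_ps`. Let `x` be large, `L = log x`, `P` as in `hloc`,
`W = WS (yy x) P`, `ρ = rho x W`, `m_v = mt A W v`, `E = (1/W) ∑_{v < W} (ρ m_v)^3`.
(1) `∑_{adm A} sing3 ≤ ∑_{tri A} sing3 ≤ 2 ∑_{tri A} ∏_{PS} locf = 2 (W^2/φ(W)^3) ∑_v C(m_v,3) ≤ (2/6) (W^2/φ(W)^3) ∑_v m_v^3 = L^3 E/3` (`sing3_nonneg`, `sing3_le_ps`, `sum_choose`, `6 C(m,3) ≤ m^3`, `ρ L = W/φ(W)`).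
(2) `E ≥ ε`: if `ε L^3 ≤ ∑ sing3` from (1); if `ε L^3 ≤ |A|^3`: `∑_v ρ m_v = ρ |A| φ(W) = |A| W/L` (`sum_mt'`), and `(1/W) ∑ u_v^3 ≥ ((1/W) ∑ u_v)^3` (`cube_tangent` of `H17/Avg.lean` or
  `inner_le_nnorm..`; as in `sum_singW_lower` there), so `E ≥ (|A|/L)^3 ≥ ε`.
(3) `(1/W) ∑_{v : ρ m_v < e0} (ρ m_v)^3 ≤ e0^3 = ε/2 ≤ E/2`, so `∑_{v : e0 ≤ ρ m_v} (x/W) (ρ m_v)^3 ≥ x E/2`.
(4) By `hloc`, with `M = ⌊x⌋₊ - ⌊L^2⌋₊`: `∑_{n ∈ Icc 1 M} C(NN A n, 3) ≥ ∑_{v : e0 ≤ ρ m_v} ∑_{n % W = v} C(NN A n,3) ≥ c x E/2` (fiberwise, terms `≥ 0`).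
(5) `6 C(N,3) = N (N-1) (N-2)` and `sum_triples_upper` (`H17/AvgMain.lean`; `M + a ≤ ⌊x⌋₊` for `a ∈ A` as `a ≤ ⌊L^2⌋₊`): `6 ∑ C(NN,3) ≤ 6 ∑_{adm A} pi3 + 18 |A|^3`, `|A| ≤ L^2 + 1`, so
  `∑_{adm A} pi3 ≥ c x E/2 - 3 (L^2 + 1)^3 ≥ c x E/4` for `x ≥ X''(c, ε)` (as `E ≥ ε`), and `x E/4 ≥ (3/4) (x/L^3) ∑ sing3` by (1).
So the constant `c' = 3 c/4` works.
-/
import Pool.Agent.H39.MT.CtP
import Pool.Agent.H39.MT.SgP

set_option autoImplicit false

namespace Pool.Agent.H39.MT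

open Pool.Agent.H17 Filter

/-- the lower bound in one residue class -/
def LocalLow : Prop :=
  ∀ e0 : ℝ, 0 < e0 → ∃ c X : ℝ, 0 < c ∧ ∀ x : ℝ, X ≤ x → ∃ P : ℕ, P.Prime ∧ 100 < P ∧
    ∀ A : Finset ℕ, (∀ a ∈ A, (a : ℝ) ≤ (Real.log x) ^ 2) → ∀ v < WS (yy x) P,
      e0 ≤ rho x (WS (yy x) P) * (mt A (WS (yy x) P) v : ℝ) →
      c * (x / (WS (yy x) P : ℝ)) * (rho x (WS (yy x) P) * (mt A (WS (yy x) P) v : ℝ)) ^ 3 ≤
        ∑ n ∈ (Finset.Icc 1 (⌊x⌋₊ - ⌊(Real.log x) ^ 2⌋₊)).filter (fun n => n % (WS (yy x) P) = v),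
          ((NN A n).choose 3 : ℝ)

theorem choose3_cast (N : ℕ) : 6 * ((N.choose 3 : ℕ) : ℝ) = (N : ℝ) * (N - 1) * (N - 2) := by
  rcases Nat.lt_or_ge N 3 with h | h
  · interval_cases N <;> norm_num [Nat.choose]
  · have h2 : N.descFactorial 3 = Nat.factorial 3 * N.choose 3 := Nat.descFactorial_eq_factorial_mul_choose N 3
    have h3 : N.descFactorial 3 = (N - 2) * ((N - 1) * (N * 1)) := by
      simp [Nat.descFactorial]
    have h4 : ((N.descFactorial 3 : ℕ) : ℝ) = (N : ℝ) * (N - 1) * (N - 2) := by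
      rw [h3]
      push_cast [Nat.cast_sub (by omega : 2 ≤ N), Nat.cast_sub (by omega : 1 ≤ N)]
      ring
    rw [← h4, h2]
    push_cast
    norm_num [Nat.factorial]

theorem choose3_le (N : ℕ) : 6 * ((N.choose 3 : ℕ) : ℝ) ≤ (N : ℝ) ^ 3 := by
  rw [choose3_cast]
  rcases Nat.lt_or_ge N 2 with h | h
  · interval_cases N <;> norm_num
  · have h1 : (2 : ℝ) ≤ N := by exact_mod_cast h
    nlinarith [mul_nonneg (by linarith : (0 : ℝ) ≤ N) (by linarith : (0 : ℝ) ≤ N - 1)]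

/-- the average of the cubes of the densities -/
theorem fin_core {A : Finset ℕ} {W : ℕ} (hW : 0 < W) {u : ℕ → ℝ} {L x c0 ε e0 S3 Pi : ℝ} {M : ℕ}
    (hu : ∀ v, 0 ≤ u v) (hL : 0 < L) (hx : 0 < x) (hc0 : 0 < c0) (he0 : 0 < e0) (he03 : e0 ^ 3 = ε / 2)
    (hS : S3 ≤ L ^ 3 * ((∑ v ∈ Finset.range W, u v ^ 3) / W) / 3)
    (hsum : ∑ v ∈ Finset.range W, u v = (A.card : ℝ) / L * W)
    (hor : ε * L ^ 3 ≤ (A.card : ℝ) ^ 3 ∨ ε * L ^ 3 ≤ S3)
    (hloc : ∀ v < W, e0 ≤ u v → c0 * (x / (W : ℝ)) * u v ^ 3 ≤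
        ∑ n ∈ (Finset.Icc 1 M).filter (fun n => n % W = v), ((NN A n).choose 3 : ℝ))
    (hup : ∑ n ∈ Finset.Icc 1 M, (NN A n : ℝ) * (NN A n - 1) * (NN A n - 2) ≤ 6 * Pi + 18 * (A.card : ℝ) ^ 3)
    (hcard : 3 * (A.card : ℝ) ^ 3 ≤ c0 * x * ε / 4) :
    3 * c0 / 4 * (x / L ^ 3 * S3) ≤ Pi := by
  have hW' : (0 : ℝ) < W := by exact_mod_cast hW
  set E : ℝ := (∑ v ∈ Finset.range W, u v ^ 3) / W with hE
  have hEW : ∑ v ∈ Finset.range W, u v ^ 3 = E * W := by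
    rw [hE, div_mul_cancel₀ _ hW'.ne']
  have hL3 : 0 < L ^ 3 := by positivity
  -- E ≥ ε
  have hEε : ε ≤ E := by
    rcases hor with h | h
    · have hμ : (0 : ℝ) ≤ (A.card : ℝ) / L := div_nonneg (Nat.cast_nonneg _) hL.le
      have h1 : ∑ v ∈ Finset.range W, (3 * ((A.card : ℝ) / L) ^ 2 * u v - 2 * ((A.card : ℝ) / L) ^ 3)
          ≤ ∑ v ∈ Finset.range W, u v ^ 3 :=
        Finset.sum_le_sum (fun v _ => cube_tangent (hu v) hμ)
      rw [Finset.sum_sub_distrib, ← Finset.mul_sum, hsum, Finset.sum_const, Finset.card_range, nsmul_eq_mul, hEW] at h1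
      have h2 : ((A.card : ℝ) / L) ^ 3 * W ≤ E * W := by nlinarith
      have h3 : ((A.card : ℝ) / L) ^ 3 ≤ E := le_of_mul_le_mul_right h2 hW'
      have h4 : ε ≤ ((A.card : ℝ) / L) ^ 3 := by
        rw [div_pow, le_div_iff₀ hL3]
        exact h
      linarith
    · have h1 : ε * L ^ 3 ≤ L ^ 3 * E / 3 := h.trans hS
      have hε0 : 0 < ε := by
        have : 0 < e0 ^ 3 := by positivity
        linarith
      have h2 : ε * L ^ 3 ≤ (E / 3) * L ^ 3 := by linarith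
      have h3 : ε ≤ E / 3 := le_of_mul_le_mul_right h2 hL3
      linarith
  -- the main part
  have hsplit : ∑ v ∈ Finset.range W, u v ^ 3 ≤
      ∑ v ∈ (Finset.range W).filter (fun v => e0 ≤ u v), u v ^ 3 + W * (ε / 2) := by
    rw [← Finset.sum_filter_add_sum_filter_not (Finset.range W) (fun v => e0 ≤ u v)]
    have h1 : ∑ v ∈ (Finset.range W).filter (fun v => ¬ e0 ≤ u v), u v ^ 3 ≤ W * (ε / 2) := by
      calc ∑ v ∈ (Finset.range W).filter (fun v => ¬ e0 ≤ u v), u v ^ 3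
          ≤ ∑ v ∈ (Finset.range W).filter (fun v => ¬ e0 ≤ u v), (ε / 2) := by
            apply Finset.sum_le_sum
            intro v hv
            rw [Finset.mem_filter] at hv
            rw [← he03]
            have h2 : u v ≤ e0 := (not_le.mp hv.2).le
            exact pow_le_pow_left₀ (hu v) h2 3
        _ = (((Finset.range W).filter (fun v => ¬ e0 ≤ u v)).card : ℝ) * (ε / 2) := by
            rw [Finset.sum_const, nsmul_eq_mul]
        _ ≤ W * (ε / 2) := by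
            have h3 : (((Finset.range W).filter (fun v => ¬ e0 ≤ u v)).card : ℝ) ≤ W := by
              have := Finset.card_filter_le (Finset.range W) (fun v => ¬ e0 ≤ u v)
              rw [Finset.card_range] at this
              exact_mod_cast this
            have hε0 : 0 < ε / 2 := by
              rw [← he03]; positivity
            exact mul_le_mul_of_nonneg_right h3 hε0.le
    linarith
  have hmain : E * W / 2 ≤ ∑ v ∈ (Finset.range W).filter (fun v => e0 ≤ u v), u v ^ 3 := by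
    rw [hEW] at hsplit
    have : W * (ε / 2) ≤ E * W / 2 := by nlinarith
    linarith
  -- sum over n
  have hn : c0 * x * E / 2 ≤ ∑ n ∈ Finset.Icc 1 M, ((NN A n).choose 3 : ℝ) := by
    rw [← Finset.sum_fiberwise_of_maps_to (s := Finset.Icc 1 M) (t := Finset.range W) (g := fun n => n % W)
      (fun n _ => Finset.mem_range.mpr (Nat.mod_lt _ hW))]
    calc c0 * x * E / 2 = c0 * (x / W) * (E * W / 2) := by field_simp
      _ ≤ c0 * (x / W) * ∑ v ∈ (Finset.range W).filter (fun v => e0 ≤ u v), u v ^ 3 :=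
          mul_le_mul_of_nonneg_left hmain (by positivity)
      _ = ∑ v ∈ (Finset.range W).filter (fun v => e0 ≤ u v), c0 * (x / W) * u v ^ 3 := Finset.mul_sum _ _ _
      _ ≤ ∑ v ∈ (Finset.range W).filter (fun v => e0 ≤ u v),
            ∑ n ∈ (Finset.Icc 1 M).filter (fun n => n % W = v), ((NN A n).choose 3 : ℝ) := by
          apply Finset.sum_le_sum
          intro v hv
          rw [Finset.mem_filter, Finset.mem_range] at hv
          exact hloc v hv.1 hv.2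
      _ ≤ ∑ v ∈ Finset.range W,
            ∑ n ∈ (Finset.Icc 1 M).filter (fun n => n % W = v), ((NN A n).choose 3 : ℝ) := by
          apply Finset.sum_le_sum_of_subset_of_nonneg (Finset.filter_subset _ _)
          intro v _ _
          exact Finset.sum_nonneg (fun n _ => Nat.cast_nonneg _)
  have h6 : 6 * ∑ n ∈ Finset.Icc 1 M, ((NN A n).choose 3 : ℝ) = ∑ n ∈ Finset.Icc 1 M, (NN A n : ℝ) * (NN A n - 1) * (NN A n - 2) := by
    rw [Finset.mul_sum]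
    exact Finset.sum_congr rfl (fun n _ => choose3_cast _)
  have h7 : c0 * x * ε / 4 ≤ c0 * x * E / 4 := by
    have : c0 * x * ε ≤ c0 * x * E := mul_le_mul_of_nonneg_left hEε (by positivity)
    linarith
  have h8 : c0 * x * E / 4 ≤ Pi := by linarith
  refine le_trans ?_ h8
  calc 3 * c0 / 4 * (x / L ^ 3 * S3) ≤ 3 * c0 / 4 * (x / L ^ 3 * (L ^ 3 * E / 3)) := by
        apply mul_le_mul_of_nonneg_left _ (by positivity)
        exact mul_le_mul_of_nonneg_left hS (by positivity)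
    _ = c0 * x * E / 4 := by field_simp

theorem fin_a (hloc : LocalLow) {ε : ℝ} (hε : 0 < ε) : ∃ c X : ℝ, 0 < c ∧ ∀ x : ℝ, X ≤ x →
    ∀ A : Finset ℕ, (∀ a ∈ A, (a : ℝ) ≤ (Real.log x) ^ 2) →
    (ε * (Real.log x) ^ 3 ≤ (A.card : ℝ) ^ 3 ∨ ε * (Real.log x) ^ 3 ≤ ∑ t ∈ adm A, sing3 t.1 t.2.1 t.2.2) →
    c * (x / (Real.log x) ^ 3 * ∑ t ∈ adm A, sing3 t.1 t.2.1 t.2.2)
      ≤ ∑ t ∈ adm A, (pi3 x (t.2.2 - t.2.1) (t.2.2 - t.1) : ℝ) := by
  set e0 : ℝ := (ε / 2) ^ ((1 : ℝ) / 3) with he0def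
  have he0 : 0 < e0 := Real.rpow_pos_of_pos (by positivity) _
  have he03 : e0 ^ 3 = ε / 2 := by
    rw [he0def, ← Real.rpow_natCast, ← Real.rpow_mul (by positivity)]
    norm_num
  obtain ⟨c0, X0, hc0, h0⟩ := hloc e0 he0
  obtain ⟨X1, h1⟩ := sing3_le_ps
  have hev : ∀ᶠ x : ℝ in atTop, 1 ≤ Real.log x ∧ (Real.log x) ^ 2 ≤ 1 * x ∧ (Real.log x) ^ 6 ≤ (c0 * ε / 96) * x ∧ 0 < x :=
    (Real.tendsto_log_atTop.eventually_ge_atTop 1).and ((eventually_log_pow_le 2 one_pos).and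
      ((eventually_log_pow_le 6 (by positivity)).and (eventually_gt_atTop 0)))
  obtain ⟨X2, h2⟩ := eventually_atTop.mp hev
  refine ⟨3 * c0 / 4, max X0 (max X1 X2), by positivity, ?_⟩
  intro x hx A hA hor
  obtain ⟨P, hP, hP100, h0'⟩ := h0 x ((le_max_left _ _).trans hx)
  have h1' := h1 x (((le_max_left _ _).trans (le_max_right _ _)).trans hx) P hP hP100
  obtain ⟨hL1, hL2, hL6, hx0⟩ := h2 x (((le_max_right _ _).trans (le_max_right _ _)).trans hx)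
  set W := WS (yy x) P with hWdef
  have hW : 0 < W := ws_pos _ _
  have hW' : (0 : ℝ) < W := by exact_mod_cast hW
  have hφ : (0 : ℝ) < (W.totient : ℝ) := by exact_mod_cast Nat.totient_pos.mpr hW
  have hL : 0 < Real.log x := by linarith
  have hρ : 0 < rho x W := by unfold rho; positivity
  have hcardN : A.card ≤ ⌊(Real.log x) ^ 2⌋₊ + 1 := by
    calc A.card ≤ (Finset.range (⌊(Real.log x) ^ 2⌋₊ + 1)).card := by
          apply Finset.card_le_card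
          intro a ha
          rw [Finset.mem_range]
          exact Nat.lt_succ_of_le (Nat.le_floor (hA a ha))
      _ = _ := Finset.card_range _
  have hcard : (A.card : ℝ) ≤ 2 * (Real.log x) ^ 2 := by
    have h3 : (A.card : ℝ) ≤ (⌊(Real.log x) ^ 2⌋₊ : ℝ) + 1 := by exact_mod_cast hcardN
    have h4 : (⌊(Real.log x) ^ 2⌋₊ : ℝ) ≤ (Real.log x) ^ 2 := Nat.floor_le (by positivity)
    have h5 : (1 : ℝ) ≤ (Real.log x) ^ 2 := by nlinarith
    linarith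
  have hcard3 : (A.card : ℝ) ^ 3 ≤ 8 * (Real.log x) ^ 6 := by
    calc (A.card : ℝ) ^ 3 ≤ (2 * (Real.log x) ^ 2) ^ 3 := by gcongr
      _ = _ := by ring
  have hsingsum : ∑ t ∈ adm A, sing3 t.1 t.2.1 t.2.2 ≤
      2 * ((W.totient : ℝ) ^ 3 / (W : ℝ) ^ 2)⁻¹ * ∑ v ∈ Finset.range W, ((mt A W v).choose 3 : ℝ) := by
    have hch := sum_choose A (yy x) P
    rw [← hWdef] at hch
    rw [hch]
    have h3 : ∑ t ∈ adm A, sing3 t.1 t.2.1 t.2.2 ≤ ∑ t ∈ tri A, 2 * ∏ p ∈ PS (yy x) P, locf t.1 t.2.1 t.2.2 p := by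
      have h4 : ∀ t ∈ tri A, sing3 t.1 t.2.1 t.2.2 ≤ 2 * ∏ p ∈ PS (yy x) P, locf t.1 t.2.1 t.2.2 p := by
        intro t ht
        rw [mem_tri] at ht
        exact h1' t.1 t.2.1 t.2.2 ht.2.1 ht.2.2 (hA _ ht.1.2.2)
      calc ∑ t ∈ adm A, sing3 t.1 t.2.1 t.2.2 ≤ ∑ t ∈ adm A, 2 * ∏ p ∈ PS (yy x) P, locf t.1 t.2.1 t.2.2 p := by
            apply Finset.sum_le_sum
            intro t ht
            exact h4 t (Finset.mem_of_mem_filter t ht)
        _ ≤ _ := by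
            apply Finset.sum_le_sum_of_subset_of_nonneg (Finset.filter_subset _ _)
            intro t _ _
            apply mul_nonneg (by norm_num)
            apply Finset.prod_nonneg
            intro p hp
            exact locf_nonneg _ _ _ (ps_prime hp)
    rw [← Finset.mul_sum] at h3
    refine h3.trans (le_of_eq ?_)
    field_simp
  have key : 3 * c0 / 4 * (x / (Real.log x) ^ 3 * ∑ t ∈ adm A, sing3 t.1 t.2.1 t.2.2) ≤
      ∑ t ∈ adm A, (pi3 x (t.2.2 - t.2.1) (t.2.2 - t.1) : ℝ) := by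
    refine fin_core (A := A) (W := W) hW (u := fun v => rho x W * (mt A W v : ℝ)) (ε := ε) (e0 := e0)
      (M := ⌊x⌋₊ - ⌊(Real.log x) ^ 2⌋₊) ?_ hL hx0 hc0 he0 he03 ?_ ?_ hor ?_ ?_ ?_
    · intro v
      positivity
    · have h3 : ∑ v ∈ Finset.range W, ((mt A W v).choose 3 : ℝ) ≤ (∑ v ∈ Finset.range W, (mt A W v : ℝ) ^ 3) / 6 := by
        rw [Finset.sum_div]
        apply Finset.sum_le_sum
        intro v _
        have := choose3_le (mt A W v)
        linarith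
      refine hsingsum.trans ?_
      have h4 : Real.log x ^ 3 * ((∑ v ∈ Finset.range W, (rho x W * (mt A W v : ℝ)) ^ 3) / W) / 3
          = 2 * ((W.totient : ℝ) ^ 3 / (W : ℝ) ^ 2)⁻¹ * ((∑ v ∈ Finset.range W, (mt A W v : ℝ) ^ 3) / 6) := by
        simp_rw [mul_pow]
        rw [← Finset.mul_sum]
        unfold rho
        field_simp
        ring
      rw [h4]
      exact mul_le_mul_of_nonneg_left h3 (by positivity)
    · rw [← Finset.mul_sum, hWdef, sum_mt', ← hWdef]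
      unfold rho
      field_simp
    · intro v hv he
      exact h0' A hA v hv he
    · apply sum_triples_upper
      intro a ha
      have h3 : a ≤ ⌊(Real.log x) ^ 2⌋₊ := Nat.le_floor (hA a ha)
      have h4 : ⌊(Real.log x) ^ 2⌋₊ ≤ ⌊x⌋₊ := Nat.floor_le_floor (by linarith)
      omega
    · have : 24 * (Real.log x) ^ 6 ≤ c0 * x * ε / 4 := by nlinarith
      linarith
  exact key

end Pool.Agent.H39.MT
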