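/-
FinB. Translation invariance: from sets of shifts in `[0, (log x)^2]` to sets of diameter `(log x)^2` (adapted from `H17/TripleDefs.lean`).
-/
import Pool.Agent.H39.MT.FinA
import Pool.Agent.H17.TripleDefs

set_option autoImplicit false

namespace Pool.Agent.H39.MT

open Filter Topology Pool.Agent.H17 Pool.Agent.H17.Triple

theorem fin_b (hloc : LocalLow) : ∀ ε : ℝ, 0 < ε → ∃ c X : ℝ, 0 < c ∧ ∀ x : ℝ, X ≤ x → ∀ A : Finset ℕ,
    (∀ a ∈ A, ∀ b ∈ A, (b : ℝ) ≤ a + (Real.log x) ^ 2) →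
    (ε * (Real.log x) ^ 3 ≤ (A.card : ℝ) ^ 3 ∨
      ε * (Real.log x) ^ 3 ≤ ∑ t ∈ triples A, singularSeries (t.2.2 - t.2.1) (t.2.2 - t.1)) →
    c * ∑ t ∈ triples A,
        singularSeries (t.2.2 - t.2.1) (t.2.2 - t.1) * x / (Real.log x) ^ 3
      ≤ ∑ t ∈ triples A, (primeTriples x (t.2.2 - t.2.1) (t.2.2 - t.1) : ℝ) := by
  intro ε hε
  obtain ⟨c, X, hc0, hmain⟩ := fin_a hloc hε
  refine ⟨c, max X 2, hc0, fun x hx A hA hcard => ?_⟩
  have hxX : X ≤ x := (le_max_left _ _).trans hx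
  have hx2 : 2 ≤ x := (le_max_right _ _).trans hx
  have hL0 : 0 < Real.log x := Real.log_pos (by linarith)
  rcases A.eq_empty_or_nonempty with hemp | hne
  · subst hemp
    simp [triples]
  · set m := A.min' hne with hm
    have hmle : ∀ a ∈ A, m ≤ a := fun a ha => A.min'_le a ha
    have hmA : m ∈ A := A.min'_mem hne
    set B := A.image (fun a => a - m) with hB
    have hBcard : B.card = A.card := by
      rw [hB]
      apply Finset.card_image_of_injOn
      intro r hr s hs hrs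
      have h1 := hmle r hr
      have h2 := hmle s hs
      have h3 : r - m = s - m := hrs
      omega
    have hBle : ∀ a ∈ B, (a : ℝ) ≤ (Real.log x) ^ 2 := by
      intro a ha
      rw [hB, Finset.mem_image] at ha
      obtain ⟨r, hr, rfl⟩ := ha
      have h1 := hA m hmA r hr
      rw [Nat.cast_sub (hmle r hr)]
      linarith
    have hS : ∑ t ∈ triples A, singularSeries (t.2.2 - t.2.1) (t.2.2 - t.1)
        = ∑ t ∈ adm B, sing3 t.1 t.2.1 t.2.2 := by
      rw [sum_translate A m hmle singularSeries, ← hB, ← triples_eq]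
      apply Finset.sum_congr rfl
      intro t ht
      rw [triples_eq] at ht
      unfold adm at ht
      rw [Finset.mem_filter, mem_tri] at ht
      exact singularSeries_eq ht.1.2.1 ht.1.2.2
    have hP : ∑ t ∈ triples A, (primeTriples x (t.2.2 - t.2.1) (t.2.2 - t.1) : ℝ)
        = ∑ t ∈ adm B, (pi3 x (t.2.2 - t.2.1) (t.2.2 - t.1) : ℝ) := by
      rw [sum_translate A m hmle (fun d' d => (primeTriples x d' d : ℝ)), ← hB, ← triples_eq]
      rfl
    have hcard' : ε * (Real.log x) ^ 3 ≤ (B.card : ℝ) ^ 3 ∨ ε * (Real.log x) ^ 3 ≤ ∑ t ∈ adm B, sing3 t.1 t.2.1 t.2.2 := by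
      rw [hBcard, ← hS]
      exact hcard
    have h := hmain x hxX B hBle hcard'
    have hSnn : 0 ≤ ∑ t ∈ adm B, sing3 t.1 t.2.1 t.2.2 := by
      apply Finset.sum_nonneg
      intro t ht
      unfold adm at ht
      rw [Finset.mem_filter, mem_tri] at ht
      exact sing3_nonneg ht.1.2.1 ht.1.2.2
    rw [hP]
    have e1 : ∑ t ∈ triples A, singularSeries (t.2.2 - t.2.1) (t.2.2 - t.1) * x / (Real.log x) ^ 3
        = x / (Real.log x) ^ 3 * ∑ t ∈ adm B, sing3 t.1 t.2.1 t.2.2 := by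
      rw [← hS, Finset.mul_sum]
      apply Finset.sum_congr rfl
      intro t _
      ring
    rw [e1]
    exact h

end Pool.Agent.H39.MT
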