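/-
ROW SecLow. The second moment argument (abstract).
`t` runs over a finite set `Ω` with weights `ψ t ≥ 0`; `P t` is a set (the shifts `a` with a prime), `good H t` a property of
`K`-subsets `H` of `A` with `3 ≤ |H ∩ P t|`.
PROOF. Let `m = |A|`, `G t = |{H ∈ powersetCard K A | good H t}|` (real numbers).
(a) `∑ ψ t * G t = ∑_H ∑_t ψ t 1[good H t] ≥ C(m, K) c0 X ρ^K`, and `C(m, K) ≥ (m / 2)^K / K!` as `m ≥ 2 K` (`Nat.pow_le_choose K m : ((m + 1 - K : ℕ) : α) ^ K ≤ K ! * m.choose K`).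
(b) `∑ ψ t * G t ^ 2 = ∑_{H, H'} ∑_t ψ t 1[good H t ∧ good H' t] ≤ C0 X ∑_{H, H'} ρ^|H ∪ H'|`. The pairs with `H ∪ H' = U`: at most `4^|U|` (both are subsets of `U`), `K ≤ |U| ≤ 2K`,
  and there are `C(m, j) ≤ m^j` sets `U ⊆ A` with `j` elements. So `∑_{H,H'} ρ^|H ∪ H'| ≤ ∑_{j=K}^{2K} (4 m ρ)^j ≤ (K + 1) 16^K (m ρ)^K` since `m ρ ≤ 1`.
(c) `G t = 0` unless `3 ≤ |A ∩ P t|` (`H ∩ P t ⊆ A ∩ P t`), so by Cauchy-Schwarz (`Finset.sum_mul_sq_le_sq_mul_sq` / `inner_mul_le_norm_mul_norm`; terms `√ψ 1[3 ≤ |A ∩ P|]` and `√ψ G`):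
  `(∑ ψ G)² ≤ (∑ ψ 1[3 ≤ |A ∩ P t|]) (∑ ψ G²)`.
Hence `∑ ψ 1[3 ≤ ..] ≥ (c0 X ρ^K (m/2)^K / K!)² / (C0 X (K + 1) 16^K (m ρ)^K) = c0² X (m ρ)^K / (4^K K!² C0 (K + 1) 16^K)`.
(If the second factor is `0` then `∑ ψ G = 0`, against (a).)
-/
import Mathlib

set_option autoImplicit false

namespace Pool.Agent.H39.MT

open Finset

/-- the sum over one of the two sets -/
private theorem SecLow_inner (K : ℕ) {ρ : ℝ} (hρ : 0 < ρ) (A H : Finset ℕ) (hH : H ∈ A.powersetCard K)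
    (hm : ρ * A.card ≤ 1) :
    ∑ H' ∈ A.powersetCard K, ρ ^ (H ∪ H').card ≤ ρ ^ K * (2 ^ K * (K + 1)) := by
  classical
  obtain ⟨hHA, hHK⟩ := Finset.mem_powersetCard.mp hH
  set Ts : Finset (Finset ℕ) := A.powerset.filter (fun T => T.card ≤ K) with hTs
  have h1 : ∀ H' ∈ A.powersetCard K, ρ ^ (H ∪ H').card = ρ ^ K * ρ ^ (H' \ H).card := by
    intro H' _
    rw [← pow_add]
    congr 1
    rw [Finset.union_comm, ← Finset.card_sdiff_add_card, hHK, add_comm]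
  rw [Finset.sum_congr rfl h1, ← Finset.mul_sum]
  refine mul_le_mul_of_nonneg_left ?_ (by positivity)
  -- the injection
  have hinj : Set.InjOn (fun H' : Finset ℕ => (H' ∩ H, H' \ H)) (A.powersetCard K : Finset (Finset ℕ)) := by
    intro S _ S' _ h
    have h2 := congrArg Prod.fst h
    have h3 := congrArg Prod.snd h
    simp only at h2 h3
    rw [← Finset.sdiff_union_inter S H, ← Finset.sdiff_union_inter S' H, h2, h3]
  have h4 : ∑ H' ∈ A.powersetCard K, ρ ^ (H' \ H).card ≤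
      ∑ x ∈ H.powerset ×ˢ Ts, ρ ^ x.2.card := by
    have h5 : ∑ H' ∈ A.powersetCard K, ρ ^ (H' \ H).card =
        ∑ x ∈ (A.powersetCard K).image (fun H' : Finset ℕ => (H' ∩ H, H' \ H)), ρ ^ x.2.card :=
      (Finset.sum_image (f := fun x : Finset ℕ × Finset ℕ => ρ ^ x.2.card) hinj).symm
    rw [h5]
    refine Finset.sum_le_sum_of_subset_of_nonneg ?_ fun x _ _ => by positivity
    intro x hx
    obtain ⟨H', hH', rfl⟩ := Finset.mem_image.mp hx
    obtain ⟨hA', hK'⟩ := Finset.mem_powersetCard.mp hH'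
    refine Finset.mem_product.mpr ⟨Finset.mem_powerset.mpr Finset.inter_subset_right,
      Finset.mem_filter.mpr ⟨Finset.mem_powerset.mpr (Finset.sdiff_subset.trans hA'), ?_⟩⟩
    exact (Finset.card_le_card Finset.sdiff_subset).trans hK'.le
  refine h4.trans ?_
  rw [Finset.sum_product]
  simp only
  rw [Finset.sum_const, Finset.card_powerset, hHK, nsmul_eq_mul]
  push_cast
  refine mul_le_mul_of_nonneg_left ?_ (by positivity)
  have h6 : ∀ T ∈ Ts, T.card ∈ Finset.range (K + 1) := by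
    intro T hT
    exact Finset.mem_range.mpr (Nat.lt_succ_of_le (Finset.mem_filter.mp hT).2)
  rw [← Finset.sum_fiberwise_of_maps_to h6]
  have h7 : ∀ i ∈ Finset.range (K + 1), ∑ T ∈ Ts with T.card = i, ρ ^ T.card ≤ 1 := by
    intro i _
    have h8 : ∑ T ∈ Ts with T.card = i, ρ ^ T.card ≤ ∑ T ∈ A.powersetCard i, ρ ^ i := by
      have h9 : ∑ T ∈ Ts with T.card = i, ρ ^ T.card = ∑ T ∈ Ts with T.card = i, ρ ^ i :=
        Finset.sum_congr rfl fun T hT => by rw [(Finset.mem_filter.mp hT).2]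
      rw [h9]
      refine Finset.sum_le_sum_of_subset_of_nonneg ?_ fun x _ _ => by positivity
      intro T hT
      obtain ⟨hT1, hT2⟩ := Finset.mem_filter.mp hT
      exact Finset.mem_powersetCard.mpr
        ⟨Finset.mem_powerset.mp (Finset.mem_filter.mp hT1).1, hT2⟩
    refine h8.trans ?_
    rw [Finset.sum_const, Finset.card_powersetCard, nsmul_eq_mul]
    have h10 : ((A.card.choose i : ℕ) : ℝ) ≤ (A.card : ℝ) ^ i := by
      exact_mod_cast Nat.choose_le_pow A.card i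
    calc ((A.card.choose i : ℕ) : ℝ) * ρ ^ i ≤ (A.card : ℝ) ^ i * ρ ^ i :=
          mul_le_mul_of_nonneg_right h10 (by positivity)
      _ = (ρ * A.card) ^ i := by rw [← mul_pow, mul_comm]
      _ ≤ 1 := pow_le_one₀ (by positivity) hm
  refine (Finset.sum_le_sum h7).trans ?_
  simp

private theorem SecLow_pairs (K : ℕ) {ρ : ℝ} (hρ : 0 < ρ) (A : Finset ℕ) (hm : ρ * A.card ≤ 1) :
    ∑ H ∈ A.powersetCard K, ∑ H' ∈ A.powersetCard K, ρ ^ (H ∪ H').card ≤
      (K + 1) * 16 ^ K * (ρ * A.card) ^ K := by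
  classical
  refine (Finset.sum_le_sum fun H hH => SecLow_inner K hρ A H hH hm).trans ?_
  rw [Finset.sum_const, Finset.card_powersetCard, nsmul_eq_mul]
  have h10 : ((A.card.choose K : ℕ) : ℝ) ≤ (A.card : ℝ) ^ K := by
    exact_mod_cast Nat.choose_le_pow A.card K
  calc ((A.card.choose K : ℕ) : ℝ) * (ρ ^ K * (2 ^ K * (K + 1))) ≤
      (A.card : ℝ) ^ K * (ρ ^ K * (2 ^ K * (K + 1))) :=
        mul_le_mul_of_nonneg_right h10 (by positivity)
    _ = (K + 1) * 2 ^ K * (ρ * A.card) ^ K := by rw [mul_pow]; ring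
    _ ≤ (K + 1) * 16 ^ K * (ρ * A.card) ^ K := by
        refine mul_le_mul_of_nonneg_right (mul_le_mul_of_nonneg_left ?_ (by positivity))
          (by positivity)
        exact pow_le_pow_left₀ (by norm_num) (by norm_num) K

private theorem SecLow_choose {m K : ℕ} (h : 2 * K ≤ m) :
    ((m : ℝ) / 2) ^ K / K.factorial ≤ m.choose K := by
  have h1 : ((m + 1 - K : ℕ) : ℝ) ^ K / (K.factorial : ℝ) ≤ m.choose K := by
    have := Nat.pow_le_choose (α := ℝ) K m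
    push_cast at this
    exact this
  have h2 : (m : ℝ) / 2 ≤ ((m + 1 - K : ℕ) : ℝ) := by
    have h3 : m ≤ 2 * (m + 1 - K) := by omega
    have h4 : (m : ℝ) ≤ 2 * ((m + 1 - K : ℕ) : ℝ) := by exact_mod_cast h3
    linarith
  refine (div_le_div_of_nonneg_right (pow_le_pow_left₀ (by positivity) h2 K) (by positivity)).trans h1

theorem sec_low (K : ℕ) {c0 C0 : ℝ} (hc0 : 0 < c0) (hC0 : 0 < C0) :
    ∀ (Ω : Finset ℕ) (ψ : ℕ → ℝ) (A : Finset ℕ) (P : ℕ → Finset ℕ) (good : Finset ℕ → ℕ → Prop) (X ρ : ℝ),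
      (∀ t, 0 ≤ ψ t) → 0 < X → 0 < ρ → 2 * K ≤ A.card → ρ * A.card ≤ 1 →
      (∀ H ∈ A.powersetCard K, ∀ t, good H t → 3 ≤ (H ∩ P t).card) →
      (∀ H ∈ A.powersetCard K, c0 * X * ρ ^ K ≤ ∑ t ∈ Ω, ψ t * Set.indicator {t | good H t} 1 t) →
      (∀ H ∈ A.powersetCard K, ∀ H' ∈ A.powersetCard K,
        ∑ t ∈ Ω, ψ t * Set.indicator {t | good H t ∧ good H' t} 1 t ≤ C0 * X * ρ ^ (H ∪ H').card) →
      c0 ^ 2 / (4 ^ K * (K.factorial : ℝ) ^ 2 * C0 * (K + 1) * 16 ^ K) * X * (ρ * A.card) ^ K ≤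
        ∑ t ∈ Ω, ψ t * Set.indicator {t | 3 ≤ (A ∩ P t).card} 1 t := by
  classical
  intro Ω ψ A P good X ρ hψ hX hρ hK hm hgood hlow hup
  set Ps := A.powersetCard K with hPs
  set ind3 : ℕ → ℝ := Set.indicator {t | 3 ≤ (A ∩ P t).card} 1 with hind3
  set g : Finset ℕ → ℕ → ℝ := fun H => Set.indicator {t | good H t} 1 with hg
  set G : ℕ → ℝ := fun t => ∑ H ∈ Ps, g H t with hG
  have hg0 : ∀ H t, 0 ≤ g H t := fun H t => Set.indicator_nonneg (fun _ _ => zero_le_one) t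
  have hG0 : ∀ t, 0 ≤ G t := fun t => Finset.sum_nonneg fun H _ => hg0 H t
  have hi2 : ∀ t, ind3 t ^ 2 = ind3 t := by
    intro t
    rw [hind3, Set.indicator_apply]
    split_ifs <;> simp
  have hiG : ∀ t, ind3 t * G t = G t := by
    intro t
    rw [hind3, Set.indicator_apply]
    split_ifs with h
    · simp
    · rw [zero_mul]
      symm
      refine Finset.sum_eq_zero fun H hH => ?_
      rw [hg]
      simp only
      rw [Set.indicator_of_notMem]
      intro hgd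
      apply h
      have h1 := hgood H hH t hgd
      refine h1.trans (Finset.card_le_card (Finset.inter_subset_inter_right ?_))
      exact (Finset.mem_powersetCard.mp hH).1
  -- (a)
  have ha : (Ps.card : ℝ) * (c0 * X * ρ ^ K) ≤ ∑ t ∈ Ω, ψ t * G t := by
    have h1 : ∑ t ∈ Ω, ψ t * G t = ∑ H ∈ Ps, ∑ t ∈ Ω, ψ t * g H t := by
      rw [Finset.sum_comm]
      refine Finset.sum_congr rfl fun t _ => ?_
      rw [hG, Finset.mul_sum]
    rw [h1]
    have h2 := Finset.sum_le_sum (s := Ps) hlow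
    rw [Finset.sum_const, nsmul_eq_mul] at h2
    exact h2
  -- (b)
  have hb : ∑ t ∈ Ω, ψ t * G t ^ 2 ≤ C0 * X * ((K + 1) * 16 ^ K * (ρ * A.card) ^ K) := by
    have h1 : ∀ t, G t ^ 2 = ∑ H ∈ Ps, ∑ H' ∈ Ps,
        Set.indicator {t | good H t ∧ good H' t} (1 : ℕ → ℝ) t := by
      intro t
      rw [pow_two, hG, Finset.sum_mul_sum]
      refine Finset.sum_congr rfl fun H _ => Finset.sum_congr rfl fun H' _ => ?_
      rw [hg]
      simp only [Set.indicator_apply, Set.mem_ofPred_eq, Pi.one_apply]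
      by_cases h1 : good H t <;> by_cases h2 : good H' t <;> simp [h1, h2]
    have h2 : ∑ t ∈ Ω, ψ t * G t ^ 2 = ∑ H ∈ Ps, ∑ H' ∈ Ps, ∑ t ∈ Ω,
        ψ t * Set.indicator {t | good H t ∧ good H' t} (1 : ℕ → ℝ) t := by
      have h3 : ∀ t ∈ Ω, ψ t * G t ^ 2 = ∑ H ∈ Ps, ∑ H' ∈ Ps,
          ψ t * Set.indicator {t | good H t ∧ good H' t} (1 : ℕ → ℝ) t := by
        intro t _
        rw [h1, Finset.mul_sum]
        exact Finset.sum_congr rfl fun H _ => Finset.mul_sum _ _ _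
      rw [Finset.sum_congr rfl h3, Finset.sum_comm]
      exact Finset.sum_congr rfl fun H _ => Finset.sum_comm
    rw [h2]
    calc _ ≤ ∑ H ∈ Ps, ∑ H' ∈ Ps, C0 * X * ρ ^ (H ∪ H').card :=
          Finset.sum_le_sum fun H hH => Finset.sum_le_sum fun H' hH' => hup H hH H' hH'
      _ = C0 * X * ∑ H ∈ Ps, ∑ H' ∈ Ps, ρ ^ (H ∪ H').card := by
          rw [Finset.mul_sum]
          exact Finset.sum_congr rfl fun H _ => (Finset.mul_sum _ _ _).symm
      _ ≤ _ := mul_le_mul_of_nonneg_left (SecLow_pairs K hρ A hm) (by positivity)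
  -- (c)
  have hc : (∑ t ∈ Ω, ψ t * G t) ^ 2 ≤ (∑ t ∈ Ω, ψ t * ind3 t) * ∑ t ∈ Ω, ψ t * G t ^ 2 := by
    have h1 := Finset.sum_mul_sq_le_sq_mul_sq Ω (fun t => √(ψ t) * ind3 t) (fun t => √(ψ t) * G t)
    have h2 : ∀ t, √(ψ t) * ind3 t * (√(ψ t) * G t) = ψ t * G t := by
      intro t
      calc √(ψ t) * ind3 t * (√(ψ t) * G t) = (√(ψ t) * √(ψ t)) * (ind3 t * G t) := by ring
        _ = ψ t * G t := by rw [Real.mul_self_sqrt (hψ t), hiG]
    have h3 : ∀ t, (√(ψ t) * ind3 t) ^ 2 = ψ t * ind3 t := by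
      intro t
      rw [mul_pow, Real.sq_sqrt (hψ t), hi2]
    have h4 : ∀ t, (√(ψ t) * G t) ^ 2 = ψ t * G t ^ 2 := by
      intro t
      rw [mul_pow, Real.sq_sqrt (hψ t)]
    simp only [h2, h3, h4] at h1
    exact h1
  -- conclusion
  have hmK : 0 < (ρ * A.card) ^ K := by
    rcases Nat.eq_zero_or_pos K with h | h
    · rw [h, pow_zero]
      exact one_pos
    · have : (0 : ℝ) < A.card := by
        exact_mod_cast lt_of_lt_of_le (by omega) hK
      positivity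
  set S := ∑ t ∈ Ω, ψ t * ind3 t with hS
  have hS0 : 0 ≤ S := by
    refine Finset.sum_nonneg fun t _ => mul_nonneg (hψ t) ?_
    rw [← hi2]
    positivity
  have hfac : (0 : ℝ) < K.factorial := by exact_mod_cast Nat.factorial_pos K
  have hch : ((A.card : ℝ) / 2) ^ K / K.factorial ≤ Ps.card := by
    rw [hPs, Finset.card_powersetCard]
    exact SecLow_choose hK
  have hL : ((A.card : ℝ) / 2) ^ K / K.factorial * (c0 * X * ρ ^ K) ≤ ∑ t ∈ Ω, ψ t * G t :=
    (mul_le_mul_of_nonneg_right hch (by positivity)).trans ha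
  have hL2 : (((A.card : ℝ) / 2) ^ K / K.factorial * (c0 * X * ρ ^ K)) ^ 2 ≤
      S * (C0 * X * ((K + 1) * 16 ^ K * (ρ * A.card) ^ K)) := by
    refine (pow_le_pow_left₀ (by positivity) hL 2).trans (hc.trans ?_)
    exact mul_le_mul_of_nonneg_left hb hS0
  have hU : 0 < C0 * X * ((K + 1) * 16 ^ K * (ρ * A.card) ^ K) := by positivity
  refine le_of_mul_le_mul_right ?_ hU
  refine (le_of_eq ?_).trans hL2
  have e1 : (4 : ℝ) ^ K = (2 ^ K) ^ 2 := by
    rw [← pow_mul, mul_comm, pow_mul]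
    norm_num
  have hK1 : (0 : ℝ) < (K : ℝ) + 1 := by positivity
  have h16 : (0 : ℝ) < 16 ^ K := by positivity
  have h2K : (0 : ℝ) < 2 ^ K := by positivity
  rw [e1, div_pow, mul_pow ρ (A.card : ℝ) K]
  field_simp

end Pool.Agent.H39.MT
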