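/-
ROW Sub. The second moment argument for dense sets: subsampling.
PROOF. Let `c1 = c0 ^ 2 / (4 ^ K * K!² * C0 * (K + 1) * 16 ^ K)` (constant of `sec_low`), `m = |A|`, `e = ρ m`; `c = c1 * min (2^(-K)) (e0 ^ K)` (w.l.o.g. use `min e0 1` for `e0`).
Case `e ≤ 1`: `m ≥ e0/ρ ≥ 2K` as `ρ ≤ ρ0 := min (1/(4 K + 8)) (e0/(2 K + 1))`; `sec_low` and `1[3 ≤ N] ≤ C(N, 3)` give
  `∑ ψ C(|A ∩ P t|, 3) ≥ c1 X e^K ≥ c1 X e^3 e0^K` (`e^K = e^3 e^(K-3)`, `e^(K-3) ≥ e0^(K-3) ≥ e0^K` if `e0 ≤ 1`; `3 ≤ K`).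
Case `e > 1`: put `m' = ⌊1/ρ⌋₊`; then `1/2 ≤ ρ m' ≤ 1`, `m' ≥ 2K`, `m' ≥ 3`, `m' ≤ m`. For each `A' ∈ powersetCard m' A`: `sec_low` for `A'` (its hypotheses are inherited) gives
  `∑ ψ C(|A' ∩ P t|, 3) ≥ c1 X (ρ m')^K ≥ c1 X 2^(-K)`.
  Sum over `A'`: for each `t`, `∑_{A'} C(|A' ∩ P t|, 3) = C(|A ∩ P t|, 3) C(m - 3, m' - 3)` (count the pairs (3-subset `τ` of `A ∩ P t`, `A' ⊇ τ`): `τ` lies in `C(m - 3, m' - 3)` sets `A'`).
  So `C(m - 3, m' - 3) ∑ ψ C(|A ∩ P t|, 3) ≥ C(m, m') c1 X 2^(-K)`, and `C(m, m') C(m', 3) = C(m, 3) C(m - 3, m' - 3)` (`Nat.choose_mul`), so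
  `∑ ψ C(|A ∩ P t|, 3) ≥ (C(m, 3)/C(m', 3)) c1 X 2^(-K)`, and `C(m,3)/C(m',3) = m(m-1)(m-2)/(m'(m'-1)(m'-2)) ≥ (m/m')^3 ≥ (ρ m)^3 = e^3` (`m ≥ m' ≥ 3`, `m' ≤ 1/ρ`).
-/
import Pool.Agent.H39.MT.SecLow

set_option autoImplicit false

namespace Pool.Agent.H39.MT

open Finset

theorem Sub_count (A τ : Finset ℕ) (hτ : τ ⊆ A) (h3 : τ.card = 3) {m' : ℕ} (hm : 3 ≤ m') :
    ((A.powersetCard m').filter (fun A' => τ ⊆ A')).card = (A.card - 3).choose (m' - 3) := by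
  have h1 : (A \ τ).card = A.card - 3 := by rw [card_sdiff_of_subset hτ, h3]
  rw [← h1, ← card_powersetCard]
  refine card_bij' (fun A' _ => A' \ τ) (fun B _ => B ∪ τ) ?_ ?_ ?_ ?_
  · intro A' hA'
    rw [mem_filter, mem_powersetCard] at hA'
    rw [mem_powersetCard]
    refine ⟨sdiff_subset_sdiff hA'.1.1 subset_rfl, ?_⟩
    rw [card_sdiff_of_subset hA'.2, h3, hA'.1.2]
  · intro B hB
    rw [mem_powersetCard] at hB
    have hd : Disjoint B τ := by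
      refine disjoint_of_subset_left hB.1 ?_
      exact sdiff_disjoint
    rw [mem_filter, mem_powersetCard]
    refine ⟨⟨union_subset (hB.1.trans sdiff_subset) hτ, ?_⟩, subset_union_right⟩
    rw [card_union_of_disjoint hd, hB.2, h3]
    omega
  · intro A' hA'
    rw [mem_filter, mem_powersetCard] at hA'
    exact sdiff_union_of_subset hA'.2
  · intro B hB
    rw [mem_powersetCard] at hB
    have hd : Disjoint B τ := by
      refine disjoint_of_subset_left hB.1 ?_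
      exact sdiff_disjoint
    show (B ∪ τ) \ τ = B
    rw [union_sdiff_right]
    exact sdiff_eq_self_of_disjoint hd

/-- the number of `m'`-subsets of `A` containing a given 3-subset, summed over the 3-subsets of `B` -/
theorem sum_choose_sub (A B : Finset ℕ) {m' : ℕ} (hm : 3 ≤ m') :
    ∑ A' ∈ A.powersetCard m', (A' ∩ B).card.choose 3 = (A ∩ B).card.choose 3 * (A.card - 3).choose (m' - 3) := by
  have h1 : ∀ A' ∈ A.powersetCard m', (A' ∩ B).card.choose 3 =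
      ∑ τ ∈ (A ∩ B).powersetCard 3, if τ ⊆ A' then 1 else 0 := by
    intro A' hA'
    rw [mem_powersetCard] at hA'
    rw [← card_powersetCard, ← card_filter]
    congr 1
    ext τ
    simp only [mem_powersetCard, mem_filter]
    constructor
    · rintro ⟨ha, hb⟩
      exact ⟨⟨ha.trans (inter_subset_inter_right hA'.1), hb⟩, ha.trans inter_subset_left⟩
    · rintro ⟨⟨ha, hb⟩, hc⟩
      exact ⟨subset_inter hc (ha.trans inter_subset_right), hb⟩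
  rw [sum_congr rfl h1, sum_comm]
  have h2 : ∀ τ ∈ (A ∩ B).powersetCard 3,
      ∑ A' ∈ A.powersetCard m', (if τ ⊆ A' then 1 else 0) = (A.card - 3).choose (m' - 3) := by
    intro τ hτ
    rw [mem_powersetCard] at hτ
    rw [← card_filter]
    exact Sub_count A τ (hτ.1.trans inter_subset_left) hτ.2 hm
  rw [sum_congr rfl h2, sum_const, card_powersetCard, smul_eq_mul]

theorem Sub_ch3 (n : ℕ) : ((n.choose 3 : ℕ) : ℝ) = n * (n - 1) * (n - 2) / 6 := by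
  induction n with
  | zero => simp
  | succ n ih =>
    rw [Nat.choose_succ_succ' n 2]
    push_cast
    rw [ih, Nat.cast_choose_two]
    ring

theorem Sub_ratio {m m' : ℕ} (h3 : 3 ≤ m') (hm : m' ≤ m) :
    (m' : ℝ) ^ 3 * (m.choose 3 : ℝ) ≥ (m : ℝ) ^ 3 * (m'.choose 3 : ℝ) := by
  rw [Sub_ch3, Sub_ch3]
  have ha : (3 : ℝ) ≤ m' := by exact_mod_cast h3
  have hb : (m' : ℝ) ≤ m := by exact_mod_cast hm
  have h1 : ((m' : ℝ) - 1) * m ≤ (m - 1) * m' := by nlinarith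
  have h2 : ((m' : ℝ) - 2) * m ≤ (m - 2) * m' := by nlinarith
  have h4 : (((m' : ℝ) - 1) * m) * (((m' : ℝ) - 2) * m) ≤ ((m - 1) * m') * ((m - 2) * m') :=
    mul_le_mul h1 h2 (by apply mul_nonneg <;> linarith) (by apply mul_nonneg <;> linarith)
  have h5 : 0 ≤ (m : ℝ) * m' := by positivity
  have h6 := mul_le_mul_of_nonneg_left h4 h5
  have e1 : (m : ℝ) ^ 3 * (m' * (m' - 1) * (m' - 2) / 6) =
      (m : ℝ) * m' * ((((m' : ℝ) - 1) * m) * (((m' : ℝ) - 2) * m)) / 6 := by ring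
  have e2 : (m' : ℝ) ^ 3 * (m * (m - 1) * (m - 2) / 6) =
      (m : ℝ) * m' * (((m - 1) * m') * ((m - 2) * m')) / 6 := by ring
  rw [e1, e2]
  show _ ≤ _
  linarith

theorem Sub_ind (n : ℕ) {s : Set ℕ} {t : ℕ} (h : t ∈ s → 3 ≤ n) :
    Set.indicator s (1 : ℕ → ℝ) t ≤ (n.choose 3 : ℝ) := by
  by_cases ht : t ∈ s
  · rw [Set.indicator_of_mem ht]
    have : 1 ≤ n.choose 3 := Nat.choose_pos (h ht)
    show (1 : ℝ) ≤ _
    exact_mod_cast this
  · rw [Set.indicator_of_notMem ht]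
    positivity

theorem sub_low (K : ℕ) (hK : 3 ≤ K) {c0 C0 e0 : ℝ} (hc0 : 0 < c0) (hC0 : 0 < C0) (he0 : 0 < e0) :
    ∃ c ρ0 : ℝ, 0 < c ∧ 0 < ρ0 ∧
    ∀ (Ω : Finset ℕ) (ψ : ℕ → ℝ) (A : Finset ℕ) (P : ℕ → Finset ℕ) (good : Finset ℕ → ℕ → Prop) (X ρ : ℝ),
      (∀ t, 0 ≤ ψ t) → 0 < X → 0 < ρ → ρ ≤ ρ0 → e0 ≤ ρ * A.card →
      (∀ H ∈ A.powersetCard K, ∀ t, good H t → 3 ≤ (H ∩ P t).card) →
      (∀ H ∈ A.powersetCard K, c0 * X * ρ ^ K ≤ ∑ t ∈ Ω, ψ t * Set.indicator {t | good H t} 1 t) →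
      (∀ H ∈ A.powersetCard K, ∀ H' ∈ A.powersetCard K,
        ∑ t ∈ Ω, ψ t * Set.indicator {t | good H t ∧ good H' t} 1 t ≤ C0 * X * ρ ^ (H ∪ H').card) →
      c * X * (ρ * A.card) ^ 3 ≤ ∑ t ∈ Ω, ψ t * ((A ∩ P t).card.choose 3 : ℝ) := by
  obtain ⟨c1, hc1e⟩ : ∃ c1 : ℝ, c1 = c0 ^ 2 / (4 ^ K * (K.factorial : ℝ) ^ 2 * C0 * (K + 1) * 16 ^ K) :=
    ⟨_, rfl⟩
  have hc1 : 0 < c1 := by rw [hc1e]; positivity
  obtain ⟨e1, he1e⟩ : ∃ e1 : ℝ, e1 = min e0 1 := ⟨_, rfl⟩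
  have he1 : 0 < e1 := by rw [he1e]; exact lt_min he0 one_pos
  have he11 : e1 ≤ 1 := by rw [he1e]; exact min_le_right _ _
  have he10 : e1 ≤ e0 := by rw [he1e]; exact min_le_left _ _
  refine ⟨c1 * min ((1 / 2) ^ K) (e1 ^ K), min (1 / (4 * K + 8)) (e1 / (2 * K + 1)),
    by positivity, by positivity, ?_⟩
  intro Ω ψ A P good X ρ hψ hX hρ hρ0 he hg hlow hup
  have hr1 : ρ ≤ 1 / (4 * K + 8) := hρ0.trans (min_le_left _ _)
  have hr2 : ρ ≤ e1 / (2 * K + 1) := hρ0.trans (min_le_right _ _)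
  have key : ∀ A' ⊆ A, 2 * K ≤ A'.card → ρ * A'.card ≤ 1 →
      c1 * X * (ρ * A'.card) ^ K ≤ ∑ t ∈ Ω, ψ t * ((A' ∩ P t).card.choose 3 : ℝ) := by
    intro A' hA' h2 h3
    have hsub : ∀ H ∈ A'.powersetCard K, H ∈ A.powersetCard K := by
      intro H hH
      rw [mem_powersetCard] at hH ⊢
      exact ⟨hH.1.trans hA', hH.2⟩
    have h4 := sec_low K hc0 hC0 Ω ψ A' P good X ρ hψ hX hρ h2 h3
      (fun H hH => hg H (hsub H hH)) (fun H hH => hlow H (hsub H hH))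
      (fun H hH H' hH' => hup H (hsub H hH) H' (hsub H' hH'))
    rw [← hc1e] at h4
    refine h4.trans (sum_le_sum fun t _ => ?_)
    exact mul_le_mul_of_nonneg_left (Sub_ind _ (fun h => h)) (hψ t)
  rcases le_or_gt (ρ * A.card) 1 with hle | hgt
  · -- case e ≤ 1
    have h2K : 2 * K ≤ A.card := by
      have h1 : ρ * (2 * K + 1) ≤ e1 := by
        rwa [le_div_iff₀ (by positivity)] at hr2
      have h2 : ρ * (2 * K + 1) ≤ ρ * A.card := h1.trans (he10.trans he)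
      have h3 : ((2 * K + 1 : ℕ) : ℝ) ≤ A.card := by
        push_cast
        exact le_of_mul_le_mul_left h2 hρ
      have h4 : 2 * K + 1 ≤ A.card := by exact_mod_cast h3
      omega
    have h5 := key A subset_rfl h2K hle
    refine le_trans ?_ h5
    have he' : e1 ≤ ρ * A.card := he10.trans he
    have h6 : e1 ^ K ≤ (ρ * A.card) ^ (K - 3) :=
      (pow_le_pow_of_le_one he1.le he11 (Nat.sub_le K 3)).trans (pow_le_pow_left₀ he1.le he' _)
    have h7 : (ρ * A.card) ^ K = (ρ * A.card) ^ (K - 3) * (ρ * A.card) ^ 3 := by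
      rw [← pow_add]; congr 1; omega
    rw [h7]
    have h8 : min ((1 / 2 : ℝ) ^ K) (e1 ^ K) ≤ (ρ * A.card) ^ (K - 3) := (min_le_right _ _).trans h6
    have h9 : (0 : ℝ) ≤ c1 * X * (ρ * A.card) ^ 3 := by positivity
    nlinarith [mul_le_mul_of_nonneg_left h8 h9]
  · -- case e > 1
    obtain ⟨m', hm'⟩ : ∃ m' : ℕ, m' = ⌊1 / ρ⌋₊ := ⟨_, rfl⟩
    have hpos : 0 < 1 / ρ := by positivity
    have hf1 : (m' : ℝ) ≤ 1 / ρ := by rw [hm']; exact Nat.floor_le hpos.le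
    have hf2 : 1 / ρ < m' + 1 := by rw [hm']; exact Nat.lt_floor_add_one _
    have hf3 : 4 * K + 8 ≤ m' := by
      rw [hm']
      apply Nat.le_floor
      push_cast
      rw [le_div_iff₀ hρ]
      rw [le_div_iff₀ (by positivity)] at hr1
      linarith
    have hρ8 : ρ ≤ 1 / 2 := by
      refine hr1.trans ?_
      rw [div_le_div_iff₀ (by positivity) (by norm_num)]
      have : (0 : ℝ) ≤ K := by positivity
      linarith
    have hρm1 : ρ * m' ≤ 1 := by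
      rw [le_div_iff₀ hρ] at hf1; linarith
    have hρm2 : 1 / 2 ≤ ρ * m' := by
      rw [div_lt_iff₀ hρ] at hf2; nlinarith
    have hmm : m' ≤ A.card := by
      have h1 : (m' : ℝ) ≤ A.card := by
        have h2 : 1 / ρ ≤ A.card := by rw [div_le_iff₀ hρ]; linarith
        exact hf1.trans h2
      exact_mod_cast h1
    have h1 : ∀ A' ∈ A.powersetCard m',
        c1 * X * (1 / 2) ^ K ≤ ∑ t ∈ Ω, ψ t * ((A' ∩ P t).card.choose 3 : ℝ) := by
      intro A' hA'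
      rw [mem_powersetCard] at hA'
      have h2 := key A' hA'.1 (by rw [hA'.2]; omega) (by rw [hA'.2]; exact hρm1)
      rw [hA'.2] at h2
      refine le_trans ?_ h2
      exact mul_le_mul_of_nonneg_left (pow_le_pow_left₀ (by norm_num) hρm2 K) (by positivity)
    have h2 := sum_le_sum h1
    rw [sum_const, card_powersetCard, nsmul_eq_mul, sum_comm] at h2
    have h3 : ∑ t ∈ Ω, ∑ A' ∈ A.powersetCard m', ψ t * ((A' ∩ P t).card.choose 3 : ℝ) =
        (∑ t ∈ Ω, ψ t * ((A ∩ P t).card.choose 3 : ℝ)) * ((A.card - 3).choose (m' - 3) : ℝ) := by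
      rw [sum_mul]
      refine sum_congr rfl fun t _ => ?_
      rw [← mul_sum, mul_assoc]
      congr 1
      have := sum_choose_sub A (P t) (m' := m') (by omega)
      exact_mod_cast this
    rw [h3] at h2
    obtain ⟨S, hS⟩ : ∃ S : ℝ, S = ∑ t ∈ Ω, ψ t * ((A ∩ P t).card.choose 3 : ℝ) := ⟨_, rfl⟩
    rw [← hS] at h2 ⊢
    have hS0 : 0 ≤ S := by
      rw [hS]; exact sum_nonneg fun t _ => mul_nonneg (hψ t) (by positivity)
    have h4 : (A.card.choose m' : ℝ) * (m'.choose 3 : ℝ) =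
        (A.card.choose 3 : ℝ) * ((A.card - 3).choose (m' - 3) : ℝ) := by
      have := Nat.choose_mul (n := A.card) (k := m') (s := 3) (by omega)
      exact_mod_cast this
    have hD : (0 : ℝ) < ((A.card - 3).choose (m' - 3) : ℝ) := by
      exact_mod_cast Nat.choose_pos (by omega)
    have hC3 : (0 : ℝ) < (m'.choose 3 : ℝ) := by
      exact_mod_cast Nat.choose_pos (by omega)
    -- S * C(m',3) ≥ C(m,3) c1 X 2^-K
    have h5 : (A.card.choose 3 : ℝ) * (c1 * X * (1 / 2) ^ K) ≤ S * (m'.choose 3 : ℝ) := by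
      have h6 := mul_le_mul_of_nonneg_right h2 hC3.le
      have h7 : (A.card.choose m' : ℝ) * (c1 * X * (1 / 2) ^ K) * (m'.choose 3 : ℝ) =
          (A.card.choose 3 : ℝ) * (c1 * X * (1 / 2) ^ K) * ((A.card - 3).choose (m' - 3) : ℝ) := by
        calc _ = ((A.card.choose m' : ℝ) * (m'.choose 3 : ℝ)) * (c1 * X * (1 / 2) ^ K) := by ring
          _ = _ := by rw [h4]; ring
      rw [h7] at h6
      have h8 : S * ((A.card - 3).choose (m' - 3) : ℝ) * (m'.choose 3 : ℝ) =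
          S * (m'.choose 3 : ℝ) * ((A.card - 3).choose (m' - 3) : ℝ) := by ring
      rw [h8] at h6
      exact le_of_mul_le_mul_right h6 hD
    have h6 := Sub_ratio (m := A.card) (m' := m') (by omega) hmm
    -- m'^3 C(m,3) ≥ m^3 C(m',3)
    have hB : (0 : ℝ) ≤ c1 * X * (1 / 2) ^ K := by positivity
    have h7 : (A.card : ℝ) ^ 3 * (m'.choose 3 : ℝ) * (c1 * X * (1 / 2) ^ K) ≤
        (m' : ℝ) ^ 3 * (S * (m'.choose 3 : ℝ)) := by
      have h8 := mul_le_mul_of_nonneg_right h6 hB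
      have h9 := mul_le_mul_of_nonneg_left h5 (by positivity : (0 : ℝ) ≤ (m' : ℝ) ^ 3)
      calc _ ≤ (m' : ℝ) ^ 3 * (A.card.choose 3 : ℝ) * (c1 * X * (1 / 2) ^ K) := h8
        _ = (m' : ℝ) ^ 3 * ((A.card.choose 3 : ℝ) * (c1 * X * (1 / 2) ^ K)) := by ring
        _ ≤ _ := h9
    have h8 : (A.card : ℝ) ^ 3 * (c1 * X * (1 / 2) ^ K) ≤ (m' : ℝ) ^ 3 * S := by
      have e1 : (A.card : ℝ) ^ 3 * (m'.choose 3 : ℝ) * (c1 * X * (1 / 2) ^ K) =
        (A.card : ℝ) ^ 3 * (c1 * X * (1 / 2) ^ K) * (m'.choose 3 : ℝ) := by ring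
      have e2 : (m' : ℝ) ^ 3 * (S * (m'.choose 3 : ℝ)) = (m' : ℝ) ^ 3 * S * (m'.choose 3 : ℝ) := by ring
      rw [e1, e2] at h7
      exact le_of_mul_le_mul_right h7 hC3
    have h9 : (ρ * A.card) ^ 3 * (c1 * X * (1 / 2) ^ K) ≤ S := by
      have h10 := mul_le_mul_of_nonneg_left h8 (by positivity : (0 : ℝ) ≤ ρ ^ 3)
      have h11 : ρ ^ 3 * ((m' : ℝ) ^ 3 * S) ≤ S := by
        have h12 : (ρ * m') ^ 3 ≤ 1 := pow_le_one₀ (by positivity) hρm1
        have h13 : ρ ^ 3 * ((m' : ℝ) ^ 3 * S) = (ρ * m') ^ 3 * S := by ring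
        rw [h13]
        nlinarith
      calc _ = ρ ^ 3 * ((A.card : ℝ) ^ 3 * (c1 * X * (1 / 2) ^ K)) := by ring
        _ ≤ _ := h10.trans h11
    refine le_trans ?_ h9
    have h10 : min ((1 / 2 : ℝ) ^ K) (e1 ^ K) ≤ (1 / 2) ^ K := min_le_left _ _
    have h11 : (0 : ℝ) ≤ c1 * X * (ρ * A.card) ^ 3 := by positivity
    nlinarith [mul_le_mul_of_nonneg_left h10 h11]

end Pool.Agent.H39.MT
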