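/-
ROW LocA. From the sieve bounds to one residue class.
PROOF. Let `K, δ, B, c1, X1` be as in `MTLow φ` and `C_j, X_j` (`j ≤ 2 K`) the constants of `UBd φ B` for `j` and `δ`; `C0 = 1 + ∑_{j ≤ 2K} C_j`; `c, ρ0` from `sub_low K c1 C0 e0`.
For large `x` take `P` from `MTLow`; `W = WS (yy x) P`, `L = log x`, `y = yy x`, `z = ⌊x^δ⌋₊`. Given `A` and `v < W` put `Av = {a ∈ A | (v + a).Coprime W}` (`mt A W v = Av.card` by definition).
Apply `sub_low` with `Ω = range (⌊x/W⌋₊ + 1)`, `ψ t = φ (2 W t/x)` (`≥ 0`), the set `Av`, `P t = Av.filter (fun a => (W t + v + a).Prime)`, `good H t = Gd y P z H (W t + v)`, `X = x/W`, `ρ = rho x W`: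
* `ρ ≤ ρ0`: `ρ ≤ W/L` (`φ(W) ≥ 1`) and `W^34 ≤ √L` (`WW_yy_pow_le`, `ws_le`), so `ρ ≤ 1/√L` for large `x`.
* `3 ≤ |H ∩ P t|`: `H ⊆ Av`, so `H ∩ P t ⊇ H.filter (prime)`; first part of `Gd` (`n + h = W t + v + h`).
* first moment: `MTLow` (all `h ∈ H ⊆ Av` satisfy `h ≤ L^2` and are coprime).
* second moment: if `good H t` and `good H' t` then all `h ∈ U = H ∪ H'` satisfy `Clean (QH y P U) z (W t + v + h)`, because `dif H ∣ dif U` (`dif_dvd`), so `QH y P H ∣ QH y P U`; use `UBd` for `U` with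
  `j = |U| ≤ 2 K` (`|H ∪ H'| ≤ |H| + |H'|`) and `C_j ≤ C0`.
Conclusion: `c (x/W) (ρ m_v)^3 ≤ ∑_t φ(2 W t/x) C(|Av ∩ P t|, 3)`. If `φ(2 W t/x) ≠ 0` then `1/2 < 2 W t/x < 3/2` (Wt.zero), so `1 ≤ W t + v ≤ 3x/4 + W ≤ M := ⌊x⌋₊ - ⌊L^2⌋₊` for large `x`, and
`C(|Av ∩ P t|,3) ≤ C(NN A (W t + v), 3)`, `φ ≤ 1`. The map `t ↦ W t + v` is injective into `{n ∈ Icc 1 M | n % W = v}`.
-/
import Pool.Agent.H39.MT.FinA
import Pool.Agent.H39.MT.Sub

set_option autoImplicit false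

namespace Pool.Agent.H39.MT

open Pool.Agent.H17 Filter EG

/-- lower bound for the number of good `n ≡ v mod W` (weighted) -/
def MTLow (φ : ℝ → ℝ) (B : ℕ) : Prop :=
  ∃ (K : ℕ) (δ c X : ℝ), 3 ≤ K ∧ 0 < δ ∧ 0 < c ∧ ∀ x : ℝ, X ≤ x → ∃ P : ℕ, P.Prime ∧ 100 < P ∧ (P : ℝ) ≤ Real.log x ^ B ∧
    ∀ v < WS (yy x) P, ∀ H : Finset ℕ, H.card = K → (∀ h ∈ H, (h : ℝ) ≤ (Real.log x) ^ 2) →
      (∀ h ∈ H, (v + h).Coprime (WS (yy x) P)) →
      c * (x / (WS (yy x) P : ℝ)) * rho x (WS (yy x) P) ^ K ≤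
        ∑ t ∈ Finset.range (⌊x / (WS (yy x) P : ℝ)⌋₊ + 1), φ (2 * (WS (yy x) P : ℝ) * t / x) *
          Set.indicator {t : ℕ | Gd (yy x) P ⌊x ^ δ⌋₊ H (WS (yy x) P * t + v)} 1 t

/-- upper bound for the number of clean `n ≡ v mod W` (weighted) -/
def UBd (φ : ℝ → ℝ) (B : ℕ) : Prop :=
  ∀ (j : ℕ) (δ : ℝ), 0 < δ → ∃ C X : ℝ, ∀ x : ℝ, X ≤ x → ∀ P : ℕ, P.Prime → 100 < P → (P : ℝ) ≤ Real.log x ^ B →
    ∀ v < WS (yy x) P, ∀ H : Finset ℕ, H.card = j → (∀ h ∈ H, (h : ℝ) ≤ (Real.log x) ^ 2) →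
      (∀ h ∈ H, (v + h).Coprime (WS (yy x) P)) →
      ∑ t ∈ Finset.range (⌊x / (WS (yy x) P : ℝ)⌋₊ + 1), φ (2 * (WS (yy x) P : ℝ) * t / x) *
          Set.indicator {t : ℕ | ∀ h ∈ H, Clean (QH (yy x) P H) ⌊x ^ δ⌋₊ (WS (yy x) P * t + v + h)} 1 t ≤
        C * (x / (WS (yy x) P : ℝ)) * rho x (WS (yy x) P) ^ j

theorem dif_dvd {H U : Finset ℕ} (h : H ⊆ U) : dif H ∣ dif U := by
  unfold dif
  refine dvd_trans (Finset.prod_dvd_prod_of_dvd _ _ fun a _ => ?_) (Finset.prod_dvd_prod_of_subset _ _ _ h)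
  exact Finset.prod_dvd_prod_of_subset _ _ _ (Finset.filter_subset_filter _ h)

theorem locA_clean {Q Q' z m : ℕ} (h : Q ∣ Q') (hc : Clean Q z m) : Clean Q' z m :=
  fun p hp hz hm => (hc p hp hz hm).trans h

theorem locA_QH (y P : ℕ) {H U : Finset ℕ} (h : H ⊆ U) : QH y P H ∣ QH y P U :=
  Nat.mul_dvd_mul_left _ (dif_dvd h)

/-- the last step: from the weighted sum over `t` to the sum over `n` -/
theorem locA_last {φ : ℝ → ℝ} (hφ : Wt (1 / 2) φ) {x : ℝ} (hx : 0 < x) (A : Finset ℕ) {W v M : ℕ} (hW : 0 < W)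
    (hv : v < W) (hM : 3 * x / 4 + W ≤ M) (T : Finset ℕ) (Q : ℕ → Finset ℕ)
    (hQ : ∀ t, Q t ⊆ A.filter (fun a => (W * t + v + a).Prime)) :
    ∑ t ∈ T, φ (2 * (W : ℝ) * t / x) * ((Q t).card.choose 3 : ℝ) ≤
      ∑ n ∈ (Finset.Icc 1 M).filter (fun n => n % W = v), ((NN A n).choose 3 : ℝ) := by
  classical
  have hstep : ∀ t ∈ T, φ (2 * (W : ℝ) * t / x) * ((Q t).card.choose 3 : ℝ) ≤
      if φ (2 * (W : ℝ) * t / x) ≠ 0 then ((NN A (W * t + v)).choose 3 : ℝ) else 0 := by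
    intro t _
    split_ifs with h0
    · have a1 : ((Q t).card.choose 3 : ℝ) ≤ ((NN A (W * t + v)).choose 3 : ℝ) := by
        exact_mod_cast Nat.choose_le_choose 3 (Finset.card_le_card (hQ t))
      have a2 := hφ.le_one (2 * (W : ℝ) * t / x)
      have a3 := hφ.nonneg (2 * (W : ℝ) * t / x)
      calc φ (2 * (W : ℝ) * t / x) * ((Q t).card.choose 3 : ℝ) ≤ 1 * ((Q t).card.choose 3 : ℝ) :=
            mul_le_mul_of_nonneg_right a2 (Nat.cast_nonneg _)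
        _ ≤ _ := by rw [one_mul]; exact a1
    · rw [not_not] at h0
      rw [h0, zero_mul]
  refine (Finset.sum_le_sum hstep).trans ?_
  rw [← Finset.sum_filter]
  have hinj : Set.InjOn (fun t : ℕ => W * t + v) (T.filter fun t : ℕ => φ (2 * (W : ℝ) * t / x) ≠ 0) := by
    intro s _ t _ hst
    have : W * s = W * t := by
      have h' : W * s + v = W * t + v := hst
      omega
    exact Nat.eq_of_mul_eq_mul_left hW this
  rw [← Finset.sum_image (f := fun n : ℕ => ((NN A n).choose 3 : ℝ)) hinj]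
  refine Finset.sum_le_sum_of_subset_of_nonneg ?_ fun n _ _ => Nat.cast_nonneg _
  intro n hn
  rw [Finset.mem_image] at hn
  obtain ⟨t, ht, rfl⟩ := hn
  rw [Finset.mem_filter] at ht
  have habs : |2 * (W : ℝ) * t / x - 1| < 1 / 2 := by
    by_contra hcon
    exact ht.2 (hφ.zero _ (not_lt.mp hcon))
  rw [abs_lt] at habs
  obtain ⟨b1, b2⟩ := habs
  have b3 : 1 / 2 < 2 * (W : ℝ) * t / x := by linarith
  have b4 : 2 * (W : ℝ) * t / x < 3 / 2 := by linarith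
  rw [lt_div_iff₀ hx] at b3
  rw [div_lt_iff₀ hx] at b4
  have b5 : (0 : ℝ) < (W : ℝ) * t := by linarith
  have b6 : 0 < W * t := by exact_mod_cast b5
  rw [Finset.mem_filter, Finset.mem_Icc]
  refine ⟨⟨by omega, ?_⟩, ?_⟩
  · have hv' : (v : ℝ) ≤ W := by exact_mod_cast hv.le
    have : ((W * t + v : ℕ) : ℝ) ≤ (M : ℝ) := by
      push_cast
      linarith
    exact_mod_cast this
  · show (W * t + v) % W = v
    rw [Nat.mul_add_mod, Nat.mod_eq_of_lt hv]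

theorem locA_rho {x ρ0 : ℝ} {W : ℕ} (hW : 0 < W) (hL : 1 ≤ Real.log x) (hW2 : (W : ℝ) ≤ Real.sqrt (Real.log x))
    (hρ : 1 / ρ0 ≤ Real.sqrt (Real.log x)) (hρ0 : 0 < ρ0) : 0 < rho x W ∧ rho x W ≤ ρ0 := by
  have hL0 : 0 < Real.log x := by linarith
  have hs : 0 < Real.sqrt (Real.log x) := Real.sqrt_pos.mpr hL0
  have ht : 0 < W.totient := Nat.totient_pos.mpr hW
  have ht1 : (1 : ℝ) ≤ (W.totient : ℝ) := by exact_mod_cast ht
  have hW0 : (0 : ℝ) < W := by exact_mod_cast hW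
  unfold rho
  refine ⟨by positivity, ?_⟩
  have hs2 : Real.sqrt (Real.log x) * Real.sqrt (Real.log x) = Real.log x := Real.mul_self_sqrt hL0.le
  have h1 : 1 ≤ ρ0 * Real.sqrt (Real.log x) := by
    rw [div_le_iff₀ hρ0] at hρ
    linarith
  rw [div_le_iff₀ (by positivity)]
  calc (W : ℝ) ≤ 1 * Real.sqrt (Real.log x) := by linarith
    _ ≤ (ρ0 * Real.sqrt (Real.log x)) * Real.sqrt (Real.log x) := mul_le_mul_of_nonneg_right h1 hs.le
    _ = ρ0 * (1 * Real.log x) := by rw [mul_assoc, hs2, one_mul]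
    _ ≤ ρ0 * ((W.totient : ℝ) * Real.log x) := by
        refine mul_le_mul_of_nonneg_left ?_ hρ0.le
        exact mul_le_mul_of_nonneg_right ht1 hL0.le

theorem locA_W {x : ℝ} (hL : 1 ≤ Real.log x) (P : ℕ) : ((WS (yy x) P : ℕ) : ℝ) ≤ Real.sqrt (Real.log x) := by
  have h1 : ((WS (yy x) P : ℕ) : ℝ) ≤ ((WW (yy x) : ℕ) : ℝ) := by exact_mod_cast ws_le _ _
  have h2 : (1 : ℝ) ≤ ((WW (yy x) : ℕ) : ℝ) := by exact_mod_cast WW_pos (yy x)
  exact h1.trans ((le_self_pow₀ h2 (by norm_num)).trans (WW_yy_pow_le hL))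

theorem local_low {φ : ℝ → ℝ} (hφ : Wt (1 / 2) φ) {B : ℕ} (h1 : MTLow φ B) (h2 : UBd φ B) : LocalLow := by
  classical
  obtain ⟨K, δ, c1, X1, hK, hδ, hc1, hlow⟩ := h1
  intro e0 he0
  choose CC XX hU using fun j => h2 j δ hδ
  have hC0pos : 0 < 1 + ∑ j ∈ Finset.range (2 * K + 1), |CC j| := by positivity
  have hCC : ∀ j ≤ 2 * K, CC j ≤ 1 + ∑ j ∈ Finset.range (2 * K + 1), |CC j| := by
    intro j hj
    have := Finset.single_le_sum (f := fun j => |CC j|) (fun i _ => abs_nonneg _)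
      (Finset.mem_range.mpr (by omega : j < 2 * K + 1))
    have h' : |CC j| ≤ ∑ j ∈ Finset.range (2 * K + 1), |CC j| := this
    linarith [le_abs_self (CC j)]
  have hXX : ∀ j ≤ 2 * K, XX j ≤ ∑ j ∈ Finset.range (2 * K + 1), |XX j| := by
    intro j hj
    have := Finset.single_le_sum (f := fun j => |XX j|) (fun i _ => abs_nonneg _)
      (Finset.mem_range.mpr (by omega : j < 2 * K + 1))
    have h' : |XX j| ≤ ∑ j ∈ Finset.range (2 * K + 1), |XX j| := this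
    linarith [le_abs_self (XX j)]
  generalize 1 + ∑ j ∈ Finset.range (2 * K + 1), |CC j| = C0 at hC0pos hCC
  generalize ∑ j ∈ Finset.range (2 * K + 1), |XX j| = X0 at hXX
  obtain ⟨c, ρ0, hc, hρ0, hsub⟩ := sub_low K hK hc1 hC0pos he0
  have ev : ∀ᶠ x : ℝ in atTop, X1 ≤ x ∧ X0 ≤ x ∧ 1 ≤ Real.log x ∧ 1 / ρ0 ≤ Real.sqrt (Real.log x) ∧
      Real.log x ^ 2 + Real.log x + 1 ≤ x / 4 ∧ 0 < x := by
    filter_upwards [eventually_ge_atTop X1, eventually_ge_atTop X0,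
      Real.tendsto_log_atTop.eventually_ge_atTop 1,
      (Real.tendsto_sqrt_atTop.comp Real.tendsto_log_atTop).eventually_ge_atTop (1 / ρ0),
      eventually_log_pow_le 2 (by norm_num : (0 : ℝ) < 1 / 12),
      eventually_log_pow_le 1 (by norm_num : (0 : ℝ) < 1 / 12), eventually_ge_atTop 12] with x a1 a2 a3 a4 a5 a6 a7
    rw [pow_one] at a6
    exact ⟨a1, a2, a3, a4, by linarith, by linarith⟩
  obtain ⟨X, hX⟩ := eventually_atTop.mp ev
  refine ⟨c, X, hc, fun x hx => ?_⟩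
  obtain ⟨a1, a2, a3, a4, a5, a6⟩ := hX x hx
  obtain ⟨P, hP, hP100, hPB, hPlow⟩ := hlow x a1
  refine ⟨P, hP, hP100, fun A hA v hv he => ?_⟩
  have hWpos : 0 < WS (yy x) P := ws_pos _ _
  have hWs := locA_W a3 P
  have hU' := fun j => hU j x
  generalize hWdef : WS (yy x) P = W at *
  obtain ⟨r1, r2⟩ := locA_rho hWpos a3 hWs a4 hρ0
  have hXW : 0 < x / (W : ℝ) := div_pos a6 (by exact_mod_cast hWpos)
  have key := hsub (Finset.range (⌊x / (W : ℝ)⌋₊ + 1)) (fun t => φ (2 * (W : ℝ) * t / x))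
    (A.filter (fun a => (v + a).Coprime W))
    (fun t => (A.filter (fun a => (v + a).Coprime W)).filter (fun a => (W * t + v + a).Prime))
    (fun H t => Gd (yy x) P ⌊x ^ δ⌋₊ H (W * t + v)) (x / (W : ℝ)) (rho x W)
    (fun t => hφ.nonneg _) hXW r1 r2 he ?_ ?_ ?_
  · refine (key.trans' (le_of_eq rfl)).trans ?_
    refine locA_last hφ a6 A hWpos hv ?_ _ _ ?_
    · have f1 : x - 1 < (⌊x⌋₊ : ℝ) := by
        have := Nat.lt_floor_add_one x
        linarith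
      have f2 : ((⌊Real.log x ^ 2⌋₊ : ℕ) : ℝ) ≤ Real.log x ^ 2 := Nat.floor_le (by positivity)
      have f3 : ((⌊x⌋₊ : ℕ) : ℝ) - ((⌊Real.log x ^ 2⌋₊ : ℕ) : ℝ) ≤ ((⌊x⌋₊ - ⌊Real.log x ^ 2⌋₊ : ℕ) : ℝ) := by
        rw [sub_le_iff_le_add]
        have f3' : ⌊x⌋₊ ≤ (⌊x⌋₊ - ⌊Real.log x ^ 2⌋₊) + ⌊Real.log x ^ 2⌋₊ := by omega
        exact_mod_cast f3'
      have f4 : Real.sqrt (Real.log x) ≤ Real.log x := by
        rw [Real.sqrt_le_left (by linarith)]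
        nlinarith
      linarith
    · intro t a ha
      rw [Finset.mem_inter, Finset.mem_filter, Finset.mem_filter] at ha
      rw [Finset.mem_filter]
      exact ⟨ha.1.1, ha.2.2⟩
  · intro H hH t hg
    rw [Finset.mem_powersetCard] at hH
    refine hg.1.trans (Finset.card_le_card ?_)
    intro h hh
    rw [Finset.mem_filter] at hh
    rw [Finset.mem_inter, Finset.mem_filter]
    exact ⟨hh.1, hH.1 hh.1, hh.2⟩
  · intro H hH
    rw [Finset.mem_powersetCard] at hH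
    refine hPlow v hv H hH.2 (fun h hh => hA h (Finset.mem_filter.mp (hH.1 hh)).1)
      (fun h hh => (Finset.mem_filter.mp (hH.1 hh)).2)
  · intro H hH H' hH'
    rw [Finset.mem_powersetCard] at hH hH'
    have hUsub : H ∪ H' ⊆ A.filter (fun a => (v + a).Coprime W) := Finset.union_subset hH.1 hH'.1
    have hcard : (H ∪ H').card ≤ 2 * K := by
      have := Finset.card_union_le H H'
      omega
    have hub := hU' (H ∪ H').card ((hXX _ hcard).trans a2) P hP hP100 hPB v (by rw [hWdef]; exact hv) (H ∪ H') rfl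
      (fun h hh => hA h (Finset.mem_filter.mp (hUsub hh)).1)
      (fun h hh => by rw [hWdef]; exact (Finset.mem_filter.mp (hUsub hh)).2)
    rw [hWdef] at hub
    refine le_trans (Finset.sum_le_sum fun t _ => ?_) (hub.trans ?_)
    · refine mul_le_mul_of_nonneg_left ?_ (hφ.nonneg _)
      refine Set.indicator_le_indicator_of_subset ?_ (fun _ => zero_le_one) t
      rintro t ⟨g1, g2⟩ h hh
      rw [Finset.mem_union] at hh
      rcases hh with hh | hh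
      · exact locA_clean (locA_QH _ _ Finset.subset_union_left) (g1.2 h hh)
      · exact locA_clean (locA_QH _ _ Finset.subset_union_right) (g2.2 h hh)
    · refine mul_le_mul_of_nonneg_right (mul_le_mul_of_nonneg_right (hCC _ hcard) hXW.le) (by positivity)

end Pool.Agent.H39.MT
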