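/-
ROW MTg. Many `t` with at least three primes among the `L_i(t)` and all `L_i(t)` clean (general forms).
PROOF. `e0 = 1/16`; `m, K, v0` from `fUc`; `I = ∫ φ > 0`, `I ≤ ...`; `C` and `w1` from `e4 hφ` (for these `m, K`); `δ = min (1/8) (I/(8 (K^2 C)))`; `C3 ≥ 1` from `clB he0 hv0 (δ)`.
Let `T` be large, `u = uu e0 T Q ≥ 1` (`eqs`), `N(t)` = the number of `i` with `L_i(t)` prime, `bad(t)` iff some `L_i(t)` is not clean up to `⌊T^δ⌋₊`, `good(t)` iff `3 ≤ N(t)` and not `bad(t)`, `s(t) = sM e0 v0 T m Q a b ∅ t`. For `φ(t/T) ≠ 0` (then `T/2 < t < 3 T/2`):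
`s² (N - 2 - K [bad]) ≤ K s² [good]` (`N ≤ K`). On `good` `t`: `|s| ≤ C3 u^K` (`clB`; `1 ≤ L_i(t) ≤ 2 T (log T)^B + (log T)^B ≤ T²`). So `∑ φ s² (N - 2 - K [bad]) ≤ K C3² u^(2K) ∑ φ [good]`.
(1) `∑ φ s² N = ∑_j ∑_{t : L_j prime} φ s²`. If `L_j(t)` is prime and `φ(t/T) ≠ 0` then `L_j(t) ≥ t > T/2 > T^e0` (`T` large), so `L_j(t)` is `Rough e0 T Q` (its only prime factor is `L_j(t)`), `sM ∅ = sM {j}` by `sM_rough`. By `e2h` with `ε = e2` small (this is used for each `j`)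
`2 log T ∑_{L_j prime} φ s² ≥ T I (a_j/φ(a_j)) (FI {j} - e2) u^(K+1) ≥ T I (FI {j} - e2) u^K (e0/4) log T` by the hypothesis `(e0/4) log T ≤ (a_j/φ(a_j)) u` (if `e2 ≤ FI {j}`; `FI {j} ≥ 8/(K e0)` by `fUc` and `FI_nonneg`, so `e2 = 1/K` is such). So
`∑_j ≥ ∑_j T I (e0/8) (FI {j} - e2) u^K`.
(2) `∑ φ s² ≤ T I FI ∅ u^K + (I/4) T u^K ..` by `eTr` with `J = ∅` (`r = 1/16`, `κ = 1/2`, `ε = I/8`; the product over `∅` is `1`, `(e0/r)^0 = 1`).
(3) `∑ φ s² [bad] ≤ ∑_j ∑_{p ≤ T^δ, p prime, p ∤ Q} ∑_{t : p ∣ L_j} φ s² ≤ K C δ T u^K ≤ (I/8) T u^K/K` by `e4` (`Wide w Q` with `w = max w0 w1 ..`; `Clean` fails iff there is such a `p`).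
Total: `∑ φ s² (N - 2 - K [bad]) ≥ T u^K (I (∑_j (e0/8) FI {j} - K (e0/8) e2) - 2 I FI ∅ - I/4 - I/8)`; for a single `j0`: `fUc` holds for every `j`, averaging over `j`: `∑_j (e0/8) FI {j} ≥ 2 FI ∅ + 1`. So it is `≥ T u^K I (1 - 1/128 - 3/8) ≥ (I/2) T u^K`.
Hence `∑ φ [good] ≥ (I/2) T u^K/(K C3² u^(2K)) = c T/u^K`.
-/
import Pool.Agent.H39.MT.E2H
import Pool.Agent.H39.MT.E4
import Pool.Agent.H39.MT.ClB
import Pool.Agent.H39.MT.FUc
import Pool.Agent.H6.EG.ETr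
import Pool.Agent.H6.EG.Pt

set_option autoImplicit false

namespace Pool.Agent.H39.MT

open EG Finset

theorem MTg_supp {φ : ℝ → ℝ} (hφ : Wt (1 / 2) φ) {T : ℝ} (hT : 0 < T) {t : ℕ} (h : φ ((t : ℝ) / T) ≠ 0) :
    T / 2 < t ∧ (t : ℝ) < 3 * T / 2 := by
  have h1 : |(t : ℝ) / T - 1| < 1 / 2 := by
    by_contra hc
    exact h (hφ.zero _ (not_lt.1 hc))
  rw [abs_lt] at h1
  obtain ⟨h2, h3⟩ := h1
  have h4 : 1 / 2 < (t : ℝ) / T := by linarith
  have h5 : (t : ℝ) / T < 3 / 2 := by linarith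
  rw [lt_div_iff₀ hT] at h4
  rw [div_lt_iff₀ hT] at h5
  constructor <;> linarith

theorem MTg_log (B : ℕ) : ∃ T1 : ℝ, 4 ≤ T1 ∧ ∀ T, T1 ≤ T → 2 * Real.log T ^ B ≤ T := by
  have h1 := Real.isLittleO_pow_log_id_atTop (n := B)
  have h2 := (h1.def (show (0 : ℝ) < 1 / 2 by norm_num))
  obtain ⟨T1, hT1⟩ := Filter.eventually_atTop.1 h2
  refine ⟨max T1 4, le_max_right _ _, ?_⟩
  intro T hT
  have h3 := hT1 T ((le_max_left _ _).trans hT)
  have h4 : 4 ≤ T := (le_max_right _ _).trans hT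
  have h5 : 0 ≤ Real.log T := Real.log_nonneg (by linarith)
  rw [Real.norm_of_nonneg (by positivity), id, Real.norm_of_nonneg (by linarith)] at h3
  linarith

theorem MTg_bad {ι : Type} [Fintype ι] (R : Finset ℕ) (w : ℕ → ℝ) (hw : ∀ t, 0 ≤ w t) (Q z : ℕ) (L : ι → ℕ → ℕ) :
    ∑ t ∈ R, w t * Set.indicator {t : ℕ | ¬ ∀ i, Clean Q z (L i t)} 1 t ≤
      ∑ j, ∑ p ∈ (Icc 1 z).filter (fun p => p.Prime ∧ ¬ p ∣ Q), ∑ t ∈ R.filter (fun t => p ∣ L j t), w t := by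
  have h1 : ∀ (j : ι) (p : ℕ), ∑ t ∈ R.filter (fun t => p ∣ L j t), w t = ∑ t ∈ R, if p ∣ L j t then w t else 0 :=
    fun j p => sum_filter _ _
  have h0 : ∀ (j : ι) (p t : ℕ), 0 ≤ (if p ∣ L j t then w t else 0) := by
    intro j p t
    split_ifs
    · exact hw t
    · exact le_rfl
  calc ∑ t ∈ R, w t * Set.indicator {t : ℕ | ¬ ∀ i, Clean Q z (L i t)} 1 t
      ≤ ∑ t ∈ R, ∑ j, ∑ p ∈ (Icc 1 z).filter (fun p => p.Prime ∧ ¬ p ∣ Q), (if p ∣ L j t then w t else 0) := by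
        apply sum_le_sum
        intro t _
        by_cases hb : ∀ i, Clean Q z (L i t)
        · rw [Set.indicator_of_notMem (by simpa using hb), mul_zero]
          exact sum_nonneg fun j _ => sum_nonneg fun p _ => h0 j p t
        · rw [Set.indicator_of_mem (by exact hb), Pi.one_apply, mul_one]
          rw [not_forall] at hb
          obtain ⟨j, hj⟩ := hb
          unfold Clean at hj
          push Not at hj
          obtain ⟨p, hp1, hp2, hp3, hp4⟩ := hj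
          have hpm : p ∈ (Icc 1 z).filter (fun p => p.Prime ∧ ¬ p ∣ Q) := by
            rw [Finset.mem_filter, Finset.mem_Icc]
            exact ⟨⟨hp1.one_lt.le, hp2⟩, hp1, hp4⟩
          calc w t = (if p ∣ L j t then w t else 0) := by rw [if_pos hp3]
            _ ≤ ∑ p ∈ (Icc 1 z).filter (fun p => p.Prime ∧ ¬ p ∣ Q), (if p ∣ L j t then w t else 0) :=
                Finset.single_le_sum (f := fun p => if p ∣ L j t then w t else 0) (fun q _ => h0 j q t) hpm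
            _ ≤ _ := Finset.single_le_sum
                (f := fun j => ∑ p ∈ (Icc 1 z).filter (fun p => p.Prime ∧ ¬ p ∣ Q), (if p ∣ L j t then w t else 0))
                (fun q _ => sum_nonneg fun p _ => h0 q p t) (mem_univ j)
    _ = ∑ j, ∑ p ∈ (Icc 1 z).filter (fun p => p.Prime ∧ ¬ p ∣ Q), ∑ t ∈ R.filter (fun t => p ∣ L j t), w t := by
        rw [sum_comm]
        apply sum_congr rfl
        intro j _
        rw [sum_comm]
        apply sum_congr rfl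
        intro p _
        rw [h1]

theorem MTg_N {ι : Type} [Fintype ι] (R : Finset ℕ) (w : ℕ → ℝ) (L : ι → ℕ → ℕ) :
    ∑ t ∈ R, w t * ((univ.filter (fun i => (L i t).Prime)).card : ℝ) = ∑ j, ∑ t ∈ R.filter (fun t => (L j t).Prime), w t := by
  have h1 : ∀ (j : ι), ∑ t ∈ R.filter (fun t => (L j t).Prime), w t = ∑ t ∈ R, if (L j t).Prime then w t else 0 :=
    fun j => sum_filter _ _
  simp_rw [h1]
  rw [sum_comm]
  apply sum_congr rfl
  intro t _
  rw [Finset.card_filter, Nat.cast_sum, mul_sum]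
  apply sum_congr rfl
  intro i _
  split_ifs <;> simp

theorem MTg_point {ι : Type} [Fintype ι] [DecidableEq ι] {K : ℕ} (hcard : Fintype.card ι = K) {φ : ℝ → ℝ} (hφ : Wt (1 / 2) φ) {T : ℝ}
    (hT : 0 < T) {M : ℝ} (L : ι → ℕ → ℕ) (Q z : ℕ) (s : ℕ → ℝ)
    (hs : ∀ t : ℕ, T / 2 < t → (t : ℝ) < 3 * T / 2 → (∀ i, Clean Q z (L i t)) → |s t| ≤ M) (t : ℕ) :
    φ ((t : ℝ) / T) * s t ^ 2 * (((univ.filter (fun i => (L i t).Prime)).card : ℝ) - 2 -
      K * Set.indicator {t : ℕ | ¬ ∀ i, Clean Q z (L i t)} 1 t) ≤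
      K * M ^ 2 * (φ ((t : ℝ) / T) *
        Set.indicator {t : ℕ | 3 ≤ (univ.filter (fun i => (L i t).Prime)).card ∧ ∀ i, Clean Q z (L i t)} 1 t) := by
  have hN : ((univ.filter (fun i => (L i t).Prime)).card : ℝ) ≤ K := by
    rw [← hcard]
    exact_mod_cast Finset.card_le_univ _
  by_cases h0 : φ ((t : ℝ) / T) = 0
  · rw [h0]; simp
  obtain ⟨ht1, ht2⟩ := MTg_supp hφ hT h0
  have hp := hφ.nonneg ((t : ℝ) / T)
  have hi : (0 : ℝ) ≤ Set.indicator {t : ℕ | 3 ≤ (univ.filter (fun i => (L i t).Prime)).card ∧ ∀ i, Clean Q z (L i t)} 1 t :=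
    Set.indicator_nonneg (fun _ _ => zero_le_one) _
  have hR : 0 ≤ K * M ^ 2 * (φ ((t : ℝ) / T) *
        Set.indicator {t : ℕ | 3 ≤ (univ.filter (fun i => (L i t).Prime)).card ∧ ∀ i, Clean Q z (L i t)} 1 t) := by positivity
  have hL : 0 ≤ φ ((t : ℝ) / T) * s t ^ 2 := by positivity
  by_cases hb : ∀ i, Clean Q z (L i t)
  · rw [Set.indicator_of_notMem (show t ∉ {t : ℕ | ¬ ∀ i, Clean Q z (L i t)} from by simpa using hb), mul_zero, sub_zero]
    by_cases h3 : 3 ≤ (univ.filter (fun i => (L i t).Prime)).card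
    · rw [Set.indicator_of_mem (show t ∈ {t : ℕ | 3 ≤ (univ.filter (fun i => (L i t).Prime)).card ∧ ∀ i, Clean Q z (L i t)} from ⟨h3, hb⟩),
        Pi.one_apply, mul_one]
      have h4 : s t ^ 2 ≤ M ^ 2 := by
        rw [← sq_abs]
        exact pow_le_pow_left₀ (abs_nonneg _) (hs t ht1 ht2 hb) 2
      have h3' : (3 : ℝ) ≤ ((univ.filter (fun i => (L i t).Prime)).card : ℝ) := by exact_mod_cast h3
      calc φ ((t : ℝ) / T) * s t ^ 2 * (((univ.filter (fun i => (L i t).Prime)).card : ℝ) - 2)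
          ≤ φ ((t : ℝ) / T) * M ^ 2 * K := by
            apply mul_le_mul (mul_le_mul_of_nonneg_left h4 hp) (by linarith) (by linarith) (by positivity)
        _ = K * M ^ 2 * φ ((t : ℝ) / T) := by ring
    · refine le_trans ?_ hR
      have h3' : ((univ.filter (fun i => (L i t).Prime)).card : ℝ) ≤ 2 := by
        have : (univ.filter (fun i => (L i t).Prime)).card ≤ 2 := by omega
        exact_mod_cast this
      exact mul_nonpos_of_nonneg_of_nonpos hL (by linarith)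
  · rw [Set.indicator_of_mem (show t ∈ {t : ℕ | ¬ ∀ i, Clean Q z (L i t)} from hb), Pi.one_apply, mul_one]
    refine le_trans ?_ hR
    exact mul_nonpos_of_nonneg_of_nonpos hL (by linarith)

theorem mtg {φ : ℝ → ℝ} (hφ : Wt (1 / 2) φ) (B : ℕ) :
    ∃ (K w0 : ℕ) (δ c T0 : ℝ), 3 ≤ K ∧ 0 < δ ∧ 0 < c ∧ ∀ T, T0 ≤ T → ∀ (ι : Type) [Fintype ι] [DecidableEq ι], Fintype.card ι = K →
      ∀ (Q : ℕ) (a b : ι → ℕ), Forms Q a b → Wide w0 Q → Big (1 / 16) T Q →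
      (∀ i, (a i : ℝ) ≤ Real.log T ^ B) → (∀ i, (b i : ℝ) ≤ Real.log T ^ B) → (∀ i, Nat.Coprime (a i) (b i)) →
      (∀ i, 1 / 64 * Real.log T ≤ (a i : ℝ) / (Nat.totient (a i) : ℝ) * uu (1 / 16) T Q) →
      c * T / uu (1 / 16) T Q ^ K ≤ ∑ t ∈ rT T, φ ((t : ℝ) / T) *
        Set.indicator {t : ℕ | 3 ≤ (univ.filter (fun i => (a i * t + b i).Prime)).card ∧ ∀ i, Clean Q ⌊T ^ δ⌋₊ (a i * t + b i)} 1 t := by
  have he0 : (0 : ℝ) < 1 / 16 := by norm_num
  obtain ⟨m, K, v0, hK3, hv0, hfu⟩ := fUc he0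
  have hK1 : 1 ≤ K := by omega
  have hK0 : (0 : ℝ) < K := by exact_mod_cast (by omega : 0 < K)
  obtain ⟨C, w1, hC, he4⟩ := e4 hφ he0 le_rfl hv0 m K hK1
  obtain ⟨I, hI⟩ : ∃ I : ℝ, I = ∫ x, φ x := ⟨_, rfl⟩
  have hI0 : 0 < I := by rw [hI]; exact hφ.int_pos
  obtain ⟨δ, hδdef⟩ : ∃ δ : ℝ, δ = min (1 / 8) (I / (8 * (K ^ 2 * C))) := ⟨_, rfl⟩
  have hδ : 0 < δ := by rw [hδdef]; positivity
  have hδ8 : δ ≤ 1 / 8 := by rw [hδdef]; exact min_le_left _ _
  have hδI : (K : ℝ) ^ 2 * C * δ ≤ I / 8 := by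
    have h1 : δ ≤ I / (8 * (K ^ 2 * C)) := by rw [hδdef]; exact min_le_right _ _
    rw [le_div_iff₀ (by positivity)] at h1
    linarith
  obtain ⟨C3, T3, hC3, hcl⟩ := clB he0 hv0 hδ m K
  obtain ⟨T4, h4⟩ := he4 δ hδ hδ8
  obtain ⟨T5, w5, h5⟩ := eTr hφ he0 (by norm_num) hv0 he0 (show (0 : ℝ) < 1 / 2 by norm_num) m K hK1 (show 0 < I / 8 by positivity)
  obtain ⟨T6, w6, h6⟩ := e2h hφ he0 le_rfl hv0 m K B hK1 (show (0 : ℝ) < 1 / K by positivity)
  obtain ⟨T7, hT71, h7⟩ := eqs he0 (show (0 : ℝ) < 1 by norm_num)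
  obtain ⟨T8, hT84, h8⟩ := MTg_log B
  rw [← hI] at h5 h6
  refine ⟨K, max w1 (max w5 w6), δ, I / (2 * (K * C3 ^ 2)), max T3 (max T4 (max T5 (max T6 (max T7 T8)))), hK3, hδ, by positivity, ?_⟩
  intro T hT ι _ _ hcard Q a b hF hW hB ha hb hab hau
  have hT3 : T3 ≤ T := (le_max_left _ _).trans hT
  have hTa := (le_max_right _ _).trans hT
  have hT4 : T4 ≤ T := (le_max_left _ _).trans hTa
  have hTb := (le_max_right _ _).trans hTa
  have hT5 : T5 ≤ T := (le_max_left _ _).trans hTb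
  have hTc := (le_max_right _ _).trans hTb
  have hT6 : T6 ≤ T := (le_max_left _ _).trans hTc
  have hTd := (le_max_right _ _).trans hTc
  have hT7 : T7 ≤ T := (le_max_left _ _).trans hTd
  have hT8 : T8 ≤ T := (le_max_right _ _).trans hTd
  have hTf : 4 ≤ T := hT84.trans hT8
  have hT0 : 0 < T := by linarith
  have hQ1 : 1 ≤ Q := hF.Q_pos
  have hlog : 0 < Real.log T := Real.log_pos (by linarith)
  have hWm : ∀ w, w ≤ max w1 (max w5 w6) → Wide w Q := fun w hw => ⟨hW.1, fun p hp hpw => hW.2 p hp (hpw.trans hw)⟩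
  obtain ⟨u, hu⟩ : ∃ u : ℝ, u = uu (1 / 16) T Q := ⟨_, rfl⟩
  have hu1 : 1 ≤ u := by
    have := (h7 T hT7 Q hQ1 hB).1
    rw [← hu] at this
    simpa using this
  have hu0 : 0 < u := by linarith
  have hcl' := hcl T hT3 Q hQ1 hB ι hcard a b
  have h4' := h4 T hT4 _ Q hQ1 hW (le_max_left _ _) hB ι hcard a b hF
  have h5' := h5 ι hcard Q a b hF (hWm _ ((le_max_left _ _).trans (le_max_right _ _))) T hT5 hB ∅ (by simp; norm_num)
  have h6' := h6 T hT6 ι hcard Q a b hF (hWm _ ((le_max_right _ _).trans (le_max_right _ _))) hB ha hb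
  have hfu' := hfu ι hcard
  have h8' := h8 T hT8
  rw [← hu] at hcl' h4' h5' h6' hau ⊢
  obtain ⟨s, hs⟩ : ∃ s : ℕ → ℝ, s = fun t => sM (1 / 16) v0 T m Q a b ∅ t := ⟨_, rfl⟩
  have hst : ∀ t, sM (1 / 16) v0 T m Q a b ∅ t = s t := fun t => by rw [hs]
  simp only [hst] at hcl' h4' h5'
  have hFI := fun J => FI_nonneg hv0 m ι J
  -- the bound on `s`
  have hsb : ∀ t : ℕ, T / 2 < t → (t : ℝ) < 3 * T / 2 → (∀ i, Clean Q ⌊T ^ δ⌋₊ (a i * t + b i)) → |s t| ≤ C3 * u ^ K := by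
    intro t ht1 ht2 hc
    refine hcl' t ?_ hc
    intro i
    have ht0 : 1 ≤ t := by
      have : (0 : ℝ) < t := by linarith
      exact_mod_cast this
    have hai : 1 ≤ a i := hF.pos i
    refine ⟨?_, ?_⟩
    · have : 1 ≤ a i * t := Nat.mul_pos hai ht0
      omega
    · push_cast
      have h1 := ha i
      have h2 := hb i
      have h3 : (a i : ℝ) * t ≤ T / 2 * (3 * T / 2) := by
        apply mul_le_mul (by linarith) ht2.le (by positivity) (by linarith)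
      nlinarith
  -- step 1
  have hst1 : ∀ j, T * I * (FI ι v0 m {j} - 1 / K) * u ^ K / 128 ≤
      ∑ t ∈ (rT T).filter (fun t => (a j * t + b j).Prime), φ ((t : ℝ) / T) * s t ^ 2 := by
    intro j
    have hcg : ∑ t ∈ (rT T).filter (fun t => (a j * t + b j).Prime), φ ((t : ℝ) / T) * sM (1 / 16) v0 T m Q a b {j} t ^ 2 =
        ∑ t ∈ (rT T).filter (fun t => (a j * t + b j).Prime), φ ((t : ℝ) / T) * s t ^ 2 := by
      apply sum_congr rfl
      intro t ht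
      rw [Finset.mem_filter] at ht
      by_cases h0 : φ ((t : ℝ) / T) = 0
      · rw [h0, zero_mul, zero_mul]
      obtain ⟨ht1, ht2⟩ := MTg_supp hφ hT0 h0
      have hpr := ht.2
      have hLt : (t : ℝ) ≤ ((a j * t + b j : ℕ) : ℝ) := by
        have : t ≤ a j * t + b j := (Nat.le_mul_of_pos_left t (hF.pos j)).trans (Nat.le_add_right _ _)
        exact_mod_cast this
      have hro : Rough (1 / 16) T Q (a j * t + b j) := by
        intro p hp hpd _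
        rw [(Nat.prime_dvd_prime_iff_eq hp hpr).1 hpd]
        refine lt_of_le_of_lt ?_ (lt_of_lt_of_le ht1 hLt)
        have h1 : T ^ ((1 : ℝ) / 16) ≤ T ^ ((1 : ℝ) / 2) := Real.rpow_le_rpow_of_exponent_le (by linarith) (by norm_num)
        have h2 : T ^ ((1 : ℝ) / 2) = Real.sqrt T := (Real.sqrt_eq_rpow T).symm
        rw [h2] at h1
        refine h1.trans ?_
        rw [Real.sqrt_le_left (by linarith)]
        nlinarith
      have hrs := sM_rough he0 hv0 (by linarith : 1 ≤ T) m Q a b (J := ∅) (j := j) (Finset.notMem_empty j) hro hpr.one_lt.le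
      rw [hst] at hrs
      rw [hrs, insert_empty_eq]
    have h6j := h6' j (hab j)
    rw [hcg] at h6j
    obtain ⟨S, hS⟩ : ∃ S : ℝ, S = ∑ t ∈ (rT T).filter (fun t => (a j * t + b j).Prime), φ ((t : ℝ) / T) * s t ^ 2 := ⟨_, rfl⟩
    rw [← hS] at h6j ⊢
    have hFj : 0 ≤ FI ι v0 m {j} - 1 / K := by
      have h1 := hfu' j
      have h2 := hFI ∅
      have h3 : 1 ≤ K * (1 / 16 / 8) * FI ι v0 m {j} := by linarith
      have h4 : 128 / K ≤ FI ι v0 m {j} := by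
        rw [div_le_iff₀ hK0]
        nlinarith
      have h5 : (1 : ℝ) / K ≤ 128 / K := by
        apply div_le_div_of_nonneg_right (by norm_num) hK0.le
      linarith
    have h1 : T * I * (FI ι v0 m {j} - 1 / K) * u ^ K * (1 / 64 * Real.log T) ≤ 2 * Real.log T * S := by
      refine le_trans ?_ h6j
      have h2 := mul_le_mul_of_nonneg_left (hau j) (show 0 ≤ T * I * (FI ι v0 m {j} - 1 / K) * u ^ K by positivity)
      refine h2.trans (le_of_eq ?_)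
      ring
    have h2 : (T * I * (FI ι v0 m {j} - 1 / K) * u ^ K / 128) * (2 * Real.log T) ≤ S * (2 * Real.log T) := by
      refine le_trans (le_of_eq ?_) (h1.trans (le_of_eq ?_))
      · ring
      · ring
    exact le_of_mul_le_mul_right h2 (by positivity)
  -- step 2
  have hst2 : ∑ t ∈ rT T, φ ((t : ℝ) / T) * s t ^ 2 ≤ T * I * (FI ι v0 m ∅ * u ^ K) + I / 8 * T * u ^ K := by
    have h1 := (abs_le.1 h5').2
    simp only [Finset.prod_empty, mul_one, Finset.card_empty, pow_zero, one_mul] at h1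
    linarith
  -- step 3
  have hw0 : ∀ t : ℕ, 0 ≤ φ ((t : ℝ) / T) * s t ^ 2 := fun t => mul_nonneg (hφ.nonneg _) (sq_nonneg _)
  have hst3 : ∑ t ∈ rT T, φ ((t : ℝ) / T) * s t ^ 2 * Set.indicator {t : ℕ | ¬ ∀ i, Clean Q ⌊T ^ δ⌋₊ (a i * t + b i)} 1 t ≤
      K * (C * δ * T * u ^ K) := by
    refine (MTg_bad (rT T) (fun t => φ ((t : ℝ) / T) * s t ^ 2) hw0 Q ⌊T ^ δ⌋₊ (fun i t => a i * t + b i)).trans ?_
    refine (sum_le_sum fun j _ => h4' j).trans ?_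
    rw [sum_const, card_univ, hcard, nsmul_eq_mul]
  -- the sum
  have hN := MTg_N (rT T) (fun t => φ ((t : ℝ) / T) * s t ^ 2) (fun i t => a i * t + b i)
  have hpt := Finset.sum_le_sum (s := rT T) (fun t _ => MTg_point hcard hφ hT0 (fun i t => a i * t + b i) Q ⌊T ^ δ⌋₊ s hsb t)
  rw [← mul_sum] at hpt
  have hexp : ∑ t ∈ rT T, φ ((t : ℝ) / T) * s t ^ 2 * (((univ.filter (fun i => (a i * t + b i).Prime)).card : ℝ) - 2 -
      K * Set.indicator {t : ℕ | ¬ ∀ i, Clean Q ⌊T ^ δ⌋₊ (a i * t + b i)} 1 t) =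
      (∑ t ∈ rT T, φ ((t : ℝ) / T) * s t ^ 2 * ((univ.filter (fun i => (a i * t + b i).Prime)).card : ℝ)) -
      2 * (∑ t ∈ rT T, φ ((t : ℝ) / T) * s t ^ 2) -
      K * ∑ t ∈ rT T, φ ((t : ℝ) / T) * s t ^ 2 * Set.indicator {t : ℕ | ¬ ∀ i, Clean Q ⌊T ^ δ⌋₊ (a i * t + b i)} 1 t := by
    rw [mul_sum, mul_sum, ← sum_sub_distrib, ← sum_sub_distrib]
    apply sum_congr rfl
    intro t _
    ring
  have hsumj : T * I * u ^ K * (2 * FI ι v0 m ∅ + 1 - 1 / 128) ≤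
      ∑ j, ∑ t ∈ (rT T).filter (fun t => (a j * t + b j).Prime), φ ((t : ℝ) / T) * s t ^ 2 := by
    refine le_trans ?_ (sum_le_sum fun j _ => hst1 j)
    have h1 : ∀ j ∈ (univ : Finset ι), T * I * u ^ K * ((2 * FI ι v0 m ∅ + 1 - 1 / 128) / K) ≤
        T * I * (FI ι v0 m {j} - 1 / K) * u ^ K / 128 := by
      intro j _
      have h2 : (2 * FI ι v0 m ∅ + 1 - 1 / 128) / K ≤ (FI ι v0 m {j} - 1 / K) / 128 := by
        rw [div_le_iff₀ hK0]
        have h3 := hfu' j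
        have h4 : (FI ι v0 m {j} - 1 / K) / 128 * K = K * (1 / 16 / 8) * FI ι v0 m {j} - 1 / 128 := by
          field_simp
          ring
        rw [h4]
        linarith
      have h5 := mul_le_mul_of_nonneg_left h2 (show 0 ≤ T * I * u ^ K by positivity)
      refine h5.trans (le_of_eq ?_)
      ring
    refine le_trans (le_of_eq ?_) (sum_le_sum h1)
    rw [sum_const, card_univ, hcard, nsmul_eq_mul]
    field_simp
  obtain ⟨G, hG⟩ : ∃ G : ℝ, G = ∑ t ∈ rT T, φ ((t : ℝ) / T) *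
        Set.indicator {t : ℕ | 3 ≤ (univ.filter (fun i => (a i * t + b i).Prime)).card ∧ ∀ i, Clean Q ⌊T ^ δ⌋₊ (a i * t + b i)} 1 t := ⟨_, rfl⟩
  rw [← hG] at hpt ⊢
  rw [hexp, hN] at hpt
  have hKst3 : K * ∑ t ∈ rT T, φ ((t : ℝ) / T) * s t ^ 2 * Set.indicator {t : ℕ | ¬ ∀ i, Clean Q ⌊T ^ δ⌋₊ (a i * t + b i)} 1 t ≤
      I / 8 * (T * u ^ K) := by
    refine (mul_le_mul_of_nonneg_left hst3 hK0.le).trans ?_
    have h1 := mul_le_mul_of_nonneg_right hδI (show 0 ≤ T * u ^ K by positivity)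
    refine le_trans (le_of_eq ?_) h1
    ring
  have hTu : 0 < T * u ^ K := by positivity
  have hmain : I / 2 * (T * u ^ K) ≤ K * (C3 * u ^ K) ^ 2 * G := by
    refine le_trans ?_ hpt
    have h9 : 0 < I * (T * u ^ K) := by positivity
    nlinarith
  have hKC : 0 < (K : ℝ) * (C3 * u ^ K) ^ 2 := by
    have : 0 < C3 := by linarith
    positivity
  have hfin : I / (2 * (K * C3 ^ 2)) * T / u ^ K = I / 2 * (T * u ^ K) / (K * (C3 * u ^ K) ^ 2) := by
    have h1 : u ^ K ≠ 0 := by positivity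
    have h2 : C3 ≠ 0 := by linarith
    field_simp
  rw [hfin, div_le_iff₀ hKC]
  linarith

end Pool.Agent.H39.MT
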