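/-
ROW PhQ. The modulus `Q = QH (yy x) P H`. Write `L = log x`, `y = yy x = ⌊log L/100⌋₊`, `W = WS y P ≤ WW y`, `W^34 ≤ √L` (`WW_yy_pow_le`, `ws_le`), so `W ≤ L^(1/68)`; `Q = W P Δ`, `Δ = dif H`.
PROOF. `1 ≤ Δ` (all factors `b - a` with `a < b`), `Δ ≤ (L^2)^(j^2)`.
* Wide: a prime `p ≤ y` is in `PS y P` or equal to `P`.
* `T = x/(2 W) ≥ √x` for large `x` as `2 W ≤ 2 √L ≤ √x`; `T ≤ x`; so `L/2 ≤ log T ≤ L`.
* `φ(Q)/Q ≤ φ(W)/W` since `W ∣ Q`; `φ(Q)/Q = ∏_{p ∣ Q} (1 - 1/p) ≥ (φ(W)/W) (1 - 1/P) ∏_{p ∣ Δ, p > y} (1 - 1/p)` (`Nat.totient_eq_mul_prod_factors`; primes of `Q` are the primes of `W`, `P` and the other primes of `Δ`, which are `> y`), and the last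
  product is `≥ 1 - ∑ 1/p ≥ 1 - s/y`, `s` = the number of primes `> y` dividing `Δ`, `y^s ≤ Δ ≤ L^(2 j^2)`, so `s ≤ 2 j^2 log L/log y ≤ 400 j^2 y/log y` for `y ≥ 2` (`log L ≤ 200 y`, `yy_lower`). So it tends to `1`; `1 - 1/P ≥ 99/100`. Total `≥ 1/2`.
* `Big e1 T Q`: `EQ Q = 2^ω(Q) (1 + log Q)`, `ω(Q) ≤ y + 1 + s ≤ log L/100 + 1 + 400 j^2 y/log y ≤ log L/20` for large `x` (`ω(W) ≤ y`), so `2^ω(Q) ≤ L^(1/20)`, `log Q ≤ (1/68 + B + 2 j^2) log L`; hence `EQ Q^4 ≤ L^(1/4)` for large `x`;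
  `uu e1 T Q = (φ(Q)/Q) e1 log T ≥ (1/2) (1/W) e1 L/2 ≥ (e1/4) L^(67/68) ≥ L^(1/4)`.
* the bounds for `uu` in terms of `ρ = rho x W`: `(φ(W)/W) L = 1/ρ` by definition.
-/
import Pool.Agent.H39.MT.CtP
import Pool.Agent.H6.EG.Defs2

set_option autoImplicit false

namespace Pool.Agent.H39.MT

open Pool.Agent.H17 Filter EG

theorem PhQ_dif_pos (H : Finset ℕ) : 1 ≤ dif H := by
  unfold dif
  refine Nat.one_le_iff_ne_zero.mpr (Finset.prod_ne_zero_iff.mpr fun a _ =>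
    Finset.prod_ne_zero_iff.mpr fun b hb => ?_)
  have := (Finset.mem_filter.mp hb).2
  omega

theorem PhQ_Q_pos (y : ℕ) {P : ℕ} (hP : P.Prime) (H : Finset ℕ) : 1 ≤ QH y P H := by
  unfold QH
  exact Nat.mul_pos (Nat.mul_pos (ws_pos y P) hP.pos) (PhQ_dif_pos H)

theorem PhQ_dvd_dif {H : Finset ℕ} {a b : ℕ} (ha : a ∈ H) (hb : b ∈ H) (hab : a < b) : b - a ∣ dif H := by
  unfold dif
  exact (Finset.dvd_prod_of_mem (fun b => b - a) (Finset.mem_filter.mpr ⟨hb, hab⟩)).trans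
    (Finset.dvd_prod_of_mem (fun a => ∏ b ∈ H.filter (fun b => a < b), (b - a)) ha)

theorem PhQ_dif_le {H : Finset ℕ} {j : ℕ} {L : ℝ} (hL : 1 ≤ L) (hH : H.card ≤ j)
    (hb : ∀ h ∈ H, (h : ℝ) ≤ L ^ 2) : (dif H : ℝ) ≤ (L ^ 2) ^ (j ^ 2) := by
  unfold dif
  simp only [Nat.cast_prod]
  have h1 : (1 : ℝ) ≤ L ^ 2 := one_le_pow₀ hL
  calc (∏ a ∈ H, ∏ b ∈ H.filter (fun b => a < b), (((b - a : ℕ)) : ℝ)) ≤ ∏ a ∈ H, (L ^ 2) ^ j := by
        refine Finset.prod_le_prod (fun a _ => Finset.prod_nonneg fun b _ => Nat.cast_nonneg _) fun a _ => ?_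
        calc ∏ b ∈ H.filter (fun b => a < b), (((b - a : ℕ)) : ℝ) ≤ ∏ b ∈ H.filter (fun b => a < b), (L ^ 2) := by
              refine Finset.prod_le_prod (fun b _ => Nat.cast_nonneg _) fun b hb' => ?_
              exact (Nat.cast_le.mpr (Nat.sub_le b a)).trans (hb b (Finset.mem_filter.mp hb').1)
          _ = (L ^ 2) ^ (H.filter (fun b => a < b)).card := Finset.prod_const _
          _ ≤ (L ^ 2) ^ j := pow_le_pow_right₀ h1 ((Finset.card_filter_le _ _).trans hH)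
    _ = ((L ^ 2) ^ j) ^ H.card := Finset.prod_const _
    _ ≤ ((L ^ 2) ^ j) ^ j := pow_le_pow_right₀ (one_le_pow₀ h1) hH
    _ = (L ^ 2) ^ (j ^ 2) := by rw [← pow_mul, pow_two j]

/-- one Euler factor -/
noncomputable def PhQ_f (p : ℕ) : ℝ := 1 - (p : ℝ)⁻¹

theorem PhQ_f_nonneg (p : ℕ) : 0 ≤ PhQ_f p := by
  unfold PhQ_f
  rcases Nat.eq_zero_or_pos p with h | h
  · rw [h]; simp
  · have h1 : (1 : ℝ) ≤ p := by exact_mod_cast h
    have := inv_le_one_of_one_le₀ h1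
    linarith

theorem PhQ_f_le (p : ℕ) : PhQ_f p ≤ 1 := by
  unfold PhQ_f
  have : (0 : ℝ) ≤ (p : ℝ)⁻¹ := by positivity
  linarith

theorem PhQ_prod_mono {S T : Finset ℕ} (h : S ⊆ T) : ∏ p ∈ T, PhQ_f p ≤ ∏ p ∈ S, PhQ_f p := by
  rw [← Finset.prod_sdiff h]
  have h1 : ∏ p ∈ T \ S, PhQ_f p ≤ 1 := Finset.prod_le_one (fun p _ => PhQ_f_nonneg p) (fun p _ => PhQ_f_le p)
  have h2 : 0 ≤ ∏ p ∈ S, PhQ_f p := Finset.prod_nonneg (fun p _ => PhQ_f_nonneg p)
  calc (∏ p ∈ T \ S, PhQ_f p) * ∏ p ∈ S, PhQ_f p ≤ 1 * ∏ p ∈ S, PhQ_f p := mul_le_mul_of_nonneg_right h1 h2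
    _ = ∏ p ∈ S, PhQ_f p := one_mul _

theorem PhQ_prod_union (S T : Finset ℕ) :
    (∏ p ∈ S, PhQ_f p) * ∏ p ∈ T, PhQ_f p ≤ ∏ p ∈ S ∪ T, PhQ_f p := by
  rw [← Finset.prod_union_inter]
  have h1 : ∏ p ∈ S ∩ T, PhQ_f p ≤ 1 := Finset.prod_le_one (fun p _ => PhQ_f_nonneg p) (fun p _ => PhQ_f_le p)
  have h2 : 0 ≤ ∏ p ∈ S ∪ T, PhQ_f p := Finset.prod_nonneg (fun p _ => PhQ_f_nonneg p)
  calc (∏ p ∈ S ∪ T, PhQ_f p) * ∏ p ∈ S ∩ T, PhQ_f p ≤ (∏ p ∈ S ∪ T, PhQ_f p) * 1 := mul_le_mul_of_nonneg_left h1 h2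
    _ = ∏ p ∈ S ∪ T, PhQ_f p := mul_one _

theorem PhQ_one_sub (R : Finset ℕ) : 1 - ∑ p ∈ R, (p : ℝ)⁻¹ ≤ ∏ p ∈ R, PhQ_f p := by
  induction R using Finset.induction_on with
  | empty => simp
  | insert p R hp ih =>
    rw [Finset.sum_insert hp, Finset.prod_insert hp]
    have h1 := PhQ_f_nonneg p
    have h2 : 0 ≤ ∑ p ∈ R, (p : ℝ)⁻¹ := Finset.sum_nonneg fun p _ => by positivity
    have h3 : (0 : ℝ) ≤ (p : ℝ)⁻¹ := by positivity
    have h4 := mul_le_mul_of_nonneg_left ih h1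
    have h5 : PhQ_f p = 1 - (p : ℝ)⁻¹ := rfl
    rw [h5] at h4 ⊢
    nlinarith [mul_nonneg h2 h3]

theorem PhQ_totient (n : ℕ) (hn : 1 ≤ n) : (n.totient : ℝ) / n = ∏ p ∈ n.primeFactors, PhQ_f p := by
  have h := Nat.totient_eq_mul_prod_factors n
  have h2 : (n.totient : ℝ) = (n : ℝ) * ∏ p ∈ n.primeFactors, (1 - (p : ℝ)⁻¹) := by
    have h3 := congrArg (fun r : ℚ => (r : ℝ)) h
    push_cast at h3
    exact h3
  have h4 : (n : ℝ) ≠ 0 := by positivity
  rw [h2]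
  unfold PhQ_f
  field_simp

theorem PhQ_pf_ws (y P : ℕ) : (WS y P).primeFactors = PS y P := by
  unfold WS
  exact Nat.primeFactors_prod (fun p hp => ps_prime hp)

/-- the large primes of the product of the differences -/
def PhQ_R (y : ℕ) (H : Finset ℕ) : Finset ℕ := (dif H).primeFactors.filter (fun p => y < p)

theorem PhQ_pf (y P : ℕ) (hP : P.Prime) (H : Finset ℕ) :
    (QH y P H).primeFactors ⊆ PS y P ∪ insert P (PhQ_R y H) := by
  intro p hp
  have hpp := Nat.prime_of_mem_primeFactors hp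
  have hpd := Nat.dvd_of_mem_primeFactors hp
  by_cases hpP : p = P
  · rw [hpP]
    exact Finset.mem_union_right _ (Finset.mem_insert_self _ _)
  · by_cases hy : p ≤ y
    · apply Finset.mem_union_left
      unfold PS
      exact Finset.mem_erase.mpr ⟨hpP, mem_PP.mpr ⟨hy, hpp⟩⟩
    · unfold QH at hpd
      rcases (Nat.Prime.dvd_mul hpp).mp hpd with h | h
      · rcases (Nat.Prime.dvd_mul hpp).mp h with h' | h'
        · apply Finset.mem_union_left
          rw [← PhQ_pf_ws]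
          exact Nat.mem_primeFactors.mpr ⟨hpp, h', (ws_pos y P).ne'⟩
        · exact absurd ((Nat.prime_dvd_prime_iff_eq hpp hP).mp h') hpP
      · apply Finset.mem_union_right
        apply Finset.mem_insert_of_mem
        unfold PhQ_R
        have h1 := PhQ_dif_pos H
        exact Finset.mem_filter.mpr ⟨Nat.mem_primeFactors.mpr ⟨hpp, h, by omega⟩, by omega⟩

theorem PhQ_tot_low {y P : ℕ} (hP : P.Prime) (hP1 : 100 < P) (H : Finset ℕ) (hy : 1 ≤ y)
    (hR : ((PhQ_R y H).card : ℝ) ≤ (y : ℝ) / 100) :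
    1 / 2 * (((WS y P).totient : ℝ) / (WS y P : ℝ)) ≤ ((QH y P H).totient : ℝ) / (QH y P H : ℝ) := by
  rw [PhQ_totient _ (PhQ_Q_pos y hP H), PhQ_totient _ (ws_pos y P), PhQ_pf_ws]
  have hy0 : (0 : ℝ) < y := by exact_mod_cast hy
  have h1 : (∏ p ∈ PS y P, PhQ_f p) * ∏ p ∈ insert P (PhQ_R y H), PhQ_f p ≤ ∏ p ∈ (QH y P H).primeFactors, PhQ_f p :=
    (PhQ_prod_union _ _).trans (PhQ_prod_mono (PhQ_pf y P hP H))
  have h2 : ∑ p ∈ PhQ_R y H, (p : ℝ)⁻¹ ≤ 1 / 100 := by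
    calc ∑ p ∈ PhQ_R y H, (p : ℝ)⁻¹ ≤ ∑ p ∈ PhQ_R y H, (y : ℝ)⁻¹ := by
          refine Finset.sum_le_sum fun p hp => ?_
          have h3 : y < p := (Finset.mem_filter.mp hp).2
          exact inv_anti₀ hy0 (by exact_mod_cast h3.le)
      _ = (PhQ_R y H).card * (y : ℝ)⁻¹ := by rw [Finset.sum_const, nsmul_eq_mul]
      _ ≤ (y : ℝ) / 100 * (y : ℝ)⁻¹ := mul_le_mul_of_nonneg_right hR (by positivity)
      _ = 1 / 100 := by field_simp
  have h3 : 99 / 100 ≤ ∏ p ∈ PhQ_R y H, PhQ_f p := by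
    have := PhQ_one_sub (PhQ_R y H)
    linarith
  have h4 : 99 / 100 ≤ ∏ p ∈ ({P} : Finset ℕ), PhQ_f p := by
    rw [Finset.prod_singleton]
    unfold PhQ_f
    have h5 : (100 : ℝ) ≤ P := by exact_mod_cast hP1.le
    have h6 : (P : ℝ)⁻¹ ≤ (100 : ℝ)⁻¹ := inv_anti₀ (by norm_num) h5
    have h7 : (100 : ℝ)⁻¹ = 1 / 100 := by norm_num
    linarith
  have h5 : 1 / 2 ≤ ∏ p ∈ insert P (PhQ_R y H), PhQ_f p := by
    have h6 := PhQ_prod_union {P} (PhQ_R y H)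
    have h7 : ({P} : Finset ℕ) ∪ PhQ_R y H = insert P (PhQ_R y H) := rfl
    rw [h7] at h6
    have h8 : (99 / 100 : ℝ) * (99 / 100) ≤ (∏ p ∈ ({P} : Finset ℕ), PhQ_f p) * ∏ p ∈ PhQ_R y H, PhQ_f p :=
      mul_le_mul h4 h3 (by norm_num) (by linarith)
    linarith
  have h6 : 0 ≤ ∏ p ∈ PS y P, PhQ_f p := Finset.prod_nonneg (fun p _ => PhQ_f_nonneg p)
  have h7 := mul_le_mul_of_nonneg_left h5 h6
  linarith

theorem PhQ_tot_up (y : ℕ) {P : ℕ} (hP : P.Prime) (H : Finset ℕ) :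
    ((QH y P H).totient : ℝ) / (QH y P H : ℝ) ≤ ((WS y P).totient : ℝ) / (WS y P : ℝ) := by
  rw [PhQ_totient _ (PhQ_Q_pos y hP H), PhQ_totient _ (ws_pos y P)]
  apply PhQ_prod_mono
  have h1 := PhQ_Q_pos y hP H
  refine Nat.primeFactors_mono ?_ (by omega)
  unfold QH
  exact Dvd.intro _ (mul_assoc _ _ _).symm

theorem PhQ_R_pow (y : ℕ) (H : Finset ℕ) : y ^ (PhQ_R y H).card ≤ dif H := by
  have h1 : (∏ p ∈ PhQ_R y H, p) ∣ dif H :=
    (Finset.prod_dvd_prod_of_subset _ _ _ (Finset.filter_subset _ _)).trans (Nat.prod_primeFactors_dvd _)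
  have h2 : ∏ p ∈ PhQ_R y H, p ≤ dif H := Nat.le_of_dvd (PhQ_dif_pos H) h1
  refine le_trans ?_ h2
  exact Finset.pow_card_le_prod _ _ _ (fun p hp => (Finset.mem_filter.mp hp).2.le)

theorem PhQ_log_dif {H : Finset ℕ} {j : ℕ} {L : ℝ} (hL : 1 ≤ L) (hH : H.card ≤ j)
    (hb : ∀ h ∈ H, (h : ℝ) ≤ L ^ 2) : Real.log (dif H) ≤ 2 * (j : ℝ) ^ 2 * Real.log L := by
  have h1 := PhQ_dif_le hL hH hb
  have h2 : (0 : ℝ) < dif H := by exact_mod_cast PhQ_dif_pos H
  have h3 := Real.log_le_log h2 h1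
  rw [Real.log_pow, Real.log_pow] at h3
  push_cast at h3
  linarith

theorem PhQ_R_card {y j : ℕ} {H : Finset ℕ} {L : ℝ} (hL : 1 ≤ L) (hH : H.card ≤ j)
    (hb : ∀ h ∈ H, (h : ℝ) ≤ L ^ 2) (hy : 1 ≤ y) (hyl : 40000 * (j : ℝ) ^ 2 + 1 ≤ Real.log y)
    (hLy : Real.log L ≤ 200 * (y : ℝ)) : ((PhQ_R y H).card : ℝ) ≤ (y : ℝ) / 100 := by
  have h1 : ((y : ℝ)) ^ (PhQ_R y H).card ≤ dif H := by exact_mod_cast PhQ_R_pow y H
  have hy0 : (0 : ℝ) < y := by exact_mod_cast hy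
  have h2 := Real.log_le_log (by positivity) h1
  rw [Real.log_pow] at h2
  have h3 := PhQ_log_dif hL hH hb
  have h4 : ((PhQ_R y H).card : ℝ) * (40000 * (j : ℝ) ^ 2 + 1) ≤ ((PhQ_R y H).card : ℝ) * Real.log y :=
    mul_le_mul_of_nonneg_left hyl (Nat.cast_nonneg _)
  have h5 : 2 * (j : ℝ) ^ 2 * Real.log L ≤ 2 * (j : ℝ) ^ 2 * (200 * (y : ℝ)) :=
    mul_le_mul_of_nonneg_left hLy (by positivity)
  have h6 : ((PhQ_R y H).card : ℝ) * (40000 * (j : ℝ) ^ 2 + 1) ≤ (y : ℝ) / 100 * (40000 * (j : ℝ) ^ 2 + 1) := by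
    have h7 : (y : ℝ) / 100 * (40000 * (j : ℝ) ^ 2 + 1) = 2 * (j : ℝ) ^ 2 * (200 * (y : ℝ)) + y / 100 := by ring
    rw [h7]
    have h8 : 0 ≤ (y : ℝ) / 100 := by positivity
    linarith
  exact le_of_mul_le_mul_right h6 (by positivity)

theorem PhQ_ps_card (y P : ℕ) : (PS y P).card ≤ y := by
  have h1 : PS y P ⊆ Finset.Icc 1 y := by
    intro p hp
    have h2 := mem_PP.mp (Finset.mem_of_mem_erase hp)
    exact Finset.mem_Icc.mpr ⟨h2.2.one_le, h2.1⟩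
  have := Finset.card_le_card h1
  simpa using this

theorem PhQ_omega (y P : ℕ) (hP : P.Prime) (H : Finset ℕ) :
    (QH y P H).primeFactors.card ≤ y + 1 + (PhQ_R y H).card := by
  have h1 := Finset.card_le_card (PhQ_pf y P hP H)
  have h2 := Finset.card_union_le (PS y P) (insert P (PhQ_R y H))
  have h3 := Finset.card_insert_le P (PhQ_R y H)
  have h4 := PhQ_ps_card y P
  omega

theorem PhQ_two_pow (n : ℕ) {t : ℝ} (h : (n : ℝ) ≤ t) : (2 : ℝ) ^ n ≤ Real.exp t := by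
  have h1 : (2 : ℝ) ≤ Real.exp 1 := by
    have := Real.add_one_le_exp (1 : ℝ)
    linarith
  calc (2 : ℝ) ^ n ≤ Real.exp 1 ^ n := pow_le_pow_left₀ (by norm_num) h1 n
    _ = Real.exp n := by rw [← Real.exp_nat_mul, mul_one]
    _ ≤ Real.exp t := Real.exp_le_exp.mpr h

theorem PhQ_EQ {Q : ℕ} {c u e1 : ℝ} (he1 : 0 < e1) (hc : 0 ≤ c) (hu : 1 ≤ u) (hQ : 1 ≤ Q)
    (hω : (Q.primeFactors.card : ℝ) ≤ u / 50) (hlog : Real.log Q ≤ c * u)
    (hbig : 512 * ((4 / e1 + 1) * (1 + c)) ≤ u) : EQ Q ^ 4 ≤ e1 / 4 * Real.exp (u / 2) := by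
  have h1 := PhQ_two_pow Q.primeFactors.card hω
  have hK : 1 ≤ 4 / e1 + 1 := by
    have : 0 < 4 / e1 := by positivity
    linarith
  set K := 4 / e1 + 1 with hKd
  have hlog0 : 0 ≤ Real.log Q := Real.log_nonneg (by exact_mod_cast hQ)
  have h2 : K * (1 + c * u) ≤ Real.exp (u / 16) := by
    have h3 := Real.quadratic_le_exp_of_nonneg (show (0 : ℝ) ≤ u / 16 by positivity)
    have h4 : K * (1 + c * u) ≤ K * (1 + c) * u := by
      have : 1 + c * u ≤ (1 + c) * u := by nlinarith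
      calc K * (1 + c * u) ≤ K * ((1 + c) * u) := mul_le_mul_of_nonneg_left this (by linarith)
        _ = K * (1 + c) * u := by ring
    have h5 : 512 * (K * (1 + c)) * u ≤ u * u := mul_le_mul_of_nonneg_right hbig (by linarith)
    have h6 : (u / 16) ^ 2 / 2 = u * u / 512 := by ring
    rw [h6] at h3
    have h7 : 0 ≤ u / 16 := by positivity
    linarith
  have h3 : EQ Q ≤ Real.exp (u / 50) * (1 + c * u) := by
    unfold EQ
    exact mul_le_mul h1 (by linarith) (by linarith) (Real.exp_pos _).le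
  have h0 : 0 ≤ EQ Q := by
    unfold EQ
    exact mul_nonneg (by positivity) (by linarith)
  have h4 : K * EQ Q ≤ Real.exp (u / 50 + u / 16) := by
    rw [Real.exp_add]
    calc K * EQ Q ≤ K * (Real.exp (u / 50) * (1 + c * u)) := mul_le_mul_of_nonneg_left h3 (by linarith)
      _ = Real.exp (u / 50) * (K * (1 + c * u)) := by ring
      _ ≤ Real.exp (u / 50) * Real.exp (u / 16) := mul_le_mul_of_nonneg_left h2 (Real.exp_pos _).le
  have h5 : (K * EQ Q) ^ 4 ≤ Real.exp (u / 2) := by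
    calc (K * EQ Q) ^ 4 ≤ Real.exp (u / 50 + u / 16) ^ 4 := pow_le_pow_left₀ (mul_nonneg (by linarith) h0) h4 4
      _ = Real.exp (4 * (u / 50 + u / 16)) := by rw [← Real.exp_nat_mul]; norm_num
      _ ≤ Real.exp (u / 2) := Real.exp_le_exp.mpr (by linarith)
  have h6 : K * EQ Q ^ 4 ≤ (K * EQ Q) ^ 4 := by
    rw [mul_pow]
    refine mul_le_mul_of_nonneg_right ?_ (by positivity)
    calc K = K ^ 1 := (pow_one K).symm
      _ ≤ K ^ 4 := pow_le_pow_right₀ hK (by norm_num)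
  have h7 : 4 / e1 * EQ Q ^ 4 ≤ K * EQ Q ^ 4 := mul_le_mul_of_nonneg_right (by linarith) (by positivity)
  have h8 : 4 / e1 * EQ Q ^ 4 ≤ Real.exp (u / 2) := h7.trans (h6.trans h5)
  have h9 := mul_le_mul_of_nonneg_left h8 (show 0 ≤ e1 / 4 by positivity)
  have h10 : e1 / 4 * (4 / e1 * EQ Q ^ 4) = EQ Q ^ 4 := by field_simp
  linarith

theorem phQ (j B : ℕ) {e1 : ℝ} (he1 : 0 < e1) : ∃ X : ℝ, 3 ≤ X ∧ ∀ x : ℝ, X ≤ x → ∀ P : ℕ, P.Prime → 100 < P →
    (P : ℝ) ≤ Real.log x ^ B → ∀ H : Finset ℕ, H.card ≤ j → (∀ h ∈ H, (h : ℝ) ≤ (Real.log x) ^ 2) →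
      1 ≤ QH (yy x) P H ∧ Wide (yy x) (QH (yy x) P H) ∧
      Real.sqrt x ≤ x / (2 * (WS (yy x) P : ℝ)) ∧ (WS (yy x) P : ℝ) ^ 2 ≤ Real.log x ∧ 0 < rho x (WS (yy x) P) ∧
      Big e1 (x / (2 * (WS (yy x) P : ℝ))) (QH (yy x) P H) ∧
      e1 / 4 / rho x (WS (yy x) P) ≤ uu e1 (x / (2 * (WS (yy x) P : ℝ))) (QH (yy x) P H) ∧
      uu e1 (x / (2 * (WS (yy x) P : ℝ))) (QH (yy x) P H) ≤ e1 / rho x (WS (yy x) P) := by
  set c : ℝ := 1 / 2 + B + 2 * (j : ℝ) ^ 2 with hc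
  set U : ℝ := 200 + 100 * (Real.exp (40000 * (j : ℝ) ^ 2 + 1) + 1) + 512 * ((4 / e1 + 1) * (1 + c)) with hU
  have hc0 : 0 ≤ c := by positivity
  have hU1 : 200 ≤ U := by
    have h1 : 0 ≤ 100 * (Real.exp (40000 * (j : ℝ) ^ 2 + 1) + 1) := by positivity
    have h2 : 0 ≤ 512 * ((4 / e1 + 1) * (1 + c)) := by positivity
    linarith
  refine ⟨Real.exp (Real.exp U), ?_, ?_⟩
  · have h1 := Real.add_one_le_exp U
    have h2 := Real.add_one_le_exp (Real.exp U)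
    linarith
  intro x hx P hP hP1 hPB H hH hb
  have hx0 : 0 < x := (Real.exp_pos _).trans_le hx
  have hL : Real.exp U ≤ Real.log x := (Real.le_log_iff_exp_le hx0).mpr hx
  have hL200 : 200 ≤ Real.log x := by
    have := Real.add_one_le_exp U
    linarith
  have hL1 : 1 ≤ Real.log x := by linarith
  have hL0 : 0 < Real.log x := by linarith
  set L := Real.log x with hLd
  have hu : U ≤ Real.log L := (Real.le_log_iff_exp_le hL0).mpr hL
  set u := Real.log L with hud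
  have hu200 : 200 ≤ u := hU1.trans hu
  have hexpu : Real.exp u = L := Real.exp_log hL0
  set y := yy x with hyd
  have hyle : (y : ℝ) ≤ u / 100 := by
    have : (y : ℝ) = (⌊Real.log (Real.log x) / 100⌋₊ : ℕ) := rfl
    rw [this]
    exact Nat.floor_le (by positivity)
  have hyge : u / 100 - 1 ≤ (y : ℝ) := by
    have h1 : (y : ℝ) = (⌊Real.log (Real.log x) / 100⌋₊ : ℕ) := rfl
    rw [h1]
    exact (Nat.sub_one_lt_floor _).le
  have h512 : 0 ≤ 512 * ((4 / e1 + 1) * (1 + c)) := by positivity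
  have hyexp : Real.exp (40000 * (j : ℝ) ^ 2 + 1) ≤ (y : ℝ) := by linarith
  have hy0 : (0 : ℝ) < y := (Real.exp_pos _).trans_le hyexp
  have hy1 : 1 ≤ y := by exact_mod_cast hy0
  have hylog : 40000 * (j : ℝ) ^ 2 + 1 ≤ Real.log y := (Real.le_log_iff_exp_le hy0).mpr hyexp
  have hLy : Real.log L ≤ 200 * (y : ℝ) := yy_lower hy1
  have hR := PhQ_R_card hL1 hH hb hy1 hylog hLy
  set W := WS y P with hW
  have hW1 : 1 ≤ W := ws_pos y P
  have hW1R : (1 : ℝ) ≤ W := by exact_mod_cast hW1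
  have hWsq : (W : ℝ) ^ 2 ≤ L := by
    have h1 : ((WW y : ℕ) : ℝ) ^ 34 ≤ Real.sqrt L := WW_yy_pow_le hL1
    have h2 : (W : ℝ) ≤ WW y := by exact_mod_cast ws_le y P
    have h3 : Real.sqrt L ≤ L := by
      rw [Real.sqrt_le_left (by linarith)]
      nlinarith
    calc (W : ℝ) ^ 2 ≤ (W : ℝ) ^ 34 := pow_le_pow_right₀ hW1R (by norm_num)
      _ ≤ (WW y : ℝ) ^ 34 := pow_le_pow_left₀ (by linarith) h2 34
      _ ≤ L := h1.trans h3
  have hWexp : (W : ℝ) ≤ Real.exp (u / 2) := by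
    have h1 : Real.exp (u / 2) ^ 2 = L := by
      rw [← Real.exp_nat_mul, ← hexpu]
      congr 1
      push_cast
      ring
    rw [← h1] at hWsq
    exact le_of_sq_le_sq hWsq (Real.exp_pos _).le
  have hφ1 : (1 : ℝ) ≤ W.totient := by exact_mod_cast Nat.totient_pos.mpr hW1
  have hrho : 0 < rho x W := by
    unfold rho
    exact div_pos (by linarith) (mul_pos (by linarith) hL0)
  have hrhoinv : ∀ t : ℝ, t / rho x W = t * ((W.totient : ℝ) / W * L) := by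
    intro t
    unfold rho
    rw [← hLd]
    have : (W : ℝ) ≠ 0 := by positivity
    field_simp
  have hTx : Real.sqrt x ≤ x / (2 * (W : ℝ)) := by
    have h1 : 4 * L ≤ x := by
      have h2 := Real.quadratic_le_exp_of_nonneg hL0.le
      rw [Real.exp_log hx0] at h2
      nlinarith
    have h2 : 2 * (W : ℝ) ≤ Real.sqrt x := by
      apply Real.le_sqrt_of_sq_le
      nlinarith
    rw [le_div_iff₀ (by positivity)]
    calc Real.sqrt x * (2 * (W : ℝ)) ≤ Real.sqrt x * Real.sqrt x := mul_le_mul_of_nonneg_left h2 (Real.sqrt_nonneg _)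
      _ = x := Real.mul_self_sqrt hx0.le
  have hTle : x / (2 * (W : ℝ)) ≤ x := div_le_self hx0.le (by linarith)
  have hT0 : 0 < x / (2 * (W : ℝ)) := by positivity
  have hlT1 : L / 2 ≤ Real.log (x / (2 * (W : ℝ))) := by
    have h1 := Real.log_le_log (Real.sqrt_pos.mpr hx0) hTx
    rwa [Real.log_sqrt hx0.le] at h1
  have hlT2 : Real.log (x / (2 * (W : ℝ))) ≤ L := Real.log_le_log hT0 hTle
  have hQ1 := PhQ_Q_pos y hP H
  have hlow := PhQ_tot_low hP hP1 H hy1 hR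
  have hup := PhQ_tot_up y hP H
  have h7 : e1 / 4 / rho x W ≤ uu e1 (x / (2 * (W : ℝ))) (QH y P H) := by
    rw [hrhoinv]
    unfold uu
    have h1 : 0 ≤ (W.totient : ℝ) / W := by positivity
    calc e1 / 4 * ((W.totient : ℝ) / W * L) = (1 / 2 * ((W.totient : ℝ) / W)) * (e1 * (L / 2)) := by ring
      _ ≤ ((QH y P H).totient : ℝ) / (QH y P H : ℝ) * (e1 * Real.log (x / (2 * (W : ℝ)))) :=
        mul_le_mul hlow (mul_le_mul_of_nonneg_left hlT1 he1.le) (by positivity) (by positivity)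
  refine ⟨hQ1, ⟨hQ1, ?_⟩, hTx, hWsq, hrho, ?_, h7, ?_⟩
  · intro p hp hpy
    by_cases hpP : p = P
    · rw [hpP]
      unfold QH
      exact Dvd.intro_left (WS y P * dif H) (by ring)
    · have h1 : p ∣ WS y P := by
        unfold WS
        exact Finset.dvd_prod_of_mem (fun q => q) (Finset.mem_erase.mpr ⟨hpP, mem_PP.mpr ⟨hpy, hp⟩⟩)
      refine h1.trans ?_
      unfold QH
      exact Dvd.intro _ (mul_assoc _ _ _).symm
  · unfold Big
    have hω : ((QH y P H).primeFactors.card : ℝ) ≤ u / 50 := by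
      have h1 : ((QH y P H).primeFactors.card : ℝ) ≤ (y : ℝ) + 1 + (PhQ_R y H).card := by
        exact_mod_cast PhQ_omega y P hP H
      linarith
    have hlog : Real.log (QH y P H : ℕ) ≤ c * u := by
      have h1 : (0 : ℝ) < W := by linarith
      have h2 : (0 : ℝ) < P := by exact_mod_cast hP.pos
      have h3 : (0 : ℝ) < dif H := by exact_mod_cast PhQ_dif_pos H
      have h4 : ((QH y P H : ℕ) : ℝ) = W * P * dif H := by
        unfold QH
        push_cast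
        ring
      rw [h4, Real.log_mul (by positivity) h3.ne', Real.log_mul h1.ne' h2.ne']
      have h5 := PhQ_log_dif hL1 hH hb
      have h6 : Real.log P ≤ B * u := by
        have := Real.log_le_log h2 hPB
        rwa [Real.log_pow] at this
      have h8 : Real.log W ≤ 1 / 2 * u := by
        have := Real.log_le_log (by positivity) hWsq
        rw [Real.log_pow] at this
        push_cast at this
        linarith
      rw [hc]
      linarith
    have hbig : 512 * ((4 / e1 + 1) * (1 + c)) ≤ u := by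
      have h1 : 0 ≤ 100 * (Real.exp (40000 * (j : ℝ) ^ 2 + 1) + 1) := by positivity
      linarith
    have h8 := PhQ_EQ he1 hc0 (by linarith) hQ1 hω hlog hbig
    refine h8.trans (le_trans ?_ h7)
    rw [hrhoinv]
    refine mul_le_mul_of_nonneg_left ?_ (by positivity)
    have h9 : Real.exp (u / 2) * Real.exp (u / 2) = L := by
      rw [← Real.exp_add, ← hexpu]
      congr 1
      ring
    have hWp : (0 : ℝ) < W := by linarith
    calc Real.exp (u / 2) ≤ 1 / W * L := by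
          rw [one_div, inv_mul_eq_div, le_div_iff₀ hWp]
          calc Real.exp (u / 2) * W ≤ Real.exp (u / 2) * Real.exp (u / 2) :=
                mul_le_mul_of_nonneg_left hWexp (Real.exp_pos _).le
            _ = L := h9
      _ ≤ (W.totient : ℝ) / W * L := by
          refine mul_le_mul_of_nonneg_right ?_ hL0.le
          exact div_le_div_of_nonneg_right hφ1 hWp.le
  · rw [hrhoinv]
    unfold uu
    calc ((QH y P H).totient : ℝ) / (QH y P H : ℝ) * (e1 * Real.log (x / (2 * (W : ℝ)))) ≤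
          (W.totient : ℝ) / W * (e1 * L) :=
        mul_le_mul hup (mul_le_mul_of_nonneg_left hlT2 he1.le) (mul_nonneg he1.le (by linarith)) (by positivity)
      _ = e1 * ((W.totient : ℝ) / W * L) := by ring

/-- the linear forms `W t + v + h`, `h ∈ H` -/
theorem formH (y P v : ℕ) (hP : P.Prime) (H : Finset ℕ) :
    Forms (QH y P H) (fun _ : {h // h ∈ H} => WS y P) (fun h : {h // h ∈ H} => v + h.1) := by
  refine ⟨PhQ_Q_pos y hP H, fun _ => ws_pos y P, ?_, ?_⟩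
  · intro _ p _ hpd
    refine hpd.trans ?_
    unfold QH
    exact Dvd.intro _ (mul_assoc _ _ _).symm
  · intro i k hik p hp hd
    have hd2 : (p : ℤ) ∣ (WS y P : ℤ) * ((k.1 : ℤ) - i.1) := by
      have e : (WS y P : ℤ) * ((k.1 : ℤ) - i.1) =
          (WS y P : ℤ) * ((v + k.1 : ℕ) : ℤ) - (WS y P : ℤ) * ((v + i.1 : ℕ) : ℤ) := by
        push_cast
        ring
      rw [e]
      exact hd
    rcases (Nat.prime_iff_prime_int.mp hp).dvd_or_dvd hd2 with h | h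
    · have h1 : p ∣ WS y P := by exact_mod_cast h
      refine h1.trans ?_
      unfold QH
      exact Dvd.intro _ (mul_assoc _ _ _).symm
    · have hne : i.1 ≠ k.1 := fun hh => hik (Subtype.ext hh)
      have hQd : dif H ∣ QH y P H := by
        unfold QH
        exact Dvd.intro_left _ rfl
      rcases Nat.lt_or_gt_of_ne hne with hlt | hlt
      · have h1 : p ∣ k.1 - i.1 := by
          have h2 : (p : ℤ) ∣ ((k.1 - i.1 : ℕ) : ℤ) := by
            rw [Nat.cast_sub hlt.le]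
            exact h
          exact_mod_cast h2
        exact (h1.trans (PhQ_dvd_dif i.2 k.2 hlt)).trans hQd
      · have h1 : p ∣ i.1 - k.1 := by
          have h2 : (p : ℤ) ∣ ((i.1 - k.1 : ℕ) : ℤ) := by
            rw [Nat.cast_sub hlt.le]
            have h3 := (dvd_neg (a := (p : ℤ))).mpr h
            rwa [neg_sub] at h3
          exact_mod_cast h2
        exact (h1.trans (PhQ_dvd_dif k.2 i.2 hlt)).trans hQd

end Pool.Agent.H39.MT
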