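/-
ROW MTb. The lower bound for one residue class.
PROOF. `P = 101`. `K, w0, δ, c, T0` from `mtg hφ 3`; `phQ K 1` with `e1 = 1/16` gives `X`. Take `δ' = δ/2`, `c' = c 16^K/2` (see below). Let `x` be large, `W = WS (yy x) 101`, `T = x/(2 W)` (`≥ √x`, `≤ x`), `Q = QH (yy x) 101 H`, `ρ = rho x W`, `u = uu (1/16) T Q`, `ι = {h // h ∈ H}`,
forms `a = W`, `b_h = v + h` (`formH`). `101 ≤ log x`. `Wide w0 Q` since `yy x ≥ w0` for large `x` (`Wide` is monotone in `w`; `tendsto_yy` or the definition of `yy`), `Big` from `phQ`. `log T ≥ (log x)/2`; `W ≤ W^2 ≤ log x ≤ (log T)^3`; `v + h ≤ W + (log x)^2 ≤ 2 (log x)^2 ≤ (log T)^3`;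
`Coprime W (v + h)` by hypothesis. `(W/φ(W)) u ≥ (W/φ(W)) (1/64)/ρ = (1/64) log x ≥ (1/64) log T` (`rho`). So `mtg` gives `c T/u^K ≤ ∑_{t ∈ rT T} φ(t/T) [..]`; `u ≤ (1/16)/ρ`, so `c T/u^K ≥ c (x/(2W)) 16^K ρ^K`.
The range: `2 T = x/W`; `φ(2 W t/x) = φ(t/T)`. If `t` is in the set of `mtg` then `Gd (yy x) 101 ⌊x^δ'⌋₊ H (W t + v)`: `W t + v + h = W t + (v + h)`; the number of `h ∈ H` with `(W t + v + h).Prime` is the number of such `i : {h // h ∈ H}` (`Finset.card_bij`/`Finset.filter_attach`-type);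
`x^(δ/2) = (√x)^δ ≤ T^δ`, so `⌊x^δ'⌋₊ ≤ ⌊T^δ⌋₊` and `Clean` is monotone. `Set.indicator` of the smaller set is `≤` (`φ ≥ 0`).
-/
import Pool.Agent.H39.MT.MTg
import Pool.Agent.H39.MT.PhQ
import Pool.Agent.H39.MT.LocA

set_option autoImplicit false

namespace Pool.Agent.H39.MT

open Pool.Agent.H17 Filter EG

theorem MTb_ind {x T δ : ℝ} {y P v W Q : ℕ} {H : Finset ℕ} (hQ : Q = QH y P H) (hTx : x ^ (δ / 2) ≤ T ^ δ) (t : ℕ) :
    (Set.indicator {t : ℕ | 3 ≤ (Finset.univ.filter (fun i : {h // h ∈ H} => (W * t + (v + i.1)).Prime)).card ∧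
      ∀ i : {h // h ∈ H}, Clean Q ⌊T ^ δ⌋₊ (W * t + (v + i.1))} 1 t : ℝ) ≤
    Set.indicator {t : ℕ | Gd y P ⌊x ^ (δ / 2)⌋₊ H (W * t + v)} 1 t := by
  classical
  by_cases h : t ∈ {t : ℕ | 3 ≤ (Finset.univ.filter (fun i : {h // h ∈ H} => (W * t + (v + i.1)).Prime)).card ∧
      ∀ i : {h // h ∈ H}, Clean Q ⌊T ^ δ⌋₊ (W * t + (v + i.1))}
  · have h2 : t ∈ {t : ℕ | Gd y P ⌊x ^ (δ / 2)⌋₊ H (W * t + v)} := by
      obtain ⟨h3, h4⟩ := h
      refine ⟨h3.trans ?_, ?_⟩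
      · refine Finset.card_le_card_of_injOn (fun i => i.1) ?_ ?_
        · intro i hi
          have hi2 := (Finset.mem_filter.mp (Finset.mem_coe.mp hi)).2
          refine Finset.mem_coe.mpr (Finset.mem_filter.mpr ⟨i.2, ?_⟩)
          rwa [add_assoc]
        · intro i _ k _ hik
          exact Subtype.ext hik
      · intro k hk p hp hpz hpd
        rw [← hQ]
        refine h4 ⟨k, hk⟩ p hp (hpz.trans (Nat.floor_le_floor hTx)) ?_
        show p ∣ W * t + (v + k)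
        rwa [← add_assoc]
    rw [Set.indicator_of_mem h, Set.indicator_of_mem h2]
  · rw [Set.indicator_of_notMem h]
    exact Set.indicator_nonneg (fun _ _ => zero_le_one) _

theorem mtb {φ : ℝ → ℝ} (hφ : Wt (1 / 2) φ) : MTLow φ 1 := by
  obtain ⟨K, w0, δ, c, T0, hK, hδ, hc, hmtg⟩ := mtg hφ 3
  obtain ⟨XQ, hXQ3, hXQ⟩ := phQ K 1 (e1 := 1 / 16) (by norm_num)
  have ev : ∀ᶠ x : ℝ in atTop, XQ ≤ x ∧ T0 ≤ Real.sqrt x ∧ w0 ≤ yy x ∧ 101 ≤ Real.log x := by
    filter_upwards [eventually_ge_atTop XQ, Real.tendsto_sqrt_atTop.eventually_ge_atTop T0,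
      tendsto_yy.eventually_ge_atTop w0, Real.tendsto_log_atTop.eventually_ge_atTop 101] with x a1 a2 a3 a4
    exact ⟨a1, a2, a3, a4⟩
  obtain ⟨X, hX⟩ := eventually_atTop.mp ev
  refine ⟨K, δ / 2, c * 16 ^ K / 2, X, hK, by positivity, by positivity, fun x hx => ?_⟩
  obtain ⟨a1, a2, a3, a4⟩ := hX x hx
  have hP : Nat.Prime 101 := by norm_num
  refine ⟨101, hP, by norm_num, by rw [pow_one]; exact_mod_cast a4, fun v hv H hHK hH hHc => ?_⟩
  obtain ⟨q1, q2, q3, q4, q5, q6, q7, q8⟩ :=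
    hXQ x a1 101 hP (by norm_num) (by rw [pow_one]; exact_mod_cast a4) H hHK.le hH
  have hF := formH (yy x) 101 v hP H
  have hWpos : 1 ≤ WS (yy x) 101 := ws_pos _ _
  generalize hW : WS (yy x) 101 = W at *
  obtain ⟨Q, hQ⟩ : ∃ Q : ℕ, Q = QH (yy x) 101 H := ⟨_, rfl⟩
  rw [← hQ] at q1 q2 q6 q7 q8 hF
  have hW1 : (1 : ℝ) ≤ W := by exact_mod_cast hWpos
  obtain ⟨T, hT⟩ : ∃ T : ℝ, T = x / (2 * (W : ℝ)) := ⟨_, rfl⟩
  rw [← hT] at q3 q6 q7 q8
  have hx1 : 3 ≤ x := hXQ3.trans a1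
  have hx0 : 0 < x := by linarith
  have hsx : 1 ≤ Real.sqrt x := Real.one_le_sqrt.mpr (by linarith)
  have hT1 : 1 ≤ T := hsx.trans q3
  have hT0 : 0 < T := by linarith
  have hTx : T ≤ x := by
    rw [hT]
    exact div_le_self hx0.le (by linarith)
  have hlogT : Real.log T ≤ Real.log x := Real.log_le_log hT0 hTx
  have hlogT2 : Real.log x / 2 ≤ Real.log T := by
    rw [← Real.log_sqrt hx0.le]
    exact Real.log_le_log (by linarith) q3
  have hL0 : 0 < Real.log x := by linarith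
  have hWL : (W : ℝ) ≤ Real.log x := by nlinarith
  have hcube : 2 * Real.log x ^ 2 ≤ Real.log T ^ 3 := by
    have h1 : (Real.log x / 2) ^ 3 ≤ Real.log T ^ 3 := pow_le_pow_left₀ (by linarith) hlogT2 3
    refine le_trans ?_ h1
    have h2 : (Real.log x / 2) ^ 3 = Real.log x ^ 2 * (Real.log x / 8) := by ring
    rw [h2]
    nlinarith [sq_nonneg (Real.log x)]
  have hLsq : Real.log x ≤ Real.log x ^ 2 := by nlinarith
  have hlowsum := hmtg T (a2.trans q3) {h // h ∈ H} (by rw [Fintype.card_coe, hHK]) Q _ _ hF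
    ⟨q2.1, fun p hp hpw => q2.2 p hp (hpw.trans a3)⟩ q6
    (fun _ => by linarith)
    (fun i => by
      have h1 := hH i.1 i.2
      have h2 : (v : ℝ) ≤ W := by exact_mod_cast hv.le
      push_cast
      linarith)
    (fun i => (hHc i.1 i.2).symm)
    (fun _ => by
      have htot0 : (0 : ℝ) < (W.totient : ℝ) := by exact_mod_cast Nat.totient_pos.mpr hWpos
      have hW0 : (0 : ℝ) < W := by linarith
      have e1 : (W : ℝ) / (W.totient : ℝ) * (1 / 16 / 4 / rho x W) = 1 / 64 * Real.log x := by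
        unfold rho
        field_simp
        norm_num
      have e2 : (W : ℝ) / (W.totient : ℝ) * (1 / 16 / 4 / rho x W) ≤
          (W : ℝ) / (W.totient : ℝ) * uu (1 / 16) T Q := mul_le_mul_of_nonneg_left q7 (by positivity)
      linarith)
  have hu0 : 0 < uu (1 / 16) T Q := lt_of_lt_of_le (by positivity) q7
  have hfirst : c * 16 ^ K / 2 * (x / (W : ℝ)) * rho x W ^ K ≤ c * T / uu (1 / 16) T Q ^ K := by
    have h1 : c * 16 ^ K / 2 * (x / (W : ℝ)) * rho x W ^ K = c * T * (16 * rho x W) ^ K := by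
      rw [hT, mul_pow]
      field_simp
    rw [h1, le_div_iff₀ (by positivity), mul_assoc (c * T), ← mul_pow]
    have h2 : 16 * rho x W * uu (1 / 16) T Q ≤ 1 := by
      have h3 : 16 * rho x W * uu (1 / 16) T Q ≤ 16 * rho x W * (1 / 16 / rho x W) :=
        mul_le_mul_of_nonneg_left q8 (by positivity)
      have h4 : 16 * rho x W * (1 / 16 / rho x W) = 1 := by field_simp
      linarith
    have h5 : (16 * rho x W * uu (1 / 16) T Q) ^ K ≤ 1 := pow_le_one₀ (by positivity) h2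
    have h6 : 0 < c * T := by positivity
    nlinarith
  refine hfirst.trans (hlowsum.trans ?_)
  have h2T : 2 * T = x / (W : ℝ) := by
    rw [hT]
    field_simp
  have hpow : x ^ (δ / 2) ≤ T ^ δ := by
    calc x ^ (δ / 2) = Real.sqrt x ^ δ := by
          rw [Real.sqrt_eq_rpow, ← Real.rpow_mul hx0.le]
          congr 1
          ring
      _ ≤ T ^ δ := Real.rpow_le_rpow (by linarith) q3 hδ.le
  unfold rT
  rw [h2T]
  refine Finset.sum_le_sum fun t _ => ?_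
  have harg : (t : ℝ) / T = 2 * (W : ℝ) * t / x := by
    rw [hT]
    field_simp
  rw [harg]
  exact mul_le_mul_of_nonneg_left (MTb_ind hQ hpow t) (hφ.nonneg _)

end Pool.Agent.H39.MT
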