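/-
ROW Ub. The upper bound for the number of clean `n ≡ v mod W`.
PROOF. Given `j`, `δ` (w.l.o.g. `j ≥ 1`; for `j = 0` use `φ ≤ 1` and the number of terms). Put `r = min δ (1/(8 j + 8))`, `e0 = 1`. Constants: `C1` from `beB` (`e0 = 1`, this `r`) with `ε = 1`; `C'` from `s3 j 10`; `C2` from `mtt hφ`.
Let `x` be large, `W = WS (yy x) P`, `T = x/(2 W)`, `Q = QH (yy x) P H`, `u = uu 1 T Q`, `R = Rr r T = ⌊T^r⌋₊`, forms `L_h(t) = W t + v + h` (`formH`), `ι = {h // h ∈ H}`. By `phQ j B` (with `e1 = 1`): `Wide (yy x) Q`, `Big 1 T Q`, `u ≥ 1/(4 ρ)`.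
(1) If all `L_h(t)` are clean up to `⌊x^δ⌋₊` then `be Q R (L_h(t)) = 1` for all `h`: `R ≤ ⌊x^δ⌋₊` (`T ≤ x`, `r ≤ δ`); a divisor `d ∈ sq Q R` of `L_h(t)` has no prime factor `p` (`p ≤ d ≤ R`, so `p ∣ Q`, but `d` is coprime to `Q`), so `d = 1`, and
  `lb Q R 1 = 1` (`lam_sel_one`). Since `be ≥ 0`: the indicator is `≤ ∏_h be Q R (L_h(t))`.
(2) `be Q R n = Fn (DB Q R) (fB Q R) n` (`fn_mul`). By `mtt`: `∑_t φ(t/T) ∏ Fn .. ≤ T (∫φ) Mm D f 1 + C2 (∑_{B ∈ DB Q R} |fB Q R B|)^j`. Here `∑ |fB| ≤ (∑_{d ∈ sq Q R} |lb|)² ≤ R²` (`lcf_abs`, `lam_sel_le`, at most `R` elements), so the error is `≤ C2 T^(2 r j) ≤ C2 T^(1/4)`.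
(3) `s3`: `|Mm D f 1 - ∏ SS| ≤ (C'/√(yy x)) (C1/u)^j` and `|SS(1)| ≤ C1/u` (`Ctrl` at `b = 1`), so `Mm ≤ 2 (C1/u)^j` for large `x` (`yy x ≥ C'^2`; `tendsto_yy`) `≤ 2 (4 C1)^j ρ^j`.
(4) `0 ≤ ∫ φ ≤ 1`. Total: `≤ (x/(2W)) 2 (4 C1)^j ρ^j + C2 x^(1/4)`, and `x^(1/4) ≤ (x/W) ρ^j` for large `x` as `ρ ≥ 1/log x`, `W ≤ log x`.
The sum over `t ∈ range (⌊x/W⌋₊ + 1)` is the sum over `rT T`, and `φ (2 W t/x) = φ (t/T)`.
-/
import Pool.Agent.H39.MT.PhQ
import Pool.Agent.H39.MT.LocA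
import Pool.Agent.H6.EG.Mtt
import Pool.Agent.H6.EG.S3
import Pool.Agent.H6.EG.BeB
import Pool.Agent.H6.EG.LamB

set_option autoImplicit false

namespace Pool.Agent.H39.MT

open Pool.Agent.H17 Filter EG

theorem Ub_card_sq (Q z : ℕ) : (EG.sq Q z).card ≤ z := by
  have h1 : (EG.sq Q z).card ≤ (Finset.Icc 1 z).card := by
    unfold EG.sq
    exact Finset.card_filter_le _ _
  simpa using h1

theorem Ub_one {Q z : ℕ} (hz : 1 ≤ z) : 1 ∈ EG.sq Q z := by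
  unfold EG.sq
  exact Finset.mem_filter.mpr ⟨Finset.mem_Icc.mpr ⟨le_rfl, hz⟩, squarefree_one, Nat.coprime_one_left Q⟩

/-- a clean number has Selberg weight `1` -/
theorem Ub_clean {Q R z n : ℕ} (hR : 1 ≤ R) (hz : R ≤ z) (hc : Clean Q z n) : be Q R n = 1 := by
  have h1 : (EG.sq Q R).filter (fun B => B ∣ n) = {1} := by
    ext d
    rw [Finset.mem_filter, Finset.mem_singleton]
    constructor
    · rintro ⟨hd, hdn⟩
      by_contra hne
      obtain ⟨p, hp, hpd⟩ := Nat.exists_prime_and_dvd hne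
      unfold EG.sq at hd
      rw [Finset.mem_filter, Finset.mem_Icc] at hd
      obtain ⟨⟨hd1, hd2⟩, _, hd4⟩ := hd
      have hpz : p ≤ z := ((Nat.le_of_dvd (by omega) hpd).trans hd2).trans hz
      have hpQ := hc p hp hpz (hpd.trans hdn)
      have h3 : p ∣ Nat.gcd d Q := Nat.dvd_gcd hpd hpQ
      rw [hd4] at h3
      exact hp.one_lt.ne' (Nat.dvd_one.mp h3)
    · rintro rfl
      exact ⟨Ub_one hR, one_dvd _⟩
  unfold be Fn
  rw [h1, Finset.sum_singleton]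
  unfold lb
  rw [lam_sel_one Q R hR, one_pow]

theorem Ub_fB {Q R : ℕ} (hR : 1 ≤ R) : ∑ B ∈ DB Q R, |fB Q R B| ≤ (R : ℝ) ^ 2 := by
  unfold DB fB
  refine (lcf_abs _ _ _ _).trans ?_
  have h1 : ∑ d ∈ EG.sq Q R, |lb Q R d| ≤ (R : ℝ) := by
    calc ∑ d ∈ EG.sq Q R, |lb Q R d| ≤ ∑ d ∈ EG.sq Q R, (1 : ℝ) :=
          Finset.sum_le_sum fun d _ => by unfold lb; exact lam_sel_le Q R hR d
      _ = ((EG.sq Q R).card : ℝ) := by simp
      _ ≤ R := by exact_mod_cast Ub_card_sq Q R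
  have h0 : 0 ≤ ∑ d ∈ EG.sq Q R, |lb Q R d| := Finset.sum_nonneg fun _ _ => abs_nonneg _
  rw [pow_two]
  exact mul_le_mul h1 h1 h0 (Nat.cast_nonneg R)

theorem Ub_be (Q R n : ℕ) : be Q R n = Fn (DB Q R) (fB Q R) n := by
  unfold be DB fB
  rw [pow_two, fn_mul]

/-- the sum for one `x` -/
theorem Ub_main {φ : ℝ → ℝ} (hφ : Wt (1 / 2) φ) {C1 C' C2 : ℝ} {j : ℕ} (hj : 1 ≤ j) (hC1 : 1 ≤ C1) (hC2 : 0 ≤ C2)
    (hs3 : ∀ (ι : Type) [Fintype ι] [DecidableEq ι], Fintype.card ι = j →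
      ∀ w Q p : ℕ, Wide w Q → C' ≤ w → (p = 1 ∨ (p.Prime ∧ w < p)) →
      ∀ (D : ι → Finset ℕ) (f : ι → ℕ → ℝ) (a : ι → ℝ) (j0 : ι), (∀ i, 0 ≤ a i) → (∀ i, Good Q (D i)) →
        (∀ i, Ctrl 10 (a i) (if i = j0 then p else 1) (D i) (f i)) →
        |Mm D f 1 - ∏ i, SS (D i) (f i) 1| ≤ C' / Real.sqrt w * ∏ i, a i)
    (hmtt : ∀ (ι : Type) [Fintype ι] [DecidableEq ι] (Q : ℕ) (a b : ι → ℕ),
      Forms Q a b → ∀ (D : ι → Finset ℕ) (f : ι → ℕ → ℝ), (∀ i, Good Q (D i)) → ∀ T : ℝ, 1 ≤ T →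
        |∑ t ∈ rT T, φ ((t : ℝ) / T) * ∏ i, Fn (D i) (f i) (a i * t + b i) - T * (∫ x, φ x) * Mm D f 1| ≤
          C2 * ∏ i, ∑ B ∈ D i, |f i B|)
    {x ρ u T : ℝ} {y P v z Q R : ℕ} (hP : P.Prime) (H : Finset ℕ) (hHj : H.card = j) (hT : 1 ≤ T)
    (hQ : Q = QH y P H) (hwide : Wide y Q) (hy : C' ≤ y) (hy2 : C' / Real.sqrt y ≤ 1) (hu : 0 < u)
    (hR : 1 ≤ R) (hRz : R ≤ z) (hgood : Good Q (DB Q R)) (hctrl : Ctrl 10 (C1 / u) 1 (DB Q R) (fB Q R))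
    (hρ : 1 / u ≤ 4 * ρ) (hRx : ((R : ℝ) ^ 2) ^ j ≤ x) :
    ∑ t ∈ rT T, φ ((t : ℝ) / T) *
        Set.indicator {t : ℕ | ∀ h ∈ H, Clean Q z (WS y P * t + v + h)} 1 t ≤
      T * (∫ x, φ x) * (2 * (4 * C1 * ρ) ^ j) + C2 * x := by
  classical
  have hF := formH y P v hP H
  rw [← hQ] at hF
  have hcard : Fintype.card {h // h ∈ H} = j := by rw [Fintype.card_coe, hHj]
  have hne : Nonempty {h // h ∈ H} := by
    rw [← Fintype.card_pos_iff, hcard]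
    omega
  obtain ⟨j0⟩ := hne
  have h1 := hmtt {h // h ∈ H} Q _ _ hF (fun _ => DB Q R) (fun _ => fB Q R) (fun _ => hgood) T hT
  have ha : 0 ≤ C1 / u := by positivity
  have h2 := hs3 {h // h ∈ H} hcard y Q 1 hwide hy (Or.inl rfl) (fun _ => DB Q R) (fun _ => fB Q R)
    (fun _ => C1 / u) j0 (fun _ => ha) (fun _ => hgood) (fun i => by simpa using hctrl)
  simp only [Finset.prod_const, Finset.card_univ, hcard] at h1 h2
  have hSS : |SS (DB Q R) (fB Q R) 1| ≤ C1 / u := by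
    have := hctrl 1 squarefree_one
    simpa using this
  have hpow : |SS (DB Q R) (fB Q R) 1 ^ j| ≤ (C1 / u) ^ j := by
    rw [abs_pow]
    exact pow_le_pow_left₀ (abs_nonneg _) hSS j
  have haj : 0 ≤ (C1 / u) ^ j := by positivity
  have h3 : Mm (fun _ : {h // h ∈ H} => DB Q R) (fun _ => fB Q R) 1 ≤ 2 * (C1 / u) ^ j := by
    have e1 := (abs_le.mp h2).2
    have e2 := (abs_le.mp hpow).2
    have e3 : C' / Real.sqrt y * (C1 / u) ^ j ≤ 1 * (C1 / u) ^ j := mul_le_mul_of_nonneg_right hy2 haj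
    linarith
  have h4 : (C1 / u) ^ j ≤ (4 * C1 * ρ) ^ j := by
    refine pow_le_pow_left₀ ha ?_ j
    have : C1 / u = C1 * (1 / u) := by ring
    rw [this]
    nlinarith
  have h5 : (∑ B ∈ DB Q R, |fB Q R B|) ^ j ≤ x :=
    (pow_le_pow_left₀ (Finset.sum_nonneg fun _ _ => abs_nonneg _) (Ub_fB hR) j).trans hRx
  have hstep : ∑ t ∈ rT T, φ ((t : ℝ) / T) *
        Set.indicator {t : ℕ | ∀ h ∈ H, Clean Q z (WS y P * t + v + h)} 1 t ≤
      ∑ t ∈ rT T, φ ((t : ℝ) / T) * ∏ i : {h // h ∈ H}, Fn (DB Q R) (fB Q R) (WS y P * t + (v + i.1)) := by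
    refine Finset.sum_le_sum fun t _ => mul_le_mul_of_nonneg_left ?_ (hφ.nonneg _)
    have hbe : ∀ i : {h // h ∈ H}, 0 ≤ Fn (DB Q R) (fB Q R) (WS y P * t + (v + i.1)) := by
      intro i
      rw [← Ub_be]
      unfold be
      exact sq_nonneg _
    by_cases hcl : t ∈ {t : ℕ | ∀ h ∈ H, Clean Q z (WS y P * t + v + h)}
    · rw [Set.indicator_of_mem hcl]
      refine le_of_eq ?_
      symm
      refine Finset.prod_eq_one fun i _ => ?_
      rw [← Ub_be]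
      refine Ub_clean hR hRz ?_
      have := hcl i.1 i.2
      rwa [add_assoc] at this
    · rw [Set.indicator_of_notMem hcl]
      exact Finset.prod_nonneg fun i _ => hbe i
  have h6 := (abs_le.mp h1).2
  have hI : 0 < ∫ x, φ x := hφ.int_pos
  have hTI : 0 ≤ T * ∫ x, φ x := by positivity
  have h7 : T * (∫ x, φ x) * Mm (fun _ : {h // h ∈ H} => DB Q R) (fun _ => fB Q R) 1 ≤
      T * (∫ x, φ x) * (2 * (4 * C1 * ρ) ^ j) :=
    mul_le_mul_of_nonneg_left (h3.trans (by linarith)) hTI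
  have h8 : C2 * (∑ B ∈ DB Q R, |fB Q R B|) ^ j ≤ C2 * x := mul_le_mul_of_nonneg_left h5 hC2
  linarith

theorem Ub_zero {φ : ℝ → ℝ} (hφ : Wt (1 / 2) φ) (x : ℝ) (W : ℕ) (S : Set ℕ) (hW : 1 ≤ x / (W : ℝ)) :
    ∑ t ∈ Finset.range (⌊x / (W : ℝ)⌋₊ + 1), φ (2 * (W : ℝ) * t / x) * Set.indicator S 1 t ≤
      2 * (x / (W : ℝ)) := by
  classical
  have h1 : ∀ t ∈ Finset.range (⌊x / (W : ℝ)⌋₊ + 1), φ (2 * (W : ℝ) * t / x) * Set.indicator S 1 t ≤ (1 : ℝ) := by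
    intro t _
    have e1 := hφ.le_one (2 * (W : ℝ) * t / x)
    have e2 := hφ.nonneg (2 * (W : ℝ) * t / x)
    have e3 : (Set.indicator S 1 t : ℝ) ≤ 1 := by
      by_cases h : t ∈ S
      · rw [Set.indicator_of_mem h]; rfl
      · rw [Set.indicator_of_notMem h]; exact zero_le_one
    have e4 : (0 : ℝ) ≤ Set.indicator S 1 t := Set.indicator_nonneg (fun _ _ => zero_le_one) _
    calc φ (2 * (W : ℝ) * t / x) * Set.indicator S 1 t ≤ 1 * 1 := mul_le_mul e1 e3 e4 zero_le_one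
      _ = 1 := one_mul 1
  refine (Finset.sum_le_sum h1).trans ?_
  rw [Finset.sum_const, Finset.card_range, nsmul_eq_mul, mul_one]
  push_cast
  have := Nat.floor_le (show 0 ≤ x / (W : ℝ) by linarith)
  linarith

theorem ubd {φ : ℝ → ℝ} (hφ : Wt (1 / 2) φ) (B : ℕ) : UBd φ B := by
  intro j δ hδ
  obtain ⟨XQ, hXQ3, hXQ⟩ := phQ j B one_pos
  rcases Nat.eq_zero_or_pos j with hj | hj
  · subst hj
    refine ⟨2, max XQ 3, fun x hx P hP hP100 hPB v hv H hHj hH hHc => ?_⟩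
    have hx3 : 3 ≤ x := (le_max_right _ _).trans hx
    obtain ⟨_, _, hs, _, _⟩ := hXQ x ((le_max_left _ _).trans hx) P hP hP100 hPB H hHj.le hH
    have hs1 : 1 ≤ Real.sqrt x := Real.one_le_sqrt.mpr (by linarith)
    have hW : (0 : ℝ) < WS (yy x) P := by exact_mod_cast ws_pos _ _
    have h1 : x / (2 * (WS (yy x) P : ℝ)) = x / (WS (yy x) P : ℝ) / 2 := by
      field_simp
    have := Ub_zero hφ x (WS (yy x) P)
      {t : ℕ | ∀ h ∈ H, Clean (QH (yy x) P H) ⌊x ^ δ⌋₊ (WS (yy x) P * t + v + h)} (by linarith)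
    rw [pow_zero, mul_one]
    exact this
  · obtain ⟨r, hr⟩ : ∃ r : ℝ, r = min δ (1 / (8 * j + 8)) := ⟨_, rfl⟩
    have hr0 : 0 < r := by rw [hr]; exact lt_min hδ (by positivity)
    have hrδ : r ≤ δ := by rw [hr]; exact min_le_left _ _
    have hrj : 2 * r * j ≤ 1 / 4 := by
      have h1 : r ≤ 1 / (8 * j + 8) := by rw [hr]; exact min_le_right _ _
      have hj0 : (0 : ℝ) ≤ j := Nat.cast_nonneg j
      have h2 : r * (8 * j + 8) ≤ 1 := by rwa [le_div_iff₀ (by positivity)] at h1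
      nlinarith
    obtain ⟨C1, hC1, hbeB⟩ := beB one_pos hr0
    obtain ⟨T1, hT1⟩ := hbeB 1 one_pos
    obtain ⟨C', hC', hs3⟩ := s3 j 10 (by norm_num)
    obtain ⟨C2, hC2, hmtt⟩ := mtt hφ
    have hj1 : 1 ≤ j := hj
    have ev : ∀ᶠ x : ℝ in atTop, XQ ≤ x ∧ T1 ≤ Real.sqrt x ∧ C' ^ 2 ≤ (yy x : ℝ) ∧ 1 ≤ Real.log x ∧
        Real.log x ^ (j + 1) ≤ x ^ (3 / 4 : ℝ) ∧ 3 ≤ x := by
      have e5 : ∀ᶠ x : ℝ in atTop, Real.log x ^ (j + 1) ≤ x ^ (3 / 4 : ℝ) := by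
        have h := (isLittleO_log_rpow_rpow_atTop (s := 3 / 4) ((j : ℝ) + 1) (by norm_num)).bound one_pos
        filter_upwards [h, eventually_ge_atTop 1, Real.tendsto_log_atTop.eventually_ge_atTop 0] with x h1 h2 h3
        have h4 : Real.log x ^ ((j : ℝ) + 1) = Real.log x ^ (j + 1) := by
          rw [← Real.rpow_natCast]
          push_cast
          rfl
        rw [h4, Real.norm_eq_abs, Real.norm_eq_abs, abs_of_nonneg (by positivity), abs_of_nonneg (by positivity),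
          one_mul] at h1
        exact h1
      have e3 : ∀ᶠ x : ℝ in atTop, C' ^ 2 ≤ (yy x : ℝ) :=
        (tendsto_natCast_atTop_atTop.comp tendsto_yy).eventually_ge_atTop _
      filter_upwards [eventually_ge_atTop XQ, Real.tendsto_sqrt_atTop.eventually_ge_atTop T1, e3,
        Real.tendsto_log_atTop.eventually_ge_atTop 1, e5, eventually_ge_atTop 3] with x a1 a2 a3 a4 a5 a6
      exact ⟨a1, a2, a3, a4, a5, a6⟩
    obtain ⟨X, hX⟩ := eventually_atTop.mp ev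
    refine ⟨(∫ x, φ x) * (4 * C1) ^ j + C2, X, fun x hx P hP hP100 hPB v hv H hHj hH hHc => ?_⟩
    obtain ⟨a1, a2, a3, a4, a5, a6⟩ := hX x hx
    obtain ⟨q1, q2, q3, q4, q5, q6, q7, q8⟩ := hXQ x a1 P hP hP100 hPB H hHj.le hH
    obtain ⟨W, hW⟩ : ∃ W : ℕ, W = WS (yy x) P := ⟨_, rfl⟩
    obtain ⟨Q, hQ⟩ : ∃ Q : ℕ, Q = QH (yy x) P H := ⟨_, rfl⟩
    have hWpos : 1 ≤ W := by rw [hW]; exact ws_pos _ _
    have hW1 : (1 : ℝ) ≤ W := by exact_mod_cast hWpos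
    simp only [← hW, ← hQ] at q1 q2 q3 q4 q5 q6 q7 q8
    obtain ⟨T, hT⟩ : ∃ T : ℝ, T = x / (2 * (W : ℝ)) := ⟨_, rfl⟩
    rw [← hT] at q3 q6 q7 q8
    have hx0 : 0 < x := by linarith
    have hsx : 1 ≤ Real.sqrt x := Real.one_le_sqrt.mpr (by linarith)
    have hT1' : 1 ≤ T := hsx.trans q3
    have hTx : T ≤ x := by
      rw [hT]
      exact div_le_self hx0.le (by linarith)
    obtain ⟨b1, b2, b3, _, _⟩ := hT1 T (a2.trans q3) Q q1 q6
    have hρ0 : 0 < rho x W := q5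
    have hu0 : 0 < uu 1 T Q := lt_of_lt_of_le (by positivity) q7
    have hR0 : (Rr r T : ℝ) ≤ T ^ r := by
      unfold Rr
      exact Nat.floor_le (by positivity)
    have hRz : Rr r T ≤ ⌊x ^ δ⌋₊ := by
      unfold Rr
      refine Nat.floor_le_floor ?_
      calc T ^ r ≤ x ^ r := Real.rpow_le_rpow (by linarith) hTx hr0.le
        _ ≤ x ^ δ := Real.rpow_le_rpow_of_exponent_le (by linarith) hrδ
    have hRx : ((Rr r T : ℝ) ^ 2) ^ j ≤ x ^ (1 / 4 : ℝ) := by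
      rw [← pow_mul]
      calc (Rr r T : ℝ) ^ (2 * j) ≤ (T ^ r) ^ (2 * j) := pow_le_pow_left₀ (Nat.cast_nonneg _) hR0 _
        _ = T ^ (r * ((2 * j : ℕ) : ℝ)) := by rw [Real.rpow_mul (by linarith), Real.rpow_natCast]
        _ ≤ T ^ (1 / 4 : ℝ) := by
            refine Real.rpow_le_rpow_of_exponent_le hT1' ?_
            push_cast
            linarith
        _ ≤ x ^ (1 / 4 : ℝ) := Real.rpow_le_rpow (by linarith) hTx (by norm_num)
    have hyC : C' ≤ (yy x : ℝ) := by nlinarith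
    have hy2 : C' / Real.sqrt (yy x) ≤ 1 := by
      have h1 : C' ≤ Real.sqrt (yy x) := by
        exact Real.le_sqrt_of_sq_le a3
      rw [div_le_one (by linarith)]
      exact h1
    have hinv : 1 / uu 1 T Q ≤ 4 * rho x W := by
      rw [div_le_iff₀ hu0]
      have h1 : 1 / 4 / rho x W * (4 * rho x W) = 1 := by field_simp
      nlinarith
    have key := Ub_main hφ hj1 hC1 hC2 hs3 hmtt (x := x ^ (1 / 4 : ℝ)) (ρ := rho x W) (u := uu 1 T Q)
      (T := T) (y := yy x) (P := P) (v := v) (z := ⌊x ^ δ⌋₊) (Q := Q) (R := Rr r T) hP H hHj hT1' hQ q2 hyC hy2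
      hu0 b1 hRz b2 b3 hinv hRx
    have hsum : ∑ t ∈ Finset.range (⌊x / (W : ℝ)⌋₊ + 1), φ (2 * (W : ℝ) * t / x) *
          Set.indicator {t : ℕ | ∀ h ∈ H, Clean Q ⌊x ^ δ⌋₊ (W * t + v + h)} 1 t =
        ∑ t ∈ rT T, φ ((t : ℝ) / T) *
          Set.indicator {t : ℕ | ∀ h ∈ H, Clean Q ⌊x ^ δ⌋₊ (WS (yy x) P * t + v + h)} 1 t := by
      have h2 : 2 * T = x / (W : ℝ) := by
        rw [hT]
        field_simp
      unfold rT
      rw [h2, ← hW]
      refine Finset.sum_congr rfl fun t _ => ?_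
      congr 2
      rw [hT]
      field_simp
    rw [← hW, ← hQ, hsum]
    refine key.trans ?_
    have hlow : x ^ (1 / 4 : ℝ) ≤ x / (W : ℝ) * rho x W ^ j := by
      have hL0 : 0 < Real.log x := by linarith
      have hWL : (W : ℝ) ≤ Real.log x := by nlinarith
      have htot : ((W.totient : ℕ) : ℝ) ≤ W := by exact_mod_cast Nat.totient_le W
      have htot0 : (0 : ℝ) < (W.totient : ℝ) := by exact_mod_cast Nat.totient_pos.mpr hWpos
      have hρL : 1 / Real.log x ≤ rho x W := by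
        unfold rho
        rw [div_le_div_iff₀ hL0 (by positivity)]
        nlinarith
      have h1 : x / Real.log x * (1 / Real.log x) ^ j ≤ x / (W : ℝ) * rho x W ^ j := by
        refine mul_le_mul ?_ (pow_le_pow_left₀ (by positivity) hρL j) (by positivity) (by positivity)
        exact div_le_div_of_nonneg_left hx0.le (by linarith) hWL
      refine le_trans ?_ h1
      have h2 : x / Real.log x * (1 / Real.log x) ^ j = x / Real.log x ^ (j + 1) := by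
        rw [one_div, inv_pow, pow_succ]
        field_simp
      rw [h2, le_div_iff₀ (by positivity)]
      calc x ^ (1 / 4 : ℝ) * Real.log x ^ (j + 1) ≤ x ^ (1 / 4 : ℝ) * x ^ (3 / 4 : ℝ) := by gcongr
        _ = x := by
            rw [← Real.rpow_add hx0]
            norm_num
    have hTe : T * (∫ x, φ x) * (2 * (4 * C1 * rho x W) ^ j) =
        (∫ x, φ x) * (4 * C1) ^ j * (x / (W : ℝ)) * rho x W ^ j := by
      have h2 : T = x / (W : ℝ) / 2 := by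
        rw [hT]
        field_simp
      rw [h2, mul_pow (4 * C1)]
      ring
    have h3 := mul_le_mul_of_nonneg_left hlow hC2
    rw [hTe]
    calc (∫ x, φ x) * (4 * C1) ^ j * (x / (W : ℝ)) * rho x W ^ j + C2 * x ^ (1 / 4 : ℝ)
        ≤ (∫ x, φ x) * (4 * C1) ^ j * (x / (W : ℝ)) * rho x W ^ j + C2 * (x / (W : ℝ) * rho x W ^ j) := by
          linarith
      _ = ((∫ x, φ x) * (4 * C1) ^ j + C2) * (x / (W : ℝ)) * rho x W ^ j := by ring

end Pool.Agent.H39.MT
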