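/-
Fin. Assembly: prime triples inside every set of `ε log x` shifts.
-/
import Pool.Agent.H39.MT.MTb
import Pool.Agent.H39.MT.Ub
import Pool.Agent.H39.MT.FinB
import Pool.Agent.H17.PosProp

set_option autoImplicit false

namespace Pool.Agent.H39.MT

open Pool.Agent.H17 Pool.Agent.H17.Triple EG

theorem Fin_bump {η : ℝ} (h0 : 0 < η) (h1 : η ≤ 1 / 2) : ∃ φ : ℝ → ℝ, Wt η φ := by
  let f : ContDiffBump (1 : ℝ) := ⟨η / 2, η, by positivity, by linarith⟩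
  refine ⟨f, h0, h1, f.contDiff, ?_, fun x => f.nonneg, fun x => f.le_one, ?_⟩
  · intro x hx
    exact f.zero_of_le_dist (by rw [Real.dist_eq]; exact hx)
  · exact f.integral_pos

theorem Fin_local : LocalLow := by
  obtain ⟨φ, hφ⟩ := Fin_bump (η := 1 / 2) (by norm_num) le_rfl
  exact local_low hφ (mtb hφ) (ubd hφ 1)

/-- **Prime triples in every set of `ε log x` shifts.** -/
theorem every_set : ∀ ε : ℝ, 0 < ε → ∃ c X : ℝ, 0 < c ∧ ∀ x : ℝ, X ≤ x → ∀ A : Finset ℕ,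
    (∀ a ∈ A, ∀ b ∈ A, (b : ℝ) ≤ a + (Real.log x) ^ 2) →
    (ε * (Real.log x) ^ 3 ≤ (A.card : ℝ) ^ 3 ∨
      ε * (Real.log x) ^ 3 ≤ ∑ t ∈ triples A, singularSeries (t.2.2 - t.2.1) (t.2.2 - t.1)) →
    c * ∑ t ∈ triples A,
        singularSeries (t.2.2 - t.2.1) (t.2.2 - t.1) * x / (Real.log x) ^ 3
      ≤ ∑ t ∈ triples A, (primeTriples x (t.2.2 - t.2.1) (t.2.2 - t.1) : ℝ) :=
  fin_b Fin_local

/-- the triples with many prime triples carry a positive proportion of the weight -/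
theorem every_set_proportion : ∀ ε : ℝ, 0 < ε → ∃ c X : ℝ, 0 < c ∧ ∀ x : ℝ, X ≤ x → ∀ A : Finset ℕ,
    (∀ a ∈ A, ∀ b ∈ A, (b : ℝ) ≤ a + (Real.log x) ^ 2) →
    (ε * (Real.log x) ^ 3 ≤ (A.card : ℝ) ^ 3 ∨
      ε * (Real.log x) ^ 3 ≤ ∑ t ∈ triples A, singularSeries (t.2.2 - t.2.1) (t.2.2 - t.1)) →
    c * ∑ t ∈ triples A, singularSeries (t.2.2 - t.2.1) (t.2.2 - t.1)
      ≤ ∑ t ∈ (triples A).filter (fun t => c * (singularSeries (t.2.2 - t.2.1) (t.2.2 - t.1) * x / (Real.log x) ^ 3)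
          ≤ (primeTriples x (t.2.2 - t.2.1) (t.2.2 - t.1) : ℝ)), singularSeries (t.2.2 - t.2.1) (t.2.2 - t.1) := by
  intro ε hε
  obtain ⟨c, X1, hc, h1⟩ := every_set ε hε
  obtain ⟨X2, h2⟩ := primeTriples_upper (ε := 1) one_pos
  refine ⟨c / 98, max (max X1 X2) 2, by positivity, fun x hx A hA hcard => ?_⟩
  have hx1 : X1 ≤ x := ((le_max_left _ _).trans (le_max_left _ _)).trans hx
  have hx2 : X2 ≤ x := ((le_max_right _ _).trans (le_max_left _ _)).trans hx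
  have hx3 : 2 ≤ x := (le_max_right _ _).trans hx
  have hL0 : 0 < Real.log x := Real.log_pos (by linarith)
  set L := Real.log x with hL
  set U : ℝ := x / L ^ 3 with hU
  have hU0 : 0 < U := by positivity
  have hmain := h1 x hx1 A hA hcard
  set S : ℕ × ℕ × ℕ → ℝ := fun t => singularSeries (t.2.2 - t.2.1) (t.2.2 - t.1) with hS
  set P : ℕ × ℕ × ℕ → ℝ := fun t => (primeTriples x (t.2.2 - t.2.1) (t.2.2 - t.1) : ℝ) with hP
  have hmem : ∀ t ∈ triples A, (t.1 ∈ A ∧ t.2.1 ∈ A ∧ t.2.2 ∈ A) ∧ t.1 < t.2.1 ∧ t.2.1 < t.2.2 ∧ S t ≠ 0 := by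
    intro t ht
    unfold triples at ht
    rw [Finset.mem_filter, Finset.mem_product, Finset.mem_product] at ht
    exact ⟨ht.1, ht.2.1, ht.2.2.1, ht.2.2.2⟩
  have hSU : ∀ t, S t * x / L ^ 3 = S t * U := fun t => by rw [hU]; ring
  have hm1 : c * ((∑ t ∈ triples A, S t) * U) ≤ ∑ t ∈ triples A, P t := by
    refine le_trans (le_of_eq ?_) hmain
    rw [Finset.sum_mul]
    congr 1
    apply Finset.sum_congr rfl
    intro t _
    exact (hSU t).symm
  set G := (triples A).filter (fun t => c / 98 * (S t * x / L ^ 3) ≤ P t) with hG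
  set B := (triples A).filter (fun t => ¬ c / 98 * (S t * x / L ^ 3) ≤ P t) with hB
  have hsplitP : ∑ t ∈ triples A, P t = ∑ t ∈ G, P t + ∑ t ∈ B, P t :=
    (Finset.sum_filter_add_sum_filter_not _ _ _).symm
  have hsplitS : ∑ t ∈ triples A, S t = ∑ t ∈ G, S t + ∑ t ∈ B, S t :=
    (Finset.sum_filter_add_sum_filter_not _ _ _).symm
  have hGP : ∑ t ∈ G, P t ≤ (48 + 1) * ((∑ t ∈ G, S t) * U) := by
    rw [Finset.sum_mul, Finset.mul_sum]
    apply Finset.sum_le_sum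
    intro t ht
    rw [hG, Finset.mem_filter] at ht
    obtain ⟨⟨ha, hb, hc⟩, hab, hbc, hne⟩ := hmem t ht.1
    have h3 := h2 x hx2 t.1 t.2.1 t.2.2 hab hbc (hA _ ha _ hc) hne
    rw [← hSU t]
    exact h3
  have hBP : ∑ t ∈ B, P t ≤ c / 98 * ((∑ t ∈ B, S t) * U) := by
    rw [Finset.sum_mul, Finset.mul_sum]
    apply Finset.sum_le_sum
    intro t ht
    rw [hB, Finset.mem_filter, not_le] at ht
    rw [← hSU t]
    exact ht.2.le
  have hBnn : 0 ≤ ∑ t ∈ B, S t := by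
    apply Finset.sum_nonneg
    intro t ht
    rw [hB, Finset.mem_filter] at ht
    obtain ⟨_, hab, hbc, _⟩ := hmem t ht.1
    exact singularSeries_nonneg hab hbc
  have hGnn : 0 ≤ ∑ t ∈ G, S t := by
    apply Finset.sum_nonneg
    intro t ht
    rw [hG, Finset.mem_filter] at ht
    obtain ⟨_, hab, hbc, _⟩ := hmem t ht.1
    exact singularSeries_nonneg hab hbc
  obtain ⟨g, hg⟩ : ∃ g, g = ∑ t ∈ G, S t := ⟨_, rfl⟩
  obtain ⟨b, hb⟩ : ∃ b, b = ∑ t ∈ B, S t := ⟨_, rfl⟩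
  show c / 98 * ∑ t ∈ triples A, S t ≤ ∑ t ∈ G, S t
  rw [hsplitS, hsplitP] at hm1
  rw [hsplitS]
  rw [← hg, ← hb] at hm1 ⊢
  rw [← hg] at hGP hGnn
  rw [← hb] at hBP hBnn
  have h3 : c * (g + b) ≤ 49 * g + c / 98 * b := by
    have h5 : (c * (g + b)) * U ≤ (49 * g + c / 98 * b) * U := by linarith
    exact le_of_mul_le_mul_right h5 hU0
  have h4 : 0 ≤ c * g := mul_nonneg hc.le hGnn
  have h5 : 0 ≤ c * b := mul_nonneg hc.le hBnn
  have h6 : c / 98 * (g + b) = (c * g + c * b) / 98 := by ring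
  have h7 : c / 98 * b = c * b / 98 := by ring
  rw [h6]
  rw [h7, mul_add] at h3
  linarith

end Pool.Agent.H39.MT
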